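import Pool.Agent.W_420c7c_h29.Pairs

/-!
# Few bad primes

* `bad_cases`: as `q - 1 ∤ lcmUpto y` there is a prime `l` with `l ^ e ∣ q - 1`, `e` the exponent of `l`
  in `q - 1`, and `l ^ e > y` (`Nat.factorization_prime_le_iff_dvd`, `Nat.factorization_lcmUpto`:
  otherwise `e ≤ Nat.log l y` for all `l`). Let `k = (q - 1) / l ^ e`; `k * l ^ e = q - 1 < K y` gives
  `k < K`, and `k ≥ 1` (as `q ≥ 3`: `q = 2` is never bad). The two cases are `e = 1` and `e ≥ 2`.
* `bad_count`: the number of bad primes `q ≤ K y` is at most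
  `∑_{1 ≤ k < K} #{l ≤ K y | l, k l + 1 prime} + ∑_{1 ≤ k < K} #{(l, e) | e ≥ 2, l ^ e ≤ K y}`, the
  second number is at most `K * √(K y) * (log₂ (K y) + 1)` (for each `e` in `[2, log₂ (K y)]` there are
  at most `√(K y)` values of `l`). By `pairs_small` (with `δ / (4 K (K+1))` for instance) and
  `log (K y) ≥ log y` everything is at most `δ y / log y` for large `y`.
-/

namespace Pool.Agent.W_420c7c_h29

theorem bad_cases {K y q : ℕ} (hy : 1 ≤ y) (hq : q.Prime) (hqK : q ≤ K * y)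
    (hbad : ¬ (q - 1) ∣ Nat.lcmUpto y) :
    (∃ k l, 1 ≤ k ∧ k < K ∧ l.Prime ∧ q = k * l + 1) ∨
      ∃ k l e, 1 ≤ k ∧ k < K ∧ l.Prime ∧ 2 ≤ e ∧ q = k * l ^ e + 1 := by
  have hq2 := hq.two_le
  have hq0 : q - 1 ≠ 0 := by omega
  rw [← Nat.factorization_prime_le_iff_dvd hq0 (Nat.lcmUpto_ne_zero y)] at hbad
  push Not at hbad
  obtain ⟨l, hl, hlt⟩ := hbad
  rw [Nat.factorization_lcmUpto y hl] at hlt
  have h1 : y < l ^ (q - 1).factorization l := Nat.lt_pow_of_log_lt hl.one_lt hlt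
  obtain ⟨k, hk⟩ := Nat.ordProj_dvd (q - 1) l
  generalize (q - 1).factorization l = e at *
  have hk1 : 1 ≤ k := by
    rcases Nat.eq_zero_or_pos k with h0 | h0
    · rw [h0, mul_zero] at hk
      omega
    · exact h0
  have hkK : k < K := by
    by_contra hcon
    push Not at hcon
    have h2 : K * y ≤ l ^ e * k := by
      calc K * y ≤ k * l ^ e := Nat.mul_le_mul hcon h1.le
        _ = l ^ e * k := Nat.mul_comm _ _
    omega
  have hqe : q = k * l ^ e + 1 := by
    rw [Nat.mul_comm, ← hk]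
    omega
  rcases Nat.lt_or_ge e 2 with he | he
  · have he1 : e = 1 := by omega
    left
    refine ⟨k, l, hk1, hkK, hl, ?_⟩
    rw [he1, pow_one] at hqe
    exact hqe
  · right
    exact ⟨k, l, e, hk1, hkK, hl, he, hqe⟩

/-- the combinatorial part of the count -/
theorem bad_comb {K y : ℕ} (hy : 1 ≤ y) :
    ((Finset.range (K * y + 1)).filter fun q => q.Prime ∧ ¬ (q - 1) ∣ Nat.lcmUpto y).card ≤
      ∑ k ∈ Finset.Ico 1 K, (((Finset.range (K * y + 1)).filter
        fun l => l.Prime ∧ (k * l + 1).Prime).card +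
        (Nat.sqrt (K * y) + 1) * (Nat.log 2 (K * y) + 1)) := by
  classical
  set N := K * y with hN
  set W : Finset (ℕ × ℕ) := Finset.range (Nat.sqrt N + 1) ×ˢ Finset.range (Nat.log 2 N + 1) with hW
  have hWc : W.card = (Nat.sqrt N + 1) * (Nat.log 2 N + 1) := by
    rw [hW, Finset.card_product, Finset.card_range, Finset.card_range]
  have hsub : ((Finset.range (N + 1)).filter fun q => q.Prime ∧ ¬ (q - 1) ∣ Nat.lcmUpto y) ⊆
      (Finset.Ico 1 K).biUnion fun k => ((Finset.range (N + 1)).filter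
        fun l => l.Prime ∧ (k * l + 1).Prime).image (fun l => k * l + 1) ∪
        W.image (fun p => k * p.1 ^ p.2 + 1) := by
    intro q hq
    rw [Finset.mem_filter, Finset.mem_range] at hq
    obtain ⟨hqN, hqp, hqb⟩ := hq
    rw [Finset.mem_biUnion]
    rcases bad_cases (K := K) hy hqp (by omega) hqb with
      ⟨k, l, hk1, hkK, hl, hql⟩ | ⟨k, l, e, hk1, hkK, hl, he, hql⟩
    · refine ⟨k, Finset.mem_Ico.2 ⟨hk1, hkK⟩, Finset.mem_union_left _ ?_⟩
      refine Finset.mem_image.2 ⟨l, ?_, hql.symm⟩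
      rw [Finset.mem_filter, Finset.mem_range]
      have h1 : l ≤ k * l := Nat.le_mul_of_pos_left l hk1
      exact ⟨by omega, hl, hql ▸ hqp⟩
    · refine ⟨k, Finset.mem_Ico.2 ⟨hk1, hkK⟩, Finset.mem_union_right _ ?_⟩
      refine Finset.mem_image.2 ⟨(l, e), ?_, hql.symm⟩
      have h1 : l ^ e ≤ k * l ^ e := Nat.le_mul_of_pos_left _ hk1
      have h2 : l ^ e ≤ N := by omega
      have h3 : l ^ 2 ≤ N := (Nat.pow_le_pow_right hl.pos he).trans h2
      have h4 : l ≤ Nat.sqrt N := Nat.le_sqrt'.2 h3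
      have h5 : e ≤ Nat.log 2 N := by
        refine Nat.le_log_of_pow_le (by norm_num) ?_
        exact (Nat.pow_le_pow_left hl.two_le e).trans h2
      rw [hW, Finset.mem_product, Finset.mem_range, Finset.mem_range]
      exact ⟨by omega, by omega⟩
  refine (Finset.card_le_card hsub).trans (Finset.card_biUnion_le.trans ?_)
  refine Finset.sum_le_sum fun k _ => ?_
  refine (Finset.card_union_le _ _).trans ?_
  rw [← hWc]
  exact Nat.add_le_add Finset.card_image_le Finset.card_image_le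

theorem bad_count (K : ℕ) (δ : ℝ) (hδ : 0 < δ) : ∃ y₀ : ℕ, ∀ y : ℕ, y₀ ≤ y →
    (((Finset.range (K * y + 1)).filter fun q => q.Prime ∧ ¬ (q - 1) ∣ Nat.lcmUpto y).card : ℝ) ≤
      δ * y / Real.log y := by
  have hpair : ∀ k : ℕ, ∃ x₀ : ℕ, 1 ≤ k → ∀ x : ℕ, x₀ ≤ x →
      (((Finset.range (x + 1)).filter fun l => l.Prime ∧ (k * l + 1).Prime).card : ℝ) ≤
        δ / (2 * ((K : ℝ) + 1) ^ 2) * x / Real.log x := by
    intro k
    by_cases hk : 1 ≤ k
    · obtain ⟨x₀, h⟩ := pairs_small k hk (δ / (2 * ((K : ℝ) + 1) ^ 2)) (by positivity)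
      exact ⟨x₀, fun _ => h⟩
    · exact ⟨0, fun h => absurd h hk⟩
  choose X hX using hpair
  have hasy : ∃ y₁ : ℕ, ∀ y : ℕ, y₁ ≤ y →
      20 * (K : ℝ) ^ 2 * Real.log y ^ 2 ≤ δ * √(y : ℝ) ∧ 1 ≤ Real.log y := by
    have e1 : ∀ᶠ y : ℝ in Filter.atTop, 20 * (K : ℝ) ^ 2 * Real.log y ^ 2 ≤ δ * √y := by
      have h1 := (isLittleO_log_rpow_rpow_atTop (s := 1 / 2) 2 (by norm_num)).bound
        (c := δ / (20 * (K : ℝ) ^ 2 + 1)) (by positivity)
      filter_upwards [h1, Filter.eventually_ge_atTop (1 : ℝ)] with y hy hy1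
      have hlog : 0 ≤ Real.log y := Real.log_nonneg hy1
      rw [Real.norm_of_nonneg (by positivity), Real.norm_of_nonneg (by positivity),
        Real.rpow_two, ← Real.sqrt_eq_rpow] at hy
      rw [div_mul_eq_mul_div, le_div_iff₀ (by positivity)] at hy
      nlinarith [sq_nonneg (Real.log y)]
    have e2 : ∀ᶠ y : ℝ in Filter.atTop, 1 ≤ Real.log y :=
      Real.tendsto_log_atTop.eventually_ge_atTop 1
    exact Filter.eventually_atTop.1 (tendsto_natCast_atTop_atTop.eventually (e1.and e2))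
  obtain ⟨y₁, hy₁⟩ := hasy
  refine ⟨max (max y₁ ((Finset.range K).sup X)) (max K 1), fun y hy => ?_⟩
  obtain ⟨h1, h2⟩ := hy₁ y ((le_max_left _ _).trans ((le_max_left _ _).trans hy))
  have hyX : (Finset.range K).sup X ≤ y := (le_max_right _ _).trans ((le_max_left _ _).trans hy)
  have hyK : K ≤ y := (le_max_left _ _).trans ((le_max_right _ _).trans hy)
  have hy1 : 1 ≤ y := (le_max_right _ _).trans ((le_max_right _ _).trans hy)
  have hyr : (1 : ℝ) ≤ y := by exact_mod_cast hy1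
  have hKy : (K : ℝ) ≤ y := by exact_mod_cast hyK
  have hcomb : (((Finset.range (K * y + 1)).filter
      fun q => q.Prime ∧ ¬ (q - 1) ∣ Nat.lcmUpto y).card : ℝ) ≤
      ∑ k ∈ Finset.Ico 1 K, ((((Finset.range (K * y + 1)).filter
        fun l => l.Prime ∧ (k * l + 1).Prime).card : ℝ) +
        ((Nat.sqrt (K * y) : ℝ) + 1) * ((Nat.log 2 (K * y) : ℝ) + 1)) := by
    exact_mod_cast bad_comb (K := K) hy1
  refine hcomb.trans ?_
  have hlog0 : 0 < Real.log y := by linarith
  have hterm : ∀ k ∈ Finset.Ico 1 K, (((Finset.range (K * y + 1)).filter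
        fun l => l.Prime ∧ (k * l + 1).Prime).card : ℝ) +
        ((Nat.sqrt (K * y) : ℝ) + 1) * ((Nat.log 2 (K * y) : ℝ) + 1) ≤
        δ / (2 * ((K : ℝ) + 1) ^ 2) * (K * y) / Real.log y + 10 * K * √(y : ℝ) * Real.log y := by
    intro k hk
    rw [Finset.mem_Ico] at hk
    have hK1 : 1 ≤ K := by omega
    have hK1r : (1 : ℝ) ≤ K := by exact_mod_cast hK1
    refine add_le_add ?_ ?_
    · have h3 := hX k hk.1 (K * y) (by
        have h4 : X k ≤ (Finset.range K).sup X :=
          Finset.le_sup (f := X) (Finset.mem_range.2 hk.2)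
        have h5 : y ≤ K * y := Nat.le_mul_of_pos_left y hK1
        omega)
      refine h3.trans ?_
      push_cast
      refine div_le_div_of_nonneg_left (by positivity) hlog0 ?_
      refine Real.log_le_log (by linarith) ?_
      nlinarith
    · have h3 : (Nat.sqrt (K * y) : ℝ) ≤ K * √(y : ℝ) := by
        refine Real.nat_sqrt_le_real_sqrt.trans ?_
        push_cast
        rw [Real.sqrt_mul (by positivity)]
        refine mul_le_mul_of_nonneg_right ?_ (Real.sqrt_nonneg _)
        rw [Real.sqrt_le_left (by positivity)]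
        nlinarith
      have h4 : (Nat.log 2 (K * y) : ℝ) ≤ 4 * Real.log y := by
        refine (Real.natLog_le_logb _ _).trans ?_
        push_cast
        rw [Real.logb, div_le_iff₀ (Real.log_pos (by norm_num)),
          Real.log_mul (by positivity) (by positivity)]
        have h5 := Real.log_two_gt_d9
        have h6 : Real.log K ≤ Real.log y := Real.log_le_log (by linarith) hKy
        nlinarith
      have h7 : 1 ≤ K * √(y : ℝ) := by
        have h8 : (1 : ℝ) ≤ √(y : ℝ) := Real.one_le_sqrt.2 hyr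
        nlinarith
      calc ((Nat.sqrt (K * y) : ℝ) + 1) * ((Nat.log 2 (K * y) : ℝ) + 1)
          ≤ (K * √(y : ℝ) + K * √(y : ℝ)) * (4 * Real.log y + Real.log y) := by
            refine mul_le_mul (by linarith) (by linarith) (by positivity) (by positivity)
        _ = 10 * K * √(y : ℝ) * Real.log y := by ring
  refine (Finset.sum_le_sum hterm).trans ?_
  rw [Finset.sum_const, Nat.card_Ico, nsmul_eq_mul]
  have hKr : ((K - 1 : ℕ) : ℝ) ≤ K := by exact_mod_cast Nat.sub_le K 1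
  have hnn : 0 ≤ δ / (2 * ((K : ℝ) + 1) ^ 2) * (K * y) / Real.log y +
      10 * K * √(y : ℝ) * Real.log y := by positivity
  refine (mul_le_mul_of_nonneg_right hKr hnn).trans ?_
  have hA : (K : ℝ) * (δ / (2 * ((K : ℝ) + 1) ^ 2) * (K * y) / Real.log y) ≤
      δ * y / Real.log y / 2 := by
    have h3 : (K : ℝ) * (δ / (2 * ((K : ℝ) + 1) ^ 2) * (K * y) / Real.log y) =
        ((K : ℝ) ^ 2 / ((K : ℝ) + 1) ^ 2) * (δ * y / Real.log y / 2) := by
      field_simp
    rw [h3]
    have h4 : (K : ℝ) ^ 2 / ((K : ℝ) + 1) ^ 2 ≤ 1 := by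
      rw [div_le_one (by positivity)]
      have : (0 : ℝ) ≤ K := Nat.cast_nonneg K
      nlinarith
    have h5 : 0 ≤ δ * y / Real.log y / 2 := by positivity
    nlinarith
  have hB : (K : ℝ) * (10 * K * √(y : ℝ) * Real.log y) ≤ δ * y / Real.log y / 2 := by
    rw [div_div, le_div_iff₀ (by positivity)]
    have h3 : √(y : ℝ) * √(y : ℝ) = y := Real.mul_self_sqrt (by linarith)
    have h4 : 0 ≤ √(y : ℝ) := Real.sqrt_nonneg _
    have h5 := mul_le_mul_of_nonneg_left h1 h4
    calc (K : ℝ) * (10 * K * √(y : ℝ) * Real.log y) * (Real.log y * 2)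
        = √(y : ℝ) * (20 * (K : ℝ) ^ 2 * Real.log y ^ 2) := by ring
      _ ≤ √(y : ℝ) * (δ * √(y : ℝ)) := h5
      _ = δ * (√(y : ℝ) * √(y : ℝ)) := by ring
      _ = δ * y := by rw [h3]
  rw [mul_add]
  linarith

end Pool.Agent.W_420c7c_h29
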