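import Pool.Agent.W_420c7c_h29.Defs
import Pool.Agent.W_MP_420c7c_nt.Structure

/-!
# First consequences of the congruences

* `no_small`: if `l ∣ n` then `fermat_prime` (file `Pool/Agent/W_MP_420c7c_nt/Fermat.lean`, needs `n`
  odd) gives `(l : ZMod n) ^ n = 0`, so `n ∣ l ^ n` and `n = l ^ k` (`Nat.dvd_prime_pow`); `n` is
  squarefree, so `k ≤ 1` and `n = l` is prime, a contradiction. `n` is odd by `even_eq_two`.
* `comp_facts`: the hypothesis implies condition (C) of the problem (`r ≤ (log₂ n)² ≤ B`), so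
  `squarefree_of_cond` (`Structure.lean`) applies for large `n`.
-/

namespace Pool.Agent.W_420c7c_h29

open Polynomial

theorem no_small {n l : ℕ} (hn : 3 ≤ n) (hnp : ¬ n.Prime) (hsq : Squarefree n) (hl : l.Prime)
    (h2 : Cong n 2) (h : Cong n (2 * l)) : ¬ l ∣ n := by
  intro hln
  have hodd : Odd n := by
    rw [← Nat.not_even_iff_odd]
    intro hev
    have := Pool.Agent.W_MP_420c7c_nt.even_eq_two (by omega) h2 hev
    omega
  have h1 := (Pool.Agent.W_MP_420c7c_nt.fermat_prime (by omega) hodd hl h).1 hln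
  have h3 : n ∣ l ^ n := by
    rw [← ZMod.natCast_eq_zero_iff]
    push_cast
    exact h1
  obtain ⟨k, -, hk⟩ := (Nat.dvd_prime_pow hl).1 h3
  rcases Nat.lt_or_ge k 2 with hk2 | hk2
  · interval_cases k
    · rw [pow_zero] at hk
      omega
    · rw [pow_one] at hk
      exact hnp (hk ▸ hl)
  · have h4 : l * l ∣ n := by
      rw [hk, ← sq]
      exact pow_dvd_pow l hk2
    exact hl.not_isUnit (hsq l h4)

theorem comp_facts : ∃ N : ℕ, ∀ n : ℕ, N ≤ n → ∀ B : ℝ, (Real.logb 2 n) ^ 2 ≤ B → ¬ n.Prime →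
    (∀ r : ℕ, 1 ≤ r → (r : ℝ) ≤ B → Cong n r) →
      Squarefree n ∧ ∀ l : ℕ, l.Prime → 2 * (l : ℝ) ≤ B → ¬ l ∣ n := by
  obtain ⟨N, hN⟩ := Pool.Agent.W_MP_420c7c_nt.squarefree_of_cond
  refine ⟨max N 3, fun n hn B hB hnp hC => ?_⟩
  have hnN : N ≤ n := (le_max_left _ _).trans hn
  have hn3 : 3 ≤ n := (le_max_right _ _).trans hn
  have hsq : Squarefree n := hN n hnN fun r hr hrB => hC r hr (hrB.trans hB)
  refine ⟨hsq, fun l hl hlB => ?_⟩
  have hl2 : (2 : ℝ) ≤ l := by exact_mod_cast hl.two_le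
  refine no_small hn3 hnp hsq hl (hC 2 (by norm_num) ?_) (hC (2 * l) ?_ ?_)
  · push_cast
    linarith
  · have := hl.pos
    omega
  · push_cast
    exact hlB

end Pool.Agent.W_420c7c_h29
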