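import Pool.Agent.W_420c7c_h29.CoreA

/-!
# The core of the argument (in this file: `core`)

Let `F = AlgebraicClosure (ZMod p)`, `a = m ^ M`, `b = p ^ M`, `t = (cls r a b).ncard`, `w = φ(s) ≥ 1`,
`J = Nat.sqrt (t / w)` (natural division), `ζ` a primitive `r`-th root of unity. As `4 w ≤ t`:
`J ≥ 2`, `w J² ≤ t`, `w (J+1)² > t`; `J ≤ Nat.sqrt r` by `ncard_cls_le`.

`core_values` (lower bound): the map `S ↦ (PS S).eval ζ` is injective on the subsets of `idx F s J`: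
let `(PS S).eval ζ = (PS S').eval ζ`. For each `x ∈ cls r a b` choose `u, v` with
`x = a ^ u b ^ v`, `e_x = a ^ u * b ^ v`; the points `ζ ^ e_x` are `t` different points (`e_x` are
incongruent modulo `r`, `ζ` is a primitive `r`-th root: `IsPrimitiveRoot.pow_inj` or
`pow_eq_pow_iff_modEq`), and at each of them `PS S` and `PS S'` agree by `intro_eval` (both sides are
the `e_x`-th power of the value at `ζ`; the hypothesis `i.1 ^ s = 1` follows from
`S ⊆ idx F s J`). By `natDegree_PS_le` the degrees are at most `w J (J+1) / 2 < t` (`J (J+1) / 2 < J²`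
as `J ≥ 2`). So `PS S = PS S'` (`Polynomial.eq_of_degree_sub_lt_of_eval_finset_eq` or
`Polynomial.card_roots'`), and `S = S'` by `PS_inj` (the primitive `(j s)`-th roots exist by
`exists_prim` as `p` is prime to `j` and `s`).
`card (primitiveRoots s F) = w` (`IsPrimitiveRoot.card_primitiveRoots`), so there are
`2 ^ (w J)` subsets.

`core`: upper bound: let `P = logb 2 p ≥ 1`, `Q = logb 2 m ≥ 1`, `U = ⌊√(t P / Q)⌋₊`,
`V = ⌊√(t Q / P)⌋₊`; `(U+1)(V+1) > √(t P / Q) √(t Q / P) = t`. `pigeon` gives two pairs, the exponents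
`E₁ = a ^ u b ^ v`, `E₂ = a ^ u' b ^ v'` are different by `pow_mul_pow_inj`, at most `a ^ U b ^ V`, and
`y ^ E₁ = y ^ E₂` for all values `y = (PS S).eval ζ`, since `ζ ^ E₁ = ζ ^ E₂`. By
`card_le_of_pow_eq`: `2 ^ (w J) ≤ a ^ U b ^ V`, so (logarithms to the base 2)
`w J ≤ M (U Q + V P) ≤ 2 M √(t P Q)`. But `J ≥ (2/3) (J+1) > (2/3) √(t / w)`, so
`w J > (2/3) √(w t)`, and `9 M² P Q < w` gives `(2/3) √(w t) > 2 M √(t P Q)`. Contradiction.
-/

namespace Pool.Agent.W_420c7c_h29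

open Polynomial

theorem core_real {w J t M U V : ℕ} {P Q : ℝ} (hP : 1 ≤ P) (hQ : 1 ≤ Q) (hw : 0 < w) (ht : 0 < t)
    (hJ2 : 2 ≤ J) (hJt : t < w * (J + 1) ^ 2) (hU : (U : ℝ) ≤ √(t * P / Q))
    (hV : (V : ℝ) ≤ √(t * Q / P)) (h2 : 9 * (M : ℝ) ^ 2 * (P * Q) < w)
    (h : (w : ℝ) * J ≤ M * (U * Q + V * P)) : False := by
  have ht0 : (0 : ℝ) < t := by exact_mod_cast ht
  have hw0 : (0 : ℝ) < w := by exact_mod_cast hw
  have hP0 : 0 < P := by linarith
  have hQ0 : 0 < Q := by linarith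
  have hM0 : (0 : ℝ) ≤ M := Nat.cast_nonneg M
  have hJ0 : (2 : ℝ) ≤ J := by exact_mod_cast hJ2
  set R : ℝ := √(t * (P * Q)) with hR
  have hR0 : 0 ≤ R := Real.sqrt_nonneg _
  have hRsq : R ^ 2 = t * (P * Q) := Real.sq_sqrt (by positivity)
  have h3 : (U : ℝ) * Q ≤ R := by
    have h4 : √(t * P / Q) * Q = R := by
      rw [hR]
      rw [show (t : ℝ) * (P * Q) = (t * P / Q) * Q ^ 2 by field_simp]
      rw [Real.sqrt_mul (by positivity), Real.sqrt_sq hQ0.le]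
    rw [← h4]
    exact mul_le_mul_of_nonneg_right hU hQ0.le
  have h5 : (V : ℝ) * P ≤ R := by
    have h4 : √(t * Q / P) * P = R := by
      rw [hR]
      rw [show (t : ℝ) * (P * Q) = (t * Q / P) * P ^ 2 by field_simp]
      rw [Real.sqrt_mul (by positivity), Real.sqrt_sq hP0.le]
    rw [← h4]
    exact mul_le_mul_of_nonneg_right hV hP0.le
  have h6 : (w : ℝ) * J ≤ 2 * M * R := by
    have : (M : ℝ) * (U * Q + V * P) ≤ M * (2 * R) :=
      mul_le_mul_of_nonneg_left (by linarith) hM0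
    linarith
  have h7 : ((w : ℝ) * J) ^ 2 ≤ (2 * M * R) ^ 2 := pow_le_pow_left₀ (by positivity) h6 2
  have h8 : (2 * (M : ℝ) * R) ^ 2 = 4 * M ^ 2 * (t * (P * Q)) := by
    rw [mul_pow, hRsq]; ring
  rw [h8] at h7
  have h9 : (t : ℝ) < w * (J + 1) ^ 2 := by exact_mod_cast hJt
  have h10 : 4 * (t : ℝ) < 9 * w * J ^ 2 := by
    have h11 : 4 * ((J : ℝ) + 1) ^ 2 ≤ 9 * J ^ 2 := by nlinarith
    nlinarith
  have h12 : 4 * (t : ℝ) * (9 * (M : ℝ) ^ 2 * (P * Q)) < 9 * w * J ^ 2 * w := by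
    have h13 : 4 * (t : ℝ) * (9 * (M : ℝ) ^ 2 * (P * Q)) ≤ 4 * t * w :=
      mul_le_mul_of_nonneg_left h2.le (by positivity)
    have h14 : 4 * (t : ℝ) * w < 9 * w * J ^ 2 * w := mul_lt_mul_of_pos_right h10 hw0
    linarith
  nlinarith

theorem core {p m M r s : ℕ} [Fact p.Prime] (hm : 2 ≤ m) (hpm : p.Coprime m) (hr : 0 < r)
    (hs : 0 < s) (hs2 : Even s) (hps : p.Coprime s) (hpr : p.Coprime r) (hM : 0 < M)
    (hMm : m ^ M ≡ 1 [MOD s]) (hMp : p ^ M ≡ 1 [MOD s])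
    (hint : ∀ z : AlgebraicClosure (ZMod p), z ^ (r * s) = 1 →
      (1 + z) ^ (p * m) = 1 + z ^ (p * m))
    (hJ : ∀ j, 1 ≤ j → j ≤ Nat.sqrt r → p.Coprime j)
    (h1 : 4 * Nat.totient s ≤ (cls r (m ^ M) (p ^ M)).ncard)
    (h2 : 9 * (M : ℝ) ^ 2 * (Real.logb 2 p * Real.logb 2 m) < Nat.totient s) : False := by
  classical
  have : NeZero r := ⟨hr.ne'⟩
  have hp : p.Prime := Fact.out
  set w := Nat.totient s with hw
  set t := (cls r (m ^ M) (p ^ M)).ncard with ht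
  have hw0 : 0 < w := Nat.totient_pos.2 hs
  have htr : t ≤ r := ncard_cls_le r _ _
  set J := Nat.sqrt (t / w) with hJdef
  have h4 : 4 ≤ t / w := (Nat.le_div_iff_mul_le hw0).2 h1
  have hJ2 : 2 ≤ J := Nat.le_sqrt.2 (by omega)
  have hJt : w * J ^ 2 ≤ t := by
    have h5 : J * J ≤ t / w := Nat.sqrt_le (t / w)
    calc w * J ^ 2 = w * (J * J) := by ring
      _ ≤ w * (t / w) := Nat.mul_le_mul_left w h5
      _ ≤ t := Nat.mul_div_le t w
  have hJt' : t < w * (J + 1) ^ 2 := by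
    have h5 : t / w < (J + 1) * (J + 1) := Nat.lt_succ_sqrt (t / w)
    have h6 : t < ((J + 1) * (J + 1)) * w := (Nat.div_lt_iff_lt_mul hw0).1 h5
    calc t < ((J + 1) * (J + 1)) * w := h6
      _ = w * (J + 1) ^ 2 := by ring
  have ht0 : 0 < t := by
    have : 0 < w * J ^ 2 := by positivity
    omega
  have hJr : J ≤ Nat.sqrt r := Nat.sqrt_le_sqrt ((Nat.div_le_self t w).trans htr)
  obtain ⟨ζ, hζ⟩ := exists_prim hpr hr
  have hinj := core_values hr hs hs2 hps hpr hMm hMp hint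
    (fun j h1 h2 => hJ j h1 (h2.trans hJr)) hJ2 hJt hζ
  set A := ((idx (AlgebraicClosure (ZMod p)) s J).powerset).image fun S => (PS S).eval ζ with hA
  have hcard : A.card = 2 ^ (w * J) := by
    rw [hA, Finset.card_image_of_injOn, Finset.card_powerset, card_idx hs hps]
    intro S hS S' hS' h
    exact hinj (Finset.mem_powerset.1 (Finset.mem_coe.1 hS))
      (Finset.mem_powerset.1 (Finset.mem_coe.1 hS')) h
  set P : ℝ := Real.logb 2 p with hP
  set Q : ℝ := Real.logb 2 m with hQ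
  have hp0 : (0 : ℝ) < p := by exact_mod_cast hp.pos
  have hm0 : (0 : ℝ) < m := by
    have : 0 < m := by omega
    exact_mod_cast this
  have hP1 : 1 ≤ P := by
    rw [hP, Real.le_logb_iff_rpow_le (by norm_num) hp0, Real.rpow_one]
    exact_mod_cast hp.two_le
  have hQ1 : 1 ≤ Q := by
    rw [hQ, Real.le_logb_iff_rpow_le (by norm_num) hm0, Real.rpow_one]
    exact_mod_cast hm
  set U := ⌊√(t * P / Q)⌋₊ with hU
  set V := ⌊√(t * Q / P)⌋₊ with hV
  have hUV : t < (U + 1) * (V + 1) := by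
    have h5 : √(t * P / Q) < (U : ℝ) + 1 := Nat.lt_floor_add_one _
    have h6 : √(t * Q / P) < (V : ℝ) + 1 := Nat.lt_floor_add_one _
    have h7 : √(t * P / Q) * √(t * Q / P) = t := by
      rw [← Real.sqrt_mul (by positivity)]
      have h8 : (t : ℝ) * P / Q * (t * Q / P) = (t : ℝ) ^ 2 := by
        field_simp
      rw [h8, Real.sqrt_sq (by positivity)]
    have h9 : (t : ℝ) < ((U : ℝ) + 1) * ((V : ℝ) + 1) := by
      rw [← h7]
      exact mul_lt_mul'' h5 h6 (Real.sqrt_nonneg _) (Real.sqrt_nonneg _)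
    exact_mod_cast h9
  obtain ⟨u, v, u', v', hu, hv, hu', hv', hne, heq⟩ := pigeon hUV
  have ha2 : 2 ≤ m ^ M := le_trans hm (Nat.le_self_pow hM.ne' m)
  have hb2 : 2 ≤ p ^ M := le_trans hp.two_le (Nat.le_self_pow hM.ne' p)
  have hab : (m ^ M).Coprime (p ^ M) := Nat.Coprime.pow _ _ hpm.symm
  have hE : (m ^ M) ^ u * (p ^ M) ^ v ≠ (m ^ M) ^ u' * (p ^ M) ^ v' := by
    intro h
    obtain ⟨rfl, rfl⟩ := pow_mul_pow_inj ha2 hb2 hab h
    exact hne rfl
  have hζE : ζ ^ ((m ^ M) ^ u * (p ^ M) ^ v) = ζ ^ ((m ^ M) ^ u' * (p ^ M) ^ v') := by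
    have h5 : (((m ^ M) ^ u * (p ^ M) ^ v : ℕ) : ZMod r) =
        (((m ^ M) ^ u' * (p ^ M) ^ v' : ℕ) : ZMod r) := by
      push_cast
      push_cast at heq
      exact heq
    rw [ZMod.natCast_eq_natCast_iff] at h5
    rw [← pow_mod_orderOf ζ ((m ^ M) ^ u * (p ^ M) ^ v),
      ← pow_mod_orderOf ζ ((m ^ M) ^ u' * (p ^ M) ^ v'), ← hζ.eq_orderOf]
    rw [h5]
  have hS : ∀ S ⊆ idx (AlgebraicClosure (ZMod p)) s J, ∀ i ∈ S, i.1 ^ s = 1 := by
    intro S hS i hi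
    have h5 := Finset.mem_product.1 (hS hi)
    exact ((mem_primitiveRoots hs).1 h5.1).pow_eq_one
  have hAE : ∀ y ∈ A, y ^ ((m ^ M) ^ u * (p ^ M) ^ v) = y ^ ((m ^ M) ^ u' * (p ^ M) ^ v') := by
    intro y hy
    obtain ⟨S, hSm, rfl⟩ := Finset.mem_image.1 hy
    have hSs := hS S (Finset.mem_powerset.1 hSm)
    rw [intro_eval hs2 hMm hMp hint hSs hζ.pow_eq_one u v,
      intro_eval hs2 hMm hMp hint hSs hζ.pow_eq_one u' v', hζE]
  have hc := card_le_of_pow_eq hE A hAE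
  rw [hcard] at hc
  have hmax : max ((m ^ M) ^ u * (p ^ M) ^ v) ((m ^ M) ^ u' * (p ^ M) ^ v') ≤
      (m ^ M) ^ U * (p ^ M) ^ V := by
    refine max_le ?_ ?_
    · exact Nat.mul_le_mul (Nat.pow_le_pow_right (by omega) hu) (Nat.pow_le_pow_right (by omega) hv)
    · exact Nat.mul_le_mul (Nat.pow_le_pow_right (by omega) hu')
        (Nat.pow_le_pow_right (by omega) hv')
  have hfin : (2 : ℝ) ^ (w * J) ≤ ((m : ℝ) ^ M) ^ U * ((p : ℝ) ^ M) ^ V := by
    exact_mod_cast hc.trans hmax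
  have hlog : (w : ℝ) * J ≤ M * (U * Q + V * P) := by
    have h5 := Real.logb_le_logb_of_le (b := 2) (by norm_num) (by positivity) hfin
    rw [Real.logb_pow, Real.logb_mul (by positivity) (by positivity), Real.logb_pow, Real.logb_pow,
      Real.logb_pow, Real.logb_pow, Real.logb_self_eq_one (by norm_num)] at h5
    push_cast at h5
    linarith
  exact core_real hP1 hQ1 hw0 ht0 hJ2 hJt' (Nat.floor_le (Real.sqrt_nonneg _))
    (Nat.floor_le (Real.sqrt_nonneg _)) h2 hlog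

end Pool.Agent.W_420c7c_h29
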