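import Pool.Agent.W_420c7c_h29.Defs

/-!
# Introspection

`intro_step`: by `frobenius_inj`: `((1 + z) ^ m) ^ p = (1 + z) ^ (p m) = 1 + z ^ (p m) =
(1 + z ^ m) ^ p` (`add_pow_char`).

`intro_eval`: let `G = {z | z ^ (r s) = 1}`, closed under powers. By `intro_step` and induction
`(1 + z) ^ (m ^ k) = 1 + z ^ (m ^ k)` for `z ∈ G`, and `(1 + z) ^ (p ^ k) = 1 + z ^ (p ^ k)` (Frobenius);
so `(1 + y) ^ e = 1 + y ^ e` for `y ∈ G`, `e = (m ^ M) ^ u * (p ^ M) ^ v`. Apply this with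
`y = -κ z ^ j`: `(-κ) ^ s = 1` as `s` is even, and `e ≡ 1 (mod s)`, so `(-κ) ^ e = -κ` and
`(1 - κ z ^ j) ^ e = 1 - κ (z ^ e) ^ j`. Take the product over `S` (`eval_prod`,
`Finset.prod_pow`).

`hint_of_cong`: evaluate the divisibility at `z` (`Polynomial.eval₂` with `ZMod.castHom hpn F`), as in
`Pool.Agent.W_420c7c_h88.intro_n` (file `Pool/Agent/W_420c7c_h88/Intro.lean`).
-/

namespace Pool.Agent.W_420c7c_h29

open Polynomial

theorem intro_step {F : Type*} [Field F] {p : ℕ} [Fact p.Prime] [CharP F p] {m : ℕ} {z : F}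
    (h : (1 + z) ^ (p * m) = 1 + z ^ (p * m)) : (1 + z) ^ m = 1 + z ^ m := by
  have h2 : ((1 + z) ^ m) ^ p = (1 + z ^ m) ^ p := by
    rw [← pow_mul, mul_comm m p, h, add_pow_char, one_pow, ← pow_mul]
    congr 2
    ring
  exact frobenius_inj F p (by simpa [frobenius_def] using h2)

theorem Intro_pow {F : Type*} [Field F] {m N : ℕ}
    (h : ∀ z : F, z ^ N = 1 → (1 + z) ^ m = 1 + z ^ m) (k : ℕ) :
    ∀ z : F, z ^ N = 1 → (1 + z) ^ (m ^ k) = 1 + z ^ (m ^ k) := by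
  induction k with
  | zero =>
    intro z _
    simp
  | succ k ih =>
    intro z hz
    have h1 : (z ^ (m ^ k)) ^ N = 1 := by
      rw [← pow_mul, mul_comm, pow_mul, hz, one_pow]
    rw [pow_succ, pow_mul, ih z hz, h _ h1, ← pow_mul]

theorem Intro_e {F : Type*} [Field F] {p : ℕ} [Fact p.Prime] [CharP F p] {m N : ℕ}
    (h : ∀ z : F, z ^ N = 1 → (1 + z) ^ m = 1 + z ^ m) (k l : ℕ) (z : F) (hz : z ^ N = 1) :
    (1 + z) ^ (m ^ k * p ^ l) = 1 + z ^ (m ^ k * p ^ l) := by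
  rw [pow_mul, Intro_pow h k z hz, add_pow_char_pow, one_pow, ← pow_mul]

theorem intro_eval {F : Type*} [Field F] {p : ℕ} [Fact p.Prime] [CharP F p] {m M r s : ℕ}
    (hs2 : Even s) (hMm : m ^ M ≡ 1 [MOD s]) (hMp : p ^ M ≡ 1 [MOD s])
    (hint : ∀ z : F, z ^ (r * s) = 1 → (1 + z) ^ (p * m) = 1 + z ^ (p * m))
    {S : Finset (F × ℕ)} (hS : ∀ i ∈ S, i.1 ^ s = 1) {z : F} (hz : z ^ r = 1) (u v : ℕ) :
    (PS S).eval z ^ ((m ^ M) ^ u * (p ^ M) ^ v) =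
      (PS S).eval (z ^ ((m ^ M) ^ u * (p ^ M) ^ v)) := by
  obtain ⟨e, he⟩ : ∃ e, e = (m ^ M) ^ u * (p ^ M) ^ v := ⟨_, rfl⟩
  have he1 : e ≡ 1 [MOD s] := by
    have h1 := (hMm.pow u).mul (hMp.pow v)
    rw [one_pow, one_pow, mul_one] at h1
    rw [he]
    exact h1
  have he2 : ∀ y : F, y ^ (r * s) = 1 → (1 + y) ^ e = 1 + y ^ e := by
    intro y hy
    rw [he, ← pow_mul, ← pow_mul]
    exact Intro_e (fun z hz => intro_step (hint z hz)) _ _ y hy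
  rw [← he]
  unfold PS
  rw [eval_prod, eval_prod, ← Finset.prod_pow]
  refine Finset.prod_congr rfl fun i hi => ?_
  obtain ⟨κ, j⟩ := i
  have hκ : κ ^ s = 1 := hS _ hi
  have hκ2 : (-κ) ^ s = 1 := by rw [hs2.neg_pow, hκ]
  have hκ3 : (-κ) ^ e = -κ := by
    rw [pow_eq_pow_mod e hκ2, he1, ← pow_eq_pow_mod 1 hκ2, pow_one]
  have hy : (-κ * z ^ j) ^ (r * s) = 1 := by
    rw [mul_pow, mul_comm r s, pow_mul, hκ2, one_pow, one_mul, ← pow_mul, mul_comm s r,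
      mul_comm j, mul_assoc, pow_mul, hz, one_pow]
  have h3 := he2 _ hy
  simp only [eval_sub, eval_one, eval_mul, eval_C, eval_pow, eval_X]
  rw [mul_pow, hκ3] at h3
  have h4 : (1 : F) - κ * z ^ j = 1 + -κ * z ^ j := by ring
  rw [h4, h3, ← pow_mul, ← pow_mul, mul_comm j e]
  ring

theorem hint_of_cong {n p R : ℕ} (hpn : p ∣ n) (h : Cong n R) {F : Type*} [Field F] [CharP F p]
    {z : F} (hz : z ^ R = 1) : (1 + z) ^ n = 1 + z ^ n := by
  obtain ⟨q, hq⟩ := h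
  have h1 := congrArg (Polynomial.eval₂ (ZMod.castHom hpn F) z) hq
  simp only [Polynomial.eval₂_sub, Polynomial.eval₂_mul, Polynomial.eval₂_pow,
    Polynomial.eval₂_add, Polynomial.eval₂_one, Polynomial.eval₂_X] at h1
  rw [hz, sub_self, zero_mul, sub_eq_zero] at h1
  exact h1

end Pool.Agent.W_420c7c_h29
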