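import Pool.Agent.W_420c7c_h29.Defs

/-!
# The upper bound: pigeonhole and roots

* `card_le_of_pow_eq`: the elements of `A` are roots of the nonzero polynomial `X ^ E₁ - X ^ E₂` of
  degree `max E₁ E₂` (`Polynomial.card_roots'`, `Finset.card_le_card`...).
* `pow_mul_pow_inj`: say `u ≤ u'` and cancel `a ^ u`: `b ^ v = a ^ (u'-u) * b ^ v'`. If `u < u'` a prime
  factor of `a` divides `b`, a contradiction. So `u = u'` and `b ^ v = b ^ v'`.
* `pigeon`: the map `(u, v) ↦ a ^ u b ^ v` from `range (U+1) ×ˢ range (V+1)` to the finite set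
  `cls r a b` is not injective (`Finset.exists_ne_map_eq_of_card_lt_of_maps_to`,
  `Set.ncard_eq_toFinset_card'`).
* `ncard_cls_le`: `Set.ncard_le_card`, `ZMod.card`.
-/

namespace Pool.Agent.W_420c7c_h29

open Polynomial

theorem card_le_of_pow_eq {F : Type*} [Field F] {E₁ E₂ : ℕ} (h : E₁ ≠ E₂) (A : Finset F)
    (hA : ∀ y ∈ A, y ^ E₁ = y ^ E₂) : A.card ≤ max E₁ E₂ := by
  classical
  set P : F[X] := X ^ E₁ - X ^ E₂ with hP
  have hP0 : P ≠ 0 := by
    intro h0
    rw [hP, sub_eq_zero] at h0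
    have h1 := congrArg natDegree h0
    rw [natDegree_X_pow, natDegree_X_pow] at h1
    exact h h1
  have hsub : A ⊆ P.roots.toFinset := by
    intro y hy
    rw [Multiset.mem_toFinset, mem_roots hP0, IsRoot.def, hP, eval_sub, eval_pow, eval_pow, eval_X,
      hA y hy, sub_self]
  calc A.card ≤ P.roots.toFinset.card := Finset.card_le_card hsub
    _ ≤ Multiset.card P.roots := Multiset.toFinset_card_le _
    _ ≤ P.natDegree := card_roots' P
    _ ≤ max (X ^ E₁ : F[X]).natDegree (X ^ E₂ : F[X]).natDegree := natDegree_sub_le _ _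
    _ = max E₁ E₂ := by rw [natDegree_X_pow, natDegree_X_pow]

theorem pow_mul_pow_inj {a b : ℕ} (ha : 2 ≤ a) (hb : 2 ≤ b) (hab : a.Coprime b) {u v u' v' : ℕ}
    (h : a ^ u * b ^ v = a ^ u' * b ^ v') : u = u' ∧ v = v' := by
  wlog huu : u ≤ u' generalizing u v u' v'
  · have := this h.symm (le_of_not_ge huu)
    exact ⟨this.1.symm, this.2.symm⟩
  have ha0 : 0 < a ^ u := pow_pos (by omega) u
  have h1 : b ^ v = a ^ (u' - u) * b ^ v' := by
    apply Nat.eq_of_mul_eq_mul_left ha0
    rw [h, ← mul_assoc, ← pow_add, Nat.add_sub_cancel' huu]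
  have hu : u = u' := by
    by_contra hne
    have hlt : u' - u ≠ 0 := by omega
    have h2 : a ∣ b ^ v := by
      rw [h1]
      exact (dvd_pow_self a hlt).mul_right _
    have h3 : a.Coprime (b ^ v) := Nat.Coprime.pow_right v hab
    have h4 := Nat.eq_one_of_dvd_coprimes h3 (dvd_refl a) h2
    omega
  refine ⟨hu, ?_⟩
  rw [hu, Nat.sub_self, pow_zero, one_mul] at h1
  exact Nat.pow_right_injective hb h1

theorem ncard_cls_le (r a b : ℕ) [NeZero r] : (cls r a b).ncard ≤ r := by
  have h1 := Set.ncard_le_ncard (Set.subset_univ (cls r a b)) Set.finite_univ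
  rw [Set.ncard_univ, Nat.card_eq_fintype_card, ZMod.card] at h1
  exact h1

theorem pigeon {r a b U V : ℕ} [NeZero r] (h : (cls r a b).ncard < (U + 1) * (V + 1)) :
    ∃ u v u' v' : ℕ, u ≤ U ∧ v ≤ V ∧ u' ≤ U ∧ v' ≤ V ∧ (u, v) ≠ (u', v') ∧
      (a : ZMod r) ^ u * (b : ZMod r) ^ v = (a : ZMod r) ^ u' * (b : ZMod r) ^ v' := by
  classical
  have hfin : (cls r a b).Finite := Set.toFinite _
  set S : Finset (ℕ × ℕ) := Finset.range (U + 1) ×ˢ Finset.range (V + 1) with hS
  have hcard : hfin.toFinset.card < S.card := by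
    rw [hS, Finset.card_product, Finset.card_range, Finset.card_range,
      ← Set.ncard_eq_toFinset_card _ hfin]
    exact h
  obtain ⟨x, hx, y, hy, hxy, hf⟩ := Finset.exists_ne_map_eq_of_card_lt_of_maps_to hcard
    (f := fun q : ℕ × ℕ => (a : ZMod r) ^ q.1 * (b : ZMod r) ^ q.2) (by
      intro q _
      rw [Finset.mem_coe, Set.Finite.mem_toFinset]
      exact ⟨q.1, q.2, rfl⟩)
  rw [hS, Finset.mem_product, Finset.mem_range, Finset.mem_range] at hx hy
  exact ⟨x.1, x.2, y.1, y.2, by omega, by omega, by omega, by omega, hxy, hf⟩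

end Pool.Agent.W_420c7c_h29
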