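import Pool.Agent.W_420c7c_h29.Indep
import Pool.Agent.W_420c7c_h29.Intro
import Pool.Agent.W_420c7c_h29.Upper

/-!
# The core of the argument, lower bound (in this file: `core_values`, `card_idx`)

Let `F = AlgebraicClosure (ZMod p)`, `a = m ^ M`, `b = p ^ M`, `t = (cls r a b).ncard`, `w = φ(s) ≥ 1`,
`J = Nat.sqrt (t / w)` (natural division), `ζ` a primitive `r`-th root of unity. As `4 w ≤ t`:
`J ≥ 2`, `w J² ≤ t`, `w (J+1)² > t`; `J ≤ Nat.sqrt r` by `ncard_cls_le`.

`core_values` (lower bound): the map `S ↦ (PS S).eval ζ` is injective on the subsets of `idx F s J`: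
let `(PS S).eval ζ = (PS S').eval ζ`. For each `x ∈ cls r a b` choose `u, v` with
`x = a ^ u b ^ v`, `e_x = a ^ u * b ^ v`; the points `ζ ^ e_x` are `t` different points (`e_x` are
incongruent modulo `r`, `ζ` is a primitive `r`-th root: `IsPrimitiveRoot.pow_inj` or
`pow_eq_pow_iff_modEq`), and at each of them `PS S` and `PS S'` agree by `intro_eval` (both sides are
the `e_x`-th power of the value at `ζ`; the hypothesis `i.1 ^ s = 1` follows from
`S ⊆ idx F s J`). By `natDegree_PS_le` the degrees are at most `w J (J+1) / 2 < t` (`J (J+1) / 2 < J²`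
as `J ≥ 2`). So `PS S = PS S'` (`Polynomial.eq_of_degree_sub_lt_of_eval_finset_eq` or
`Polynomial.card_roots'`), and `S = S'` by `PS_inj` (the primitive `(j s)`-th roots exist by
`exists_prim` as `p` is prime to `j` and `s`).
`card (primitiveRoots s F) = w` (`IsPrimitiveRoot.card_primitiveRoots`), so there are
`2 ^ (w J)` subsets.

`core`: upper bound: let `P = logb 2 p ≥ 1`, `Q = logb 2 m ≥ 1`, `U = ⌊√(t P / Q)⌋₊`,
`V = ⌊√(t Q / P)⌋₊`; `(U+1)(V+1) > √(t P / Q) √(t Q / P) = t`. `pigeon` gives two pairs, the exponents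
`E₁ = a ^ u b ^ v`, `E₂ = a ^ u' b ^ v'` are different by `pow_mul_pow_inj`, at most `a ^ U b ^ V`, and
`y ^ E₁ = y ^ E₂` for all values `y = (PS S).eval ζ`, since `ζ ^ E₁ = ζ ^ E₂`. By
`card_le_of_pow_eq`: `2 ^ (w J) ≤ a ^ U b ^ V`, so (logarithms to the base 2)
`w J ≤ M (U Q + V P) ≤ 2 M √(t P Q)`. But `J ≥ (2/3) (J+1) > (2/3) √(t / w)`, so
`w J > (2/3) √(w t)`, and `9 M² P Q < w` gives `(2/3) √(w t) > 2 M √(t P Q)`. Contradiction.
-/

namespace Pool.Agent.W_420c7c_h29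

open Polynomial

theorem core_values {p m M r s J : ℕ} [Fact p.Prime] (hr : 0 < r) (hs : 0 < s)
    (hs2 : Even s) (hps : p.Coprime s) (hpr : p.Coprime r)
    (hMm : m ^ M ≡ 1 [MOD s]) (hMp : p ^ M ≡ 1 [MOD s])
    (hint : ∀ z : AlgebraicClosure (ZMod p), z ^ (r * s) = 1 →
      (1 + z) ^ (p * m) = 1 + z ^ (p * m))
    (hJ : ∀ j, 1 ≤ j → j ≤ J → p.Coprime j) (hJ2 : 2 ≤ J)
    (hJt : Nat.totient s * J ^ 2 ≤ (cls r (m ^ M) (p ^ M)).ncard)
    {ζ : AlgebraicClosure (ZMod p)} (hζ : IsPrimitiveRoot ζ r) :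
    Set.InjOn (fun S : Finset (AlgebraicClosure (ZMod p) × ℕ) => (PS S).eval ζ)
      {S | S ⊆ idx (AlgebraicClosure (ZMod p)) s J} := by
  classical
  set t := (cls r (m ^ M) (p ^ M)).ncard with ht
  have : NeZero r := ⟨hr.ne'⟩
  have hfin : (cls r (m ^ M) (p ^ M)).Finite := Set.toFinite _
  have hw : 1 ≤ Nat.totient s := Nat.totient_pos.mpr hs
  intro S hS S' hS' hval
  have hS1 : S ⊆ idx (AlgebraicClosure (ZMod p)) s J := hS
  have hS1' : S' ⊆ idx (AlgebraicClosure (ZMod p)) s J := hS'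
  have hval1 : (PS S).eval ζ = (PS S').eval ζ := hval
  have hroot : ∀ T : Finset (AlgebraicClosure (ZMod p) × ℕ),
      T ⊆ idx (AlgebraicClosure (ZMod p)) s J → ∀ i ∈ T, i.1 ^ s = 1 := by
    intro T hT i hi
    have h1 := hT hi
    rw [idx, Finset.mem_product] at h1
    exact (isPrimitiveRoot_of_mem_primitiveRoots h1.1).pow_eq_one
  have hch : ∀ x ∈ cls r (m ^ M) (p ^ M), ∃ q : ℕ × ℕ,
      x = (((m ^ M) ^ q.1 * (p ^ M) ^ q.2 : ℕ) : ZMod r) := by
    rintro x ⟨u, v, rfl⟩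
    exact ⟨(u, v), by push_cast; rfl⟩
  choose! q hq using hch
  set pt : ZMod r → AlgebraicClosure (ZMod p) :=
    fun x => ζ ^ ((m ^ M) ^ (q x).1 * (p ^ M) ^ (q x).2) with hpt
  have hinj : Set.InjOn pt (hfin.toFinset : Set (ZMod r)) := by
    intro x hx y hy hxy
    rw [Finset.mem_coe, Set.Finite.mem_toFinset] at hx hy
    have h1 := ((hζ.isOfFinOrder hr.ne').pow_eq_pow_iff_modEq).mp hxy
    rw [← hζ.eq_orderOf] at h1
    rw [hq x hx, hq y hy]
    exact (ZMod.natCast_eq_natCast_iff _ _ _).mpr h1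
  have hcard : hfin.toFinset.card = t := by
    rw [ht, Set.ncard_eq_toFinset_card _ hfin]
  have hdeg : ∀ T : Finset (AlgebraicClosure (ZMod p) × ℕ),
      T ⊆ idx (AlgebraicClosure (ZMod p)) s J → (PS T).degree < hfin.toFinset.card := by
    intro T hT
    have h1 := natDegree_PS_le hT
    have h2 : (PS T).natDegree < t := by
      have h3 : J * (J + 1) < 2 * J ^ 2 := by nlinarith
      have h4 : Nat.totient s * (J * (J + 1)) < Nat.totient s * (2 * J ^ 2) :=
        Nat.mul_lt_mul_of_pos_left h3 hw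
      have h5 : Nat.totient s * (2 * J ^ 2) = 2 * (Nat.totient s * J ^ 2) := by ring
      omega
    rw [hcard]
    exact lt_of_le_of_lt degree_le_natDegree (by exact_mod_cast h2)
  have hev : ∀ x ∈ hfin.toFinset, (PS S).eval (pt x) = (PS S').eval (pt x) := by
    intro x _
    have h1 := intro_eval hs2 hMm hMp hint (hroot S hS1) hζ.pow_eq_one (q x).1 (q x).2
    have h2 := intro_eval hs2 hMm hMp hint (hroot S' hS1') hζ.pow_eq_one (q x).1 (q x).2
    rw [hpt]
    change (PS S).eval (ζ ^ ((m ^ M) ^ (q x).1 * (p ^ M) ^ (q x).2)) =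
      (PS S').eval (ζ ^ ((m ^ M) ^ (q x).1 * (p ^ M) ^ (q x).2))
    rw [← h1, ← h2, hval1]
  have hPS : PS S = PS S' :=
    eq_of_degrees_lt_of_eval_index_eq _ hinj (hdeg S hS1) (hdeg S' hS1') hev
  refine PS_inj hs ?_ hS1 hS1' hPS
  intro j hj1 hj2
  exact exists_prim (Nat.Coprime.mul_right (hJ j hj1 hj2) hps) (Nat.mul_pos (by omega) hs)

theorem card_idx {p s J : ℕ} [Fact p.Prime] (hs : 0 < s) (hps : p.Coprime s) :
    (idx (AlgebraicClosure (ZMod p)) s J).card = Nat.totient s * J := by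
  obtain ⟨z, hz⟩ := exists_prim hps hs
  rw [idx, Finset.card_product, hz.card_primitiveRoots, Nat.card_Icc, Nat.add_sub_cancel]

end Pool.Agent.W_420c7c_h29
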