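import Pool.Agent.W_420c7c_h29.Core

/-!
# The core of the argument with a common multiple `R` of `r` and `s`

The same as `intro_eval`, `core_values`, `core` (files `Intro`, `CoreA`, `Core`), where the hypothesis
`hint` is only needed for the roots of unity whose order divides `R`, a common multiple of `r` and `s`.
-/

namespace Pool.Agent.W_420c7c_h29

open Polynomial

theorem intro_evalR {F : Type*} [Field F] {p : ℕ} [Fact p.Prime] [CharP F p] {m M r s R : ℕ}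
    (hrR : r ∣ R) (hsR : s ∣ R) (hs2 : Even s) (hMm : m ^ M ≡ 1 [MOD s]) (hMp : p ^ M ≡ 1 [MOD s])
    (hint : ∀ z : F, z ^ R = 1 → (1 + z) ^ (p * m) = 1 + z ^ (p * m))
    {S : Finset (F × ℕ)} (hS : ∀ i ∈ S, i.1 ^ s = 1) {z : F} (hz : z ^ r = 1) (u v : ℕ) :
    (PS S).eval z ^ ((m ^ M) ^ u * (p ^ M) ^ v) =
      (PS S).eval (z ^ ((m ^ M) ^ u * (p ^ M) ^ v)) := by
  obtain ⟨e, he⟩ : ∃ e, e = (m ^ M) ^ u * (p ^ M) ^ v := ⟨_, rfl⟩
  have he1 : e ≡ 1 [MOD s] := by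
    have h1 := (hMm.pow u).mul (hMp.pow v)
    rw [one_pow, one_pow, mul_one] at h1
    rw [he]
    exact h1
  have he2 : ∀ y : F, y ^ R = 1 → (1 + y) ^ e = 1 + y ^ e := by
    intro y hy
    rw [he, ← pow_mul, ← pow_mul]
    exact Intro_e (fun z hz => intro_step (hint z hz)) _ _ y hy
  rw [← he]
  unfold PS
  rw [eval_prod, eval_prod, ← Finset.prod_pow]
  refine Finset.prod_congr rfl fun i hi => ?_
  obtain ⟨κ, j⟩ := i
  have hκ : κ ^ s = 1 := hS _ hi
  have hκ2 : (-κ) ^ s = 1 := by rw [hs2.neg_pow, hκ]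
  have hκ3 : (-κ) ^ e = -κ := by
    rw [pow_eq_pow_mod e hκ2, he1, ← pow_eq_pow_mod 1 hκ2, pow_one]
  have hy : (-κ * z ^ j) ^ R = 1 := by
    obtain ⟨a, rfl⟩ := hsR
    obtain ⟨b, hb⟩ := hrR
    rw [mul_pow, pow_mul (-κ), hκ2, one_pow, one_mul, ← pow_mul, hb, mul_comm j, mul_assoc, pow_mul,
      hz, one_pow]
  have h3 := he2 _ hy
  simp only [eval_sub, eval_one, eval_mul, eval_C, eval_pow, eval_X]
  rw [mul_pow, hκ3] at h3
  have h4 : (1 : F) - κ * z ^ j = 1 + -κ * z ^ j := by ring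
  rw [h4, h3, ← pow_mul, ← pow_mul, mul_comm j e]
  ring

theorem core_valuesR {p m M r s R J : ℕ} [Fact p.Prime] (hr : 0 < r) (hs : 0 < s) (hrR : r ∣ R) (hsR : s ∣ R)
    (hs2 : Even s) (hps : p.Coprime s) (hpr : p.Coprime r)
    (hMm : m ^ M ≡ 1 [MOD s]) (hMp : p ^ M ≡ 1 [MOD s])
    (hint : ∀ z : AlgebraicClosure (ZMod p), z ^ R = 1 →
      (1 + z) ^ (p * m) = 1 + z ^ (p * m))
    (hJ : ∀ j, 1 ≤ j → j ≤ J → p.Coprime j) (hJ2 : 2 ≤ J)
    (hJt : Nat.totient s * J ^ 2 ≤ (cls r (m ^ M) (p ^ M)).ncard)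
    {ζ : AlgebraicClosure (ZMod p)} (hζ : IsPrimitiveRoot ζ r) :
    Set.InjOn (fun S : Finset (AlgebraicClosure (ZMod p) × ℕ) => (PS S).eval ζ)
      {S | S ⊆ idx (AlgebraicClosure (ZMod p)) s J} := by
  classical
  set t := (cls r (m ^ M) (p ^ M)).ncard with ht
  have : NeZero r := ⟨hr.ne'⟩
  have hfin : (cls r (m ^ M) (p ^ M)).Finite := Set.toFinite _
  have hw : 1 ≤ Nat.totient s := Nat.totient_pos.mpr hs
  intro S hS S' hS' hval
  have hS1 : S ⊆ idx (AlgebraicClosure (ZMod p)) s J := hS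
  have hS1' : S' ⊆ idx (AlgebraicClosure (ZMod p)) s J := hS'
  have hval1 : (PS S).eval ζ = (PS S').eval ζ := hval
  have hroot : ∀ T : Finset (AlgebraicClosure (ZMod p) × ℕ),
      T ⊆ idx (AlgebraicClosure (ZMod p)) s J → ∀ i ∈ T, i.1 ^ s = 1 := by
    intro T hT i hi
    have h1 := hT hi
    rw [idx, Finset.mem_product] at h1
    exact (isPrimitiveRoot_of_mem_primitiveRoots h1.1).pow_eq_one
  have hch : ∀ x ∈ cls r (m ^ M) (p ^ M), ∃ q : ℕ × ℕ,
      x = (((m ^ M) ^ q.1 * (p ^ M) ^ q.2 : ℕ) : ZMod r) := by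
    rintro x ⟨u, v, rfl⟩
    exact ⟨(u, v), by push_cast; rfl⟩
  choose! q hq using hch
  set pt : ZMod r → AlgebraicClosure (ZMod p) :=
    fun x => ζ ^ ((m ^ M) ^ (q x).1 * (p ^ M) ^ (q x).2) with hpt
  have hinj : Set.InjOn pt (hfin.toFinset : Set (ZMod r)) := by
    intro x hx y hy hxy
    rw [Finset.mem_coe, Set.Finite.mem_toFinset] at hx hy
    have h1 := ((hζ.isOfFinOrder hr.ne').pow_eq_pow_iff_modEq).mp hxy
    rw [← hζ.eq_orderOf] at h1
    rw [hq x hx, hq y hy]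
    exact (ZMod.natCast_eq_natCast_iff _ _ _).mpr h1
  have hcard : hfin.toFinset.card = t := by
    rw [ht, Set.ncard_eq_toFinset_card _ hfin]
  have hdeg : ∀ T : Finset (AlgebraicClosure (ZMod p) × ℕ),
      T ⊆ idx (AlgebraicClosure (ZMod p)) s J → (PS T).degree < hfin.toFinset.card := by
    intro T hT
    have h1 := natDegree_PS_le hT
    have h2 : (PS T).natDegree < t := by
      have h3 : J * (J + 1) < 2 * J ^ 2 := by nlinarith
      have h4 : Nat.totient s * (J * (J + 1)) < Nat.totient s * (2 * J ^ 2) :=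
        Nat.mul_lt_mul_of_pos_left h3 hw
      have h5 : Nat.totient s * (2 * J ^ 2) = 2 * (Nat.totient s * J ^ 2) := by ring
      omega
    rw [hcard]
    exact lt_of_le_of_lt degree_le_natDegree (by exact_mod_cast h2)
  have hev : ∀ x ∈ hfin.toFinset, (PS S).eval (pt x) = (PS S').eval (pt x) := by
    intro x _
    have h1 := intro_evalR hrR hsR hs2 hMm hMp hint (hroot S hS1) hζ.pow_eq_one (q x).1 (q x).2
    have h2 := intro_evalR hrR hsR hs2 hMm hMp hint (hroot S' hS1') hζ.pow_eq_one (q x).1 (q x).2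
    rw [hpt]
    change (PS S).eval (ζ ^ ((m ^ M) ^ (q x).1 * (p ^ M) ^ (q x).2)) =
      (PS S').eval (ζ ^ ((m ^ M) ^ (q x).1 * (p ^ M) ^ (q x).2))
    rw [← h1, ← h2, hval1]
  have hPS : PS S = PS S' :=
    eq_of_degrees_lt_of_eval_index_eq _ hinj (hdeg S hS1) (hdeg S' hS1') hev
  refine PS_inj hs ?_ hS1 hS1' hPS
  intro j hj1 hj2
  exact exists_prim (Nat.Coprime.mul_right (hJ j hj1 hj2) hps) (Nat.mul_pos (by omega) hs)

theorem coreR {p m M r s R : ℕ} [Fact p.Prime] (hm : 2 ≤ m) (hpm : p.Coprime m) (hr : 0 < r)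
    (hs : 0 < s) (hrR : r ∣ R) (hsR : s ∣ R) (hs2 : Even s) (hps : p.Coprime s) (hpr : p.Coprime r) (hM : 0 < M)
    (hMm : m ^ M ≡ 1 [MOD s]) (hMp : p ^ M ≡ 1 [MOD s])
    (hint : ∀ z : AlgebraicClosure (ZMod p), z ^ R = 1 →
      (1 + z) ^ (p * m) = 1 + z ^ (p * m))
    (hJ : ∀ j, 1 ≤ j → j ≤ Nat.sqrt r → p.Coprime j)
    (h1 : 4 * Nat.totient s ≤ (cls r (m ^ M) (p ^ M)).ncard)
    (h2 : 9 * (M : ℝ) ^ 2 * (Real.logb 2 p * Real.logb 2 m) < Nat.totient s) : False := by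
  classical
  have : NeZero r := ⟨hr.ne'⟩
  have hp : p.Prime := Fact.out
  set w := Nat.totient s with hw
  set t := (cls r (m ^ M) (p ^ M)).ncard with ht
  have hw0 : 0 < w := Nat.totient_pos.2 hs
  have htr : t ≤ r := ncard_cls_le r _ _
  set J := Nat.sqrt (t / w) with hJdef
  have h4 : 4 ≤ t / w := (Nat.le_div_iff_mul_le hw0).2 h1
  have hJ2 : 2 ≤ J := Nat.le_sqrt.2 (by omega)
  have hJt : w * J ^ 2 ≤ t := by
    have h5 : J * J ≤ t / w := Nat.sqrt_le (t / w)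
    calc w * J ^ 2 = w * (J * J) := by ring
      _ ≤ w * (t / w) := Nat.mul_le_mul_left w h5
      _ ≤ t := Nat.mul_div_le t w
  have hJt' : t < w * (J + 1) ^ 2 := by
    have h5 : t / w < (J + 1) * (J + 1) := Nat.lt_succ_sqrt (t / w)
    have h6 : t < ((J + 1) * (J + 1)) * w := (Nat.div_lt_iff_lt_mul hw0).1 h5
    calc t < ((J + 1) * (J + 1)) * w := h6
      _ = w * (J + 1) ^ 2 := by ring
  have ht0 : 0 < t := by
    have : 0 < w * J ^ 2 := by positivity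
    omega
  have hJr : J ≤ Nat.sqrt r := Nat.sqrt_le_sqrt ((Nat.div_le_self t w).trans htr)
  obtain ⟨ζ, hζ⟩ := exists_prim hpr hr
  have hinj := core_valuesR hr hs hrR hsR hs2 hps hpr hMm hMp hint
    (fun j h1 h2 => hJ j h1 (h2.trans hJr)) hJ2 hJt hζ
  set A := ((idx (AlgebraicClosure (ZMod p)) s J).powerset).image fun S => (PS S).eval ζ with hA
  have hcard : A.card = 2 ^ (w * J) := by
    rw [hA, Finset.card_image_of_injOn, Finset.card_powerset, card_idx hs hps]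
    intro S hS S' hS' h
    exact hinj (Finset.mem_powerset.1 (Finset.mem_coe.1 hS))
      (Finset.mem_powerset.1 (Finset.mem_coe.1 hS')) h
  set P : ℝ := Real.logb 2 p with hP
  set Q : ℝ := Real.logb 2 m with hQ
  have hp0 : (0 : ℝ) < p := by exact_mod_cast hp.pos
  have hm0 : (0 : ℝ) < m := by
    have : 0 < m := by omega
    exact_mod_cast this
  have hP1 : 1 ≤ P := by
    rw [hP, Real.le_logb_iff_rpow_le (by norm_num) hp0, Real.rpow_one]
    exact_mod_cast hp.two_le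
  have hQ1 : 1 ≤ Q := by
    rw [hQ, Real.le_logb_iff_rpow_le (by norm_num) hm0, Real.rpow_one]
    exact_mod_cast hm
  set U := ⌊√(t * P / Q)⌋₊ with hU
  set V := ⌊√(t * Q / P)⌋₊ with hV
  have hUV : t < (U + 1) * (V + 1) := by
    have h5 : √(t * P / Q) < (U : ℝ) + 1 := Nat.lt_floor_add_one _
    have h6 : √(t * Q / P) < (V : ℝ) + 1 := Nat.lt_floor_add_one _
    have h7 : √(t * P / Q) * √(t * Q / P) = t := by
      rw [← Real.sqrt_mul (by positivity)]
      have h8 : (t : ℝ) * P / Q * (t * Q / P) = (t : ℝ) ^ 2 := by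
        field_simp
      rw [h8, Real.sqrt_sq (by positivity)]
    have h9 : (t : ℝ) < ((U : ℝ) + 1) * ((V : ℝ) + 1) := by
      rw [← h7]
      exact mul_lt_mul'' h5 h6 (Real.sqrt_nonneg _) (Real.sqrt_nonneg _)
    exact_mod_cast h9
  obtain ⟨u, v, u', v', hu, hv, hu', hv', hne, heq⟩ := pigeon hUV
  have ha2 : 2 ≤ m ^ M := le_trans hm (Nat.le_self_pow hM.ne' m)
  have hb2 : 2 ≤ p ^ M := le_trans hp.two_le (Nat.le_self_pow hM.ne' p)
  have hab : (m ^ M).Coprime (p ^ M) := Nat.Coprime.pow _ _ hpm.symm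
  have hE : (m ^ M) ^ u * (p ^ M) ^ v ≠ (m ^ M) ^ u' * (p ^ M) ^ v' := by
    intro h
    obtain ⟨rfl, rfl⟩ := pow_mul_pow_inj ha2 hb2 hab h
    exact hne rfl
  have hζE : ζ ^ ((m ^ M) ^ u * (p ^ M) ^ v) = ζ ^ ((m ^ M) ^ u' * (p ^ M) ^ v') := by
    have h5 : (((m ^ M) ^ u * (p ^ M) ^ v : ℕ) : ZMod r) =
        (((m ^ M) ^ u' * (p ^ M) ^ v' : ℕ) : ZMod r) := by
      push_cast
      push_cast at heq
      exact heq
    rw [ZMod.natCast_eq_natCast_iff] at h5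
    rw [← pow_mod_orderOf ζ ((m ^ M) ^ u * (p ^ M) ^ v),
      ← pow_mod_orderOf ζ ((m ^ M) ^ u' * (p ^ M) ^ v'), ← hζ.eq_orderOf]
    rw [h5]
  have hS : ∀ S ⊆ idx (AlgebraicClosure (ZMod p)) s J, ∀ i ∈ S, i.1 ^ s = 1 := by
    intro S hS i hi
    have h5 := Finset.mem_product.1 (hS hi)
    exact ((mem_primitiveRoots hs).1 h5.1).pow_eq_one
  have hAE : ∀ y ∈ A, y ^ ((m ^ M) ^ u * (p ^ M) ^ v) = y ^ ((m ^ M) ^ u' * (p ^ M) ^ v') := by
    intro y hy
    obtain ⟨S, hSm, rfl⟩ := Finset.mem_image.1 hy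
    have hSs := hS S (Finset.mem_powerset.1 hSm)
    rw [intro_evalR hrR hsR hs2 hMm hMp hint hSs hζ.pow_eq_one u v,
      intro_evalR hrR hsR hs2 hMm hMp hint hSs hζ.pow_eq_one u' v', hζE]
  have hc := card_le_of_pow_eq hE A hAE
  rw [hcard] at hc
  have hmax : max ((m ^ M) ^ u * (p ^ M) ^ v) ((m ^ M) ^ u' * (p ^ M) ^ v') ≤
      (m ^ M) ^ U * (p ^ M) ^ V := by
    refine max_le ?_ ?_
    · exact Nat.mul_le_mul (Nat.pow_le_pow_right (by omega) hu) (Nat.pow_le_pow_right (by omega) hv)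
    · exact Nat.mul_le_mul (Nat.pow_le_pow_right (by omega) hu')
        (Nat.pow_le_pow_right (by omega) hv')
  have hfin : (2 : ℝ) ^ (w * J) ≤ ((m : ℝ) ^ M) ^ U * ((p : ℝ) ^ M) ^ V := by
    exact_mod_cast hc.trans hmax
  have hlog : (w : ℝ) * J ≤ M * (U * Q + V * P) := by
    have h5 := Real.logb_le_logb_of_le (b := 2) (by norm_num) (by positivity) hfin
    rw [Real.logb_pow, Real.logb_mul (by positivity) (by positivity), Real.logb_pow, Real.logb_pow,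
      Real.logb_pow, Real.logb_pow, Real.logb_self_eq_one (by norm_num)] at h5
    push_cast at h5
    linarith
  exact core_real hP1 hQ1 hw0 ht0 hJ2 hJt' (Nat.floor_le (Real.sqrt_nonneg _))
    (Nat.floor_le (Real.sqrt_nonneg _)) h2 hlog

end Pool.Agent.W_420c7c_h29
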