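import Mathlib

/-!
# MP_420c7c_nt: the congruences `(1+X)^n = 1+X^n` modulo `(n, X^r-1)`, `r ≤ (log n)^(6+ε)`

Theorem. For large `n` and every prime `p ∣ n`, `p < n`, the congruence fails for some
`r ≤ (log₂ p * log₂ (n/p)) ^ (3+ε)`; so `n` is prime iff it holds for all `r ≤ (log₂ n) ^ (6+ε)`.

Idea. Let `n = p m`. Choose an even squarefree `s` and a small exponent `M` with `x ^ M ≡ 1 (mod s)`
for all `x` prime to `s` and `φ(s) > 9 M² log p log m`, and a prime `r` such that `m ^ M` and `p ^ M`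
generate a large group modulo `r`. Work in a field of characteristic `p` with a primitive `r`-th root
of unity `ζ`, and for the primitive `s`-th roots of unity `κ` and `1 ≤ j ≤ J` use the polynomials
`1 - κ X ^ j` in the argument of Agrawal, Kayal and Saxena: `e = (m ^ M) ^ u (p ^ M) ^ v` is congruent to
`1` modulo `s`, so `(1 - κ ζ ^ j) ^ e = 1 - κ (ζ ^ e) ^ j` by the congruence modulo `X ^ (r s) - 1`.
-/

namespace Pool.Agent.W_420c7c_h29

open Polynomial

/-- The congruence `(1 + X) ^ n ≡ 1 + X ^ n` modulo `(n, X ^ r - 1)`. -/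
def Cong (n r : ℕ) : Prop := ((X : (ZMod n)[X]) ^ r - 1) ∣ ((1 + X) ^ n - (1 + X ^ n))

/-- The pairs `(κ, j)`, `κ` a primitive `s`-th root of unity, `1 ≤ j ≤ J`. -/
noncomputable def idx (F : Type*) [Field F] (s J : ℕ) : Finset (F × ℕ) :=
  primitiveRoots s F ×ˢ Finset.Icc 1 J

/-- The product of the polynomials `1 - κ X ^ j`. -/
noncomputable def PS {F : Type*} [Field F] (S : Finset (F × ℕ)) : F[X] :=
  ∏ i ∈ S, (1 - C i.1 * X ^ i.2)

/-- The classes modulo `r` of the numbers `a ^ u * b ^ v`. -/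
def cls (r a b : ℕ) : Set (ZMod r) := {x | ∃ u v : ℕ, x = (a : ZMod r) ^ u * (b : ZMod r) ^ v}

/-- The primes `q ≤ K y` such that `q - 1` divides the least common multiple of `1, …, y`. -/
def good (K y : ℕ) : Finset ℕ :=
  (Finset.range (K * y + 1)).filter fun q => q.Prime ∧ (q - 1) ∣ Nat.lcmUpto y

end Pool.Agent.W_420c7c_h29
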