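import Pool.Agent.W_420c7c_h29.Defs

/-!
# The choice of the parameters (in this file: `numeric`)

`numeric` (the choice of `r`): let `P, Q ≥ 1`, `Z = P Q`, `w ≤ Z ^ (1+ε)`, `1 ≤ M ≤ Z ^ ε`,
`s ≤ Z ^ (1+ε)`, `I = ⌈√(4 w P / Q)⌉₊`, `J = ⌈√(4 w Q / P)⌉₊`. Then `4 w ≤ I J`, and with
`√(4 w P / Q) = 2 √w P / √Z ≤ 2 Z ^ (ε/2) P`: `I ≤ 3 Z ^ (ε/2) P`, `J ≤ 3 Z ^ (ε/2) Q`,
`(I+1) (J+1) ≤ 16 Z ^ (1+ε)`, `I M Q + J M P ≤ 6 Z ^ (1 + 3ε/2)`. So
`log s + (I+1) (J+1) M (I Q + J P) log 2 ≤ 100 Z ^ (2 + 5ε/2)`, and for `x = ⌊Z ^ (2 + 3ε)⌋₊` and large `Z`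
this is `< x / 2 < θ(x)` (`Chebyshev.theta_ge`).

`main`: let `ε' = min ε 1 / 10`, `n` large, `p ∣ n` prime, `p < n`, `m = n / p ≥ 2`, `P = logb 2 p ≥ 1`,
`Q = logb 2 m ≥ 1`, `L = P + Q = logb 2 n`, `Z = P Q ≥ L - 1` (as `(P-1)(Q-1) ≥ 0`), so `Z` is large.
`B = Z ^ (3+ε) ≥ L²`. Suppose the congruence holds for all `r ≤ B`. `comp_facts`: `n` is squarefree, so
`p` and `m` are coprime, and no prime `l ≤ B/2` divides `n`. Take `M, s` from `exists_s` (with `ε'`), every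
prime factor of `s` is `≤ s ≤ Z ^ (1+ε') ≤ B/2`, so `n`, `m` and `p` are prime to `s`, and
`m ^ M ≡ p ^ M ≡ 1 (mod s)`. Put `w = φ(s) ≤ s`, `a = m ^ M`, `b = p ^ M`. `numeric` and `exists_r` give a
prime `r ≤ Z ^ (2+3ε') ≤ B/2`; `r ∤ n`, so `(I+1) (J+1) ≤ (cls r a b).ncard`, hence
`4 w ≤ (cls r a b).ncard`. `r s ≤ Z ^ (3+4ε') ≤ B`, so `hint_of_cong` with `R = r s` gives the hypothesis
`hint` of `core` (`n = p * m`). For `1 ≤ j ≤ √r`: `j ≤ r ≤ B/2 < p`, so `p` is prime to `j`. `core` gives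
`False`.

`main'`: for `n` composite and large take any prime `p ∣ n`; `Z = P Q ≤ (L/2)² ≤ L²`, so
`Z ^ (3+ε) ≤ L ^ (6+2ε)`. For `n` prime the congruence holds for all `r`, since
`(1 + X) ^ n = 1 + X ^ n` in `(ZMod n)[X]` (`add_pow_char`).
-/

namespace Pool.Agent.W_420c7c_h29

/-- an explicit Chebyshev bound -/
theorem numeric_theta (n : ℕ) (hn : 810000 ≤ n) : (n : ℝ) / 4 ≤ Chebyshev.theta n := by
  have hn' : (810000 : ℝ) ≤ n := by exact_mod_cast hn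
  have hn0 : (0 : ℝ) ≤ n := by linarith
  set a : ℝ := Real.sqrt n with ha
  set b : ℝ := Real.sqrt a with hb
  have ha0 : 0 ≤ a := Real.sqrt_nonneg _
  have hb0 : 0 ≤ b := Real.sqrt_nonneg _
  have haa : a ^ 2 = n := Real.sq_sqrt hn0
  have hbb : b ^ 2 = a := Real.sq_sqrt ha0
  have hb4 : b ^ 4 = n := by rw [← haa, ← hbb]; ring
  have hb30 : 30 ≤ b := by
    by_contra hlt
    push Not at hlt
    have : b ^ 4 < 30 ^ 4 := pow_lt_pow_left₀ hlt hb0 (by norm_num)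
    rw [hb4] at this
    norm_num at this
    linarith
  have hbpos : 0 < b := by linarith
  have hlogn : Real.log n ≤ 4 * b := by
    rw [← hb4, Real.log_pow]
    have h1 := Real.log_le_sub_one_of_pos hbpos
    push_cast
    linarith
  have hlogn1 : Real.log (n + 1) ≤ 1 + 4 * b := by
    have h1 : (n : ℝ) + 1 ≤ 2 * n := by linarith
    have h2 : Real.log (n + 1) ≤ Real.log (2 * n) := Real.log_le_log (by linarith) h1
    rw [Real.log_mul (by norm_num) (by linarith)] at h2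
    have h3 := Real.log_two_lt_d9
    linarith
  have hθ := Chebyshev.theta_ge n
  have hl2 := Real.log_two_gt_d9
  have h4 : 2 * Real.sqrt n * Real.log n ≤ 8 * b ^ 3 := by
    rw [← ha, ← hbb]
    have h5 : 0 ≤ 2 * b ^ 2 := by positivity
    nlinarith [mul_le_mul_of_nonneg_left hlogn h5]
  have h6 : (n : ℝ) * 0.69 ≤ n * Real.log 2 := by
    apply mul_le_mul_of_nonneg_left _ hn0
    linarith
  have h7 : 1 + 4 * b + 8 * b ^ 3 ≤ (n : ℝ) * 0.44 := by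
    rw [← hb4]
    have h8 : 1 ≤ b ^ 3 := one_le_pow₀ (by linarith)
    have h9 : b ≤ b ^ 3 := by nlinarith [sq_nonneg b]
    have h10 : 30 * b ^ 3 ≤ b ^ 4 := by
      have : b ^ 4 = b * b ^ 3 := by ring
      rw [this]
      exact mul_le_mul_of_nonneg_right hb30 (by positivity)
    linarith
  linarith

theorem numeric (ε : ℝ) (hε : 0 < ε) (hε1 : ε ≤ 1) : ∃ Z₀ : ℝ, ∀ P Q : ℝ, 1 ≤ P → 1 ≤ Q →
    Z₀ ≤ P * Q → ∀ M s w : ℕ, 0 < M → 0 < s → w ≤ s → (s : ℝ) ≤ (P * Q) ^ (1 + ε) →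
      (M : ℝ) ≤ (P * Q) ^ ε → ∃ I J x : ℕ, 4 * w ≤ I * J ∧ (x : ℝ) ≤ (P * Q) ^ (2 + 3 * ε) ∧
        Real.log s + (I + 1) * (J + 1) * (I * (M * (Q * Real.log 2)) + J * (M * (P * Real.log 2))) <
          Chebyshev.theta x := by
  refine ⟨max 1000 (800 ^ (2 / ε)), ?_⟩
  intro P Q hP hQ hZ0 M s w hM hs hw hsZ hMZ
  set Z : ℝ := P * Q with hZ
  have hZ1000 : 1000 ≤ Z := (le_max_left _ _).trans hZ0
  have hZpos : 0 < Z := by linarith
  have hP0 : 0 < P := by linarith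
  have hQ0 : 0 < Q := by linarith
  set t : ℝ := Z ^ (ε / 2) with ht
  have ht800 : 800 ≤ t := by
    have h1 : ((800 : ℝ) ^ (2 / ε)) ^ (ε / 2) = 800 := by
      rw [← Real.rpow_mul (by norm_num)]
      have : 2 / ε * (ε / 2) = 1 := by field_simp
      rw [this, Real.rpow_one]
    rw [← h1]
    exact Real.rpow_le_rpow (by positivity) ((le_max_right _ _).trans hZ0) (by positivity)
  have ht0 : 0 < t := by linarith
  have hZε : Z ^ ε = t ^ 2 := by
    rw [ht, ← Real.rpow_natCast, ← Real.rpow_mul hZpos.le]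
    congr 1
    push_cast
    ring
  have hZ1ε : Z ^ (1 + ε) = Z * t ^ 2 := by
    rw [Real.rpow_add hZpos, Real.rpow_one, hZε]
  have hZ23 : Z ^ (2 + 3 * ε) = Z ^ 2 * t ^ 6 := by
    rw [Real.rpow_add hZpos]
    congr 1
    · exact Real.rpow_natCast Z 2
    · rw [mul_comm, Real.rpow_mul hZpos.le, hZε]
      have : ((t ^ 2) ^ (3 : ℝ) : ℝ) = (t ^ 2) ^ (3 : ℕ) := Real.rpow_natCast (t ^ 2) 3
      rw [this]
      ring
  rw [hZ1ε] at hsZ
  rw [hZε] at hMZ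
  have hw0 : (0 : ℝ) ≤ w := Nat.cast_nonneg w
  have hwZ : (w : ℝ) ≤ Z * t ^ 2 := by
    have : (w : ℝ) ≤ s := by exact_mod_cast hw
    linarith
  set A : ℝ := Real.sqrt (4 * w * P / Q) with hA
  set B : ℝ := Real.sqrt (4 * w * Q / P) with hB
  have hA0 : 0 ≤ A := Real.sqrt_nonneg _
  have hB0 : 0 ≤ B := Real.sqrt_nonneg _
  have hAB : A * B = 4 * w := by
    rw [hA, hB, ← Real.sqrt_mul (by positivity)]
    have : 4 * (w : ℝ) * P / Q * (4 * w * Q / P) = (4 * w) ^ 2 := by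
      field_simp
    rw [this]
    exact Real.sqrt_sq (by positivity)
  have hAle : A ≤ 2 * t * P := by
    rw [hA]
    apply Real.sqrt_le_iff.2
    refine ⟨by positivity, ?_⟩
    rw [div_le_iff₀ hQ0]
    have h1 : 4 * (w : ℝ) * P ≤ 4 * (Z * t ^ 2) * P := by nlinarith
    calc 4 * (w : ℝ) * P ≤ 4 * (Z * t ^ 2) * P := h1
      _ = (2 * t * P) ^ 2 * Q := by rw [hZ]; ring
  have hBle : B ≤ 2 * t * Q := by
    rw [hB]
    apply Real.sqrt_le_iff.2
    refine ⟨by positivity, ?_⟩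
    rw [div_le_iff₀ hP0]
    have h1 : 4 * (w : ℝ) * Q ≤ 4 * (Z * t ^ 2) * Q := by nlinarith
    calc 4 * (w : ℝ) * Q ≤ 4 * (Z * t ^ 2) * Q := h1
      _ = (2 * t * Q) ^ 2 * P := by rw [hZ]; ring
  have htP : 1 ≤ t * P := by nlinarith
  have htQ : 1 ≤ t * Q := by nlinarith
  set I : ℕ := ⌈A⌉₊ with hI
  set J : ℕ := ⌈B⌉₊ with hJ
  set x : ℕ := ⌊Z ^ 2 * t ^ 6⌋₊ with hx
  have hIle : (I : ℝ) ≤ 3 * (t * P) := by
    have := Nat.ceil_lt_add_one hA0
    rw [← hI] at this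
    linarith
  have hJle : (J : ℝ) ≤ 3 * (t * Q) := by
    have := Nat.ceil_lt_add_one hB0
    rw [← hJ] at this
    linarith
  have hI0 : (0 : ℝ) ≤ I := Nat.cast_nonneg I
  have hJ0 : (0 : ℝ) ≤ J := Nat.cast_nonneg J
  have hM0 : (0 : ℝ) ≤ M := Nat.cast_nonneg M
  have hbig : (0 : ℝ) ≤ Z ^ 2 * t ^ 6 := by positivity
  refine ⟨I, J, x, ?_, ?_, ?_⟩
  · have h1 : A * B ≤ (I : ℝ) * J :=
      mul_le_mul (Nat.le_ceil A) (Nat.le_ceil B) hB0 hI0
    rw [hAB] at h1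
    exact_mod_cast h1
  · rw [hZ23]
    exact Nat.floor_le hbig
  · have hl2 : Real.log 2 ≤ 1 := by
      have := Real.log_two_lt_d9
      linarith
    have hl20 : 0 ≤ Real.log 2 := Real.log_nonneg (by norm_num)
    -- log s
    have hs0 : (0 : ℝ) < s := by exact_mod_cast hs
    have hlogs : Real.log s ≤ Z * t ^ 2 := by
      have := Real.log_le_sub_one_of_pos hs0
      linarith
    have h1 : ((I : ℝ) + 1) * (J + 1) ≤ 16 * (Z * t ^ 2) := by
      have h2 : (I : ℝ) + 1 ≤ 4 * (t * P) := by linarith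
      have h3 : (J : ℝ) + 1 ≤ 4 * (t * Q) := by linarith
      calc ((I : ℝ) + 1) * (J + 1) ≤ (4 * (t * P)) * (4 * (t * Q)) :=
            mul_le_mul h2 h3 (by positivity) (by positivity)
        _ = 16 * (Z * t ^ 2) := by rw [hZ]; ring
    have h4 : (I : ℝ) * (M * (Q * Real.log 2)) ≤ 3 * (Z * t ^ 3) := by
      have h5 : (M : ℝ) * (Q * Real.log 2) ≤ t ^ 2 * Q := by
        apply mul_le_mul hMZ _ (by positivity) (by positivity)
        nlinarith
      calc (I : ℝ) * (M * (Q * Real.log 2)) ≤ (3 * (t * P)) * (t ^ 2 * Q) :=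
            mul_le_mul hIle h5 (by positivity) (by positivity)
        _ = 3 * (Z * t ^ 3) := by rw [hZ]; ring
    have h6 : (J : ℝ) * (M * (P * Real.log 2)) ≤ 3 * (Z * t ^ 3) := by
      have h5 : (M : ℝ) * (P * Real.log 2) ≤ t ^ 2 * P := by
        apply mul_le_mul hMZ _ (by positivity) (by positivity)
        nlinarith
      calc (J : ℝ) * (M * (P * Real.log 2)) ≤ (3 * (t * Q)) * (t ^ 2 * P) :=
            mul_le_mul hJle h5 (by positivity) (by positivity)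
        _ = 3 * (Z * t ^ 3) := by rw [hZ]; ring
    have h7 : ((I : ℝ) + 1) * (J + 1) *
        (I * (M * (Q * Real.log 2)) + J * (M * (P * Real.log 2))) ≤ 96 * (Z ^ 2 * t ^ 5) := by
      calc ((I : ℝ) + 1) * (J + 1) *
          (I * (M * (Q * Real.log 2)) + J * (M * (P * Real.log 2)))
          ≤ (16 * (Z * t ^ 2)) * (6 * (Z * t ^ 3)) :=
            mul_le_mul h1 (by linarith) (by positivity) (by positivity)
        _ = 96 * (Z ^ 2 * t ^ 5) := by ring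
    have h8 : Z * t ^ 2 ≤ Z ^ 2 * t ^ 5 := by
      have h9 : (1 : ℝ) ≤ Z * t ^ 3 := by
        have : (1 : ℝ) ≤ t ^ 3 := one_le_pow₀ (by linarith)
        nlinarith
      calc Z * t ^ 2 = Z * t ^ 2 * 1 := by ring
        _ ≤ Z * t ^ 2 * (Z * t ^ 3) := mul_le_mul_of_nonneg_left h9 (by positivity)
        _ = Z ^ 2 * t ^ 5 := by ring
    have h10 : (800 : ℝ) * (Z ^ 2 * t ^ 5) ≤ Z ^ 2 * t ^ 6 := by
      calc (800 : ℝ) * (Z ^ 2 * t ^ 5) ≤ t * (Z ^ 2 * t ^ 5) :=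
            mul_le_mul_of_nonneg_right ht800 (by positivity)
        _ = Z ^ 2 * t ^ 6 := by ring
    have h11 : (1000000 : ℝ) ≤ Z ^ 2 * t ^ 5 := by
      have h12 : (1 : ℝ) ≤ t ^ 5 := one_le_pow₀ (by linarith)
      have h13 : (1000000 : ℝ) ≤ Z ^ 2 := by nlinarith
      nlinarith
    have hxlow : Z ^ 2 * t ^ 6 - 1 < x := by
      have := Nat.lt_floor_add_one (Z ^ 2 * t ^ 6)
      rw [← hx] at this
      linarith
    have hx81 : 810000 ≤ x := by
      have : (810000 : ℝ) ≤ x := by linarith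
      exact_mod_cast this
    have hθ := numeric_theta x hx81
    linarith

end Pool.Agent.W_420c7c_h29
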