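import Pool.Agent.W_420c7c_h29.Defs

/-!
# A small prime modulus `r` with many classes `a ^ u b ^ v`

Proof of `exists_r`. Let `D = {(u, v) | u ≤ I, v ≤ J, (u, v) ≠ (0, 0)}` and
`Π = s * ∏_{(u,v) ∈ D} (a ^ u * b ^ v - 1) * ∏_{(u,v) ∈ D} |a ^ u - b ^ v|` (natural numbers, with
`Int.natAbs` or `max - min`). All factors are nonzero: `a ^ u b ^ v ≥ 2`, and `a ^ u = b ^ v` is
impossible for `(u, v) ≠ (0, 0)` as `a, b ≥ 2` are coprime. Each factor of the two products is at most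
`a ^ u * b ^ v`, so `log Π ≤ log s + 2 ∑_{u ≤ I, v ≤ J} (u log a + v log b)
= log s + (I+1) (J+1) (I log a + J log b) < θ(x) = log (primorial x)`
(`Chebyshev.theta_eq_log_primorial`). So some prime `r ≤ x` does not divide `Π` (otherwise
`primorial x ∣ Π`, `Finset.prod_primes_dvd`, and `primorial x ≤ Π`). If `r ∤ a`, `r ∤ b` then the classes of
`a ^ u b ^ v`, `u ≤ I`, `v ≤ J`, are pairwise different modulo `r`: otherwise dividing by units gives
`a ^ i b ^ j = 1` or `a ^ i = b ^ j` in `ZMod r` with `(i, j) ∈ D`, so `r ∣ Π`. So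
`(I+1) (J+1) ≤ (cls r a b).ncard` (`Set.ncard_le_ncard` for the image of
`range (I+1) ×ˢ range (J+1)`, `cls` is finite since `ZMod r` is).
-/

namespace Pool.Agent.W_420c7c_h29

theorem rlemma_two_le {a b u v : ℕ} (ha : 2 ≤ a) (hb : 2 ≤ b) (h : (u, v) ≠ (0, 0)) :
    2 ≤ a ^ u * b ^ v := by
  have ha1 : 1 ≤ a ^ u := Nat.one_le_pow _ _ (by omega)
  have hb1 : 1 ≤ b ^ v := Nat.one_le_pow _ _ (by omega)
  by_cases hu : u = 0
  · have hv : v ≠ 0 := by
      intro hv
      exact h (by rw [hu, hv])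
    have h2 : 2 ≤ b ^ v := hb.trans (Nat.le_self_pow hv b)
    calc 2 ≤ b ^ v := h2
      _ = 1 * b ^ v := (one_mul _).symm
      _ ≤ a ^ u * b ^ v := Nat.mul_le_mul_right _ ha1
  · have h2 : 2 ≤ a ^ u := ha.trans (Nat.le_self_pow hu a)
    calc 2 ≤ a ^ u := h2
      _ = a ^ u * 1 := (mul_one _).symm
      _ ≤ a ^ u * b ^ v := Nat.mul_le_mul_left _ hb1

theorem rlemma_ne {a b u v : ℕ} (ha : 2 ≤ a) (hb : 2 ≤ b) (hab : a.Coprime b)
    (h : (u, v) ≠ (0, 0)) : a ^ u ≠ b ^ v := by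
  intro heq
  have h1 : (a ^ u).Coprime (b ^ v) := hab.pow u v
  rw [← heq, Nat.coprime_self] at h1
  have h2 := rlemma_two_le ha hb h
  rw [← heq, h1] at h2
  omega

/-- the factor `|a ^ u - b ^ v|` -/
def rlemma_g (a b : ℕ) (q : ℕ × ℕ) : ℕ := ((a : ℤ) ^ q.1 - (b : ℤ) ^ q.2).natAbs

/-- the factor `a ^ u * b ^ v - 1` -/
def rlemma_f (a b : ℕ) (q : ℕ × ℕ) : ℕ := a ^ q.1 * b ^ q.2 - 1

theorem rlemma_g_pos {a b : ℕ} (ha : 2 ≤ a) (hb : 2 ≤ b) (hab : a.Coprime b) {q : ℕ × ℕ}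
    (h : q ≠ (0, 0)) : 0 < rlemma_g a b q := by
  unfold rlemma_g
  rw [Int.natAbs_pos, sub_ne_zero]
  intro heq
  exact rlemma_ne ha hb hab (u := q.1) (v := q.2) h (by exact_mod_cast heq)

theorem rlemma_g_le {a b : ℕ} (ha : 2 ≤ a) (hb : 2 ≤ b) (q : ℕ × ℕ) :
    rlemma_g a b q ≤ a ^ q.1 * b ^ q.2 := by
  unfold rlemma_g
  have ha1 : 1 ≤ a ^ q.1 := Nat.one_le_pow _ _ (by omega)
  have hb1 : 1 ≤ b ^ q.2 := Nat.one_le_pow _ _ (by omega)
  have h1 : a ^ q.1 ≤ a ^ q.1 * b ^ q.2 := Nat.le_mul_of_pos_right _ hb1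
  have h2 : b ^ q.2 ≤ a ^ q.1 * b ^ q.2 := Nat.le_mul_of_pos_left _ ha1
  have h3 : ((a : ℤ) ^ q.1 - (b : ℤ) ^ q.2).natAbs ≤ max (a ^ q.1) (b ^ q.2) := by
    have e1 : ((a : ℤ) ^ q.1) = ((a ^ q.1 : ℕ) : ℤ) := by push_cast; rfl
    have e2 : ((b : ℤ) ^ q.2) = ((b ^ q.2 : ℕ) : ℤ) := by push_cast; rfl
    rw [e1, e2]
    omega
  exact h3.trans (max_le h1 h2)

theorem rlemma_f_pos {a b : ℕ} (ha : 2 ≤ a) (hb : 2 ≤ b) {q : ℕ × ℕ}
    (h : q ≠ (0, 0)) : 0 < rlemma_f a b q := by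
  have := rlemma_two_le ha hb (u := q.1) (v := q.2) h
  unfold rlemma_f
  omega

theorem rlemma_f_le (a b : ℕ) (q : ℕ × ℕ) : rlemma_f a b q ≤ a ^ q.1 * b ^ q.2 :=
  Nat.sub_le _ _

theorem rlemma_log {a b : ℕ} (ha : 2 ≤ a) (hb : 2 ≤ b) (q : ℕ × ℕ) {y : ℕ} (hy : 0 < y)
    (h : y ≤ a ^ q.1 * b ^ q.2) :
    Real.log y ≤ q.1 * Real.log a + q.2 * Real.log b := by
  have ha0 : (0 : ℝ) < a := by exact_mod_cast (by omega : 0 < a)
  have hb0 : (0 : ℝ) < b := by exact_mod_cast (by omega : 0 < b)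
  have h1 : Real.log y ≤ Real.log ((a : ℝ) ^ q.1 * (b : ℝ) ^ q.2) := by
    apply Real.log_le_log (by exact_mod_cast hy)
    exact_mod_cast h
  rw [Real.log_mul (by positivity) (by positivity), Real.log_pow, Real.log_pow] at h1
  exact h1

theorem rlemma_sum (I J : ℕ) (A B : ℝ) :
    2 * ∑ q ∈ Finset.range (I + 1) ×ˢ Finset.range (J + 1), ((q.1 : ℝ) * A + q.2 * B) =
      (I + 1) * (J + 1) * (I * A + J * B) := by
  have hsum : ∀ n : ℕ, ∑ u ∈ Finset.range (n + 1), (u : ℝ) = n * (n + 1) / 2 := by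
    intro n
    induction n with
    | zero => simp
    | succ n ih =>
      rw [Finset.sum_range_succ, ih]
      push_cast
      ring
  rw [Finset.sum_product]
  simp only [Finset.sum_add_distrib, Finset.sum_const, Finset.card_range, nsmul_eq_mul,
    ← Finset.sum_mul, ← Finset.mul_sum]
  rw [hsum, hsum]
  push_cast
  ring

/-- the product `Π` -/
def rlemma_P (a b s I J : ℕ) : ℕ :=
  s * ∏ q ∈ (Finset.range (I + 1) ×ˢ Finset.range (J + 1)).erase (0, 0),
    (rlemma_f a b q * rlemma_g a b q)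

theorem rlemma_P_pos {a b s I J : ℕ} (ha : 2 ≤ a) (hb : 2 ≤ b) (hab : a.Coprime b)
    (hs : 0 < s) : 0 < rlemma_P a b s I J := by
  refine Nat.mul_pos hs (Finset.prod_pos fun q hq => ?_)
  have hne := Finset.ne_of_mem_erase hq
  exact Nat.mul_pos (rlemma_f_pos ha hb hne) (rlemma_g_pos ha hb hab hne)

theorem rlemma_P_log {a b s I J : ℕ} (ha : 2 ≤ a) (hb : 2 ≤ b) (hab : a.Coprime b)
    (hs : 0 < s) : Real.log (rlemma_P a b s I J) ≤
      Real.log s + (I + 1) * (J + 1) * (I * Real.log a + J * Real.log b) := by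
  have hla : 0 ≤ Real.log a := Real.log_natCast_nonneg a
  have hlb : 0 ≤ Real.log b := Real.log_natCast_nonneg b
  unfold rlemma_P
  have hpos : ∀ q ∈ (Finset.range (I + 1) ×ˢ Finset.range (J + 1)).erase (0, 0),
      ((rlemma_f a b q * rlemma_g a b q : ℕ) : ℝ) ≠ 0 := by
    intro q hq
    have hne := Finset.ne_of_mem_erase hq
    exact_mod_cast (Nat.mul_pos (rlemma_f_pos ha hb hne) (rlemma_g_pos ha hb hab hne)).ne'
  rw [Nat.cast_mul, Nat.cast_prod, Real.log_mul (by exact_mod_cast hs.ne')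
    (Finset.prod_ne_zero_iff.2 hpos), Real.log_prod hpos, ← rlemma_sum]
  refine add_le_add_right ?_ _
  rw [Finset.mul_sum]
  calc ∑ q ∈ (Finset.range (I + 1) ×ˢ Finset.range (J + 1)).erase (0, 0),
        Real.log ((rlemma_f a b q * rlemma_g a b q : ℕ) : ℝ)
      ≤ ∑ q ∈ (Finset.range (I + 1) ×ˢ Finset.range (J + 1)).erase (0, 0),
        2 * ((q.1 : ℝ) * Real.log a + q.2 * Real.log b) := by
        apply Finset.sum_le_sum
        intro q hq
        have hne := Finset.ne_of_mem_erase hq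
        have hf := rlemma_f_pos ha hb hne
        have hg := rlemma_g_pos ha hb hab hne
        rw [Nat.cast_mul, Real.log_mul (by exact_mod_cast hf.ne') (by exact_mod_cast hg.ne')]
        have h1 := rlemma_log ha hb q hf (rlemma_f_le a b q)
        have h2 := rlemma_log ha hb q hg (rlemma_g_le ha hb q)
        linarith
    _ ≤ ∑ q ∈ Finset.range (I + 1) ×ˢ Finset.range (J + 1),
        2 * ((q.1 : ℝ) * Real.log a + q.2 * Real.log b) := by
        apply Finset.sum_le_sum_of_subset_of_nonneg (Finset.erase_subset _ _)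
        intro q _ _
        positivity

theorem rlemma_exists_prime {x N : ℕ} (hN : 0 < N) (h : Real.log N < Chebyshev.theta x) :
    ∃ r : ℕ, r.Prime ∧ r ≤ x ∧ ¬ r ∣ N := by
  by_contra hcon
  push Not at hcon
  have h1 : primorial x ∣ N := by
    unfold primorial
    apply Finset.prod_primes_dvd
    · intro p hp
      exact (Finset.mem_filter.1 hp).2.prime
    · intro p hp
      have hp' := Finset.mem_filter.1 hp
      exact hcon p hp'.2 (by have := Finset.mem_range.1 hp'.1; omega)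
  have h2 : primorial x ≤ N := Nat.le_of_dvd hN h1
  rw [Chebyshev.theta_eq_log_primorial, Nat.floor_natCast] at h
  have h3 : Real.log (primorial x) ≤ Real.log N := by
    apply Real.log_le_log
    · exact_mod_cast primorial_pos x
    · exact_mod_cast h2
  linarith

/-- divisibility from an equation in `ZMod r`, first case -/
theorem rlemma_case1 {a b r i j : ℕ} (ha : 2 ≤ a) (hb : 2 ≤ b)
    (h : (a : ZMod r) ^ i * (b : ZMod r) ^ j = 1) : r ∣ rlemma_f a b (i, j) := by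
  have h1 : 1 ≤ a ^ i * b ^ j := Nat.mul_pos (Nat.pow_pos (by omega)) (Nat.pow_pos (by omega))
  unfold rlemma_f
  rw [← ZMod.natCast_eq_zero_iff, Nat.cast_sub h1]
  push_cast
  rw [h, sub_self]

theorem rlemma_case2 {a b r i j : ℕ}
    (h : (a : ZMod r) ^ i = (b : ZMod r) ^ j) : r ∣ rlemma_g a b (i, j) := by
  unfold rlemma_g
  rw [← Int.natCast_dvd, ← ZMod.intCast_zmod_eq_zero_iff_dvd]
  push_cast
  rw [h, sub_self]

theorem rlemma_inj {a b r I J : ℕ} (hr : r.Prime) (ha : 2 ≤ a) (hb : 2 ≤ b)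
    (hf : ∀ q ∈ (Finset.range (I + 1) ×ˢ Finset.range (J + 1)).erase (0, 0),
      ¬ r ∣ rlemma_f a b q)
    (hg : ∀ q ∈ (Finset.range (I + 1) ×ˢ Finset.range (J + 1)).erase (0, 0),
      ¬ r ∣ rlemma_g a b q) (hra : ¬ r ∣ a) (hrb : ¬ r ∣ b) :
    Set.InjOn (fun q : ℕ × ℕ => (a : ZMod r) ^ q.1 * (b : ZMod r) ^ q.2)
      ((Finset.range (I + 1) ×ˢ Finset.range (J + 1) : Finset (ℕ × ℕ)) : Set (ℕ × ℕ)) := by
  haveI : Fact r.Prime := ⟨hr⟩
  have ha0 : (a : ZMod r) ≠ 0 := by rwa [Ne, ZMod.natCast_eq_zero_iff]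
  have hb0 : (b : ZMod r) ≠ 0 := by rwa [Ne, ZMod.natCast_eq_zero_iff]
  have key : ∀ u v u' v' : ℕ, u ≤ I → v ≤ J → u' ≤ I → v' ≤ J → u ≤ u' →
      (a : ZMod r) ^ u * (b : ZMod r) ^ v = (a : ZMod r) ^ u' * (b : ZMod r) ^ v' →
      (u, v) = (u', v') := by
    intro u v u' v' hu hv hu' hv' huu h
    by_contra hne
    rcases Nat.le_total v v' with hvv | hvv
    · have h1 : (a : ZMod r) ^ (u' - u) * (b : ZMod r) ^ (v' - v) = 1 := by
        have e1 : (a : ZMod r) ^ u' = (a : ZMod r) ^ u * (a : ZMod r) ^ (u' - u) := by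
          rw [← pow_add]; congr 1; omega
        have e2 : (b : ZMod r) ^ v' = (b : ZMod r) ^ v * (b : ZMod r) ^ (v' - v) := by
          rw [← pow_add]; congr 1; omega
        rw [e1, e2] at h
        have h2 : (a : ZMod r) ^ u * (b : ZMod r) ^ v *
            ((a : ZMod r) ^ (u' - u) * (b : ZMod r) ^ (v' - v)) =
            (a : ZMod r) ^ u * (b : ZMod r) ^ v * 1 := by
          linear_combination -h
        exact mul_left_cancel₀ (mul_ne_zero (pow_ne_zero _ ha0) (pow_ne_zero _ hb0)) h2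
      refine hf (u' - u, v' - v) ?_ (rlemma_case1 ha hb h1)
      rw [Finset.mem_erase, Finset.mem_product, Finset.mem_range, Finset.mem_range]
      refine ⟨?_, by omega, by omega⟩
      intro h3
      rw [Prod.mk.injEq] at h3
      apply hne
      rw [Prod.mk.injEq]
      omega
    · have h1 : (a : ZMod r) ^ (u' - u) = (b : ZMod r) ^ (v - v') := by
        have e1 : (a : ZMod r) ^ u' = (a : ZMod r) ^ u * (a : ZMod r) ^ (u' - u) := by
          rw [← pow_add]; congr 1; omega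
        have e2 : (b : ZMod r) ^ v = (b : ZMod r) ^ v' * (b : ZMod r) ^ (v - v') := by
          rw [← pow_add]; congr 1; omega
        rw [e1, e2] at h
        have h2 : (a : ZMod r) ^ u * (b : ZMod r) ^ v' * (a : ZMod r) ^ (u' - u) =
            (a : ZMod r) ^ u * (b : ZMod r) ^ v' * (b : ZMod r) ^ (v - v') := by
          linear_combination -h
        exact mul_left_cancel₀ (mul_ne_zero (pow_ne_zero _ ha0) (pow_ne_zero _ hb0)) h2
      refine hg (u' - u, v - v') ?_ (rlemma_case2 h1)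
      rw [Finset.mem_erase, Finset.mem_product, Finset.mem_range, Finset.mem_range]
      refine ⟨?_, by omega, by omega⟩
      intro h3
      rw [Prod.mk.injEq] at h3
      apply hne
      rw [Prod.mk.injEq]
      omega
  rintro ⟨u, v⟩ h1 ⟨u', v'⟩ h2 h
  rw [Finset.mem_coe, Finset.mem_product, Finset.mem_range, Finset.mem_range] at h1 h2
  rcases Nat.le_total u u' with huu | huu
  · exact key u v u' v' (by omega) (by omega) (by omega) (by omega) huu h
  · exact (key u' v' u v (by omega) (by omega) (by omega) (by omega) huu h.symm).symm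

theorem exists_r {a b s I J x : ℕ} (ha : 2 ≤ a) (hb : 2 ≤ b) (hab : a.Coprime b) (hs : 0 < s)
    (hx : Real.log s + (I + 1) * (J + 1) * (I * Real.log a + J * Real.log b) <
      Chebyshev.theta x) :
    ∃ r : ℕ, r.Prime ∧ r ≤ x ∧ ¬ r ∣ s ∧
      (¬ r ∣ a → ¬ r ∣ b → (I + 1) * (J + 1) ≤ (cls r a b).ncard) := by
  obtain ⟨r, hr, hrx, hrP⟩ := rlemma_exists_prime (rlemma_P_pos (I := I) (J := J) ha hb hab hs)
    (lt_of_le_of_lt (rlemma_P_log ha hb hab hs) hx)
  have hdvd : ∀ q ∈ (Finset.range (I + 1) ×ˢ Finset.range (J + 1)).erase (0, 0),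
      rlemma_f a b q * rlemma_g a b q ∣ rlemma_P a b s I J := fun q hq =>
    (Finset.dvd_prod_of_mem (fun q => rlemma_f a b q * rlemma_g a b q) hq).trans
      (Dvd.intro_left s rfl)
  refine ⟨r, hr, hrx, fun h => hrP (h.trans (Dvd.intro _ rfl)), fun hra hrb => ?_⟩
  haveI : Fact r.Prime := ⟨hr⟩
  haveI : NeZero r := ⟨hr.ne_zero⟩
  have hinj := rlemma_inj (I := I) (J := J) hr ha hb
    (fun q hq h => hrP ((h.trans (Dvd.intro _ rfl)).trans (hdvd q hq)))
    (fun q hq h => hrP ((h.trans (Dvd.intro_left _ rfl)).trans (hdvd q hq))) hra hrb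
  have h1 : ((fun q : ℕ × ℕ => (a : ZMod r) ^ q.1 * (b : ZMod r) ^ q.2) ''
      ((Finset.range (I + 1) ×ˢ Finset.range (J + 1) : Finset (ℕ × ℕ)) : Set (ℕ × ℕ))).ncard =
      (I + 1) * (J + 1) := by
    rw [Set.ncard_image_of_injOn hinj, Set.ncard_coe_finset, Finset.card_product,
      Finset.card_range, Finset.card_range]
  rw [← h1]
  apply Set.ncard_le_ncard _ (Set.toFinite _)
  rintro y ⟨q, -, rfl⟩
  exact ⟨q.1, q.2, rfl⟩

end Pool.Agent.W_420c7c_h29
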