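import Pool.Agent.W_420c7c_h29.Defs

/-!
# Selection of a subset of primes

* `select`: strong induction on the number of elements of `Q` (or take a subset `Q' ∋ 2` of `Q` with
  `τ < ∏ (q - 1)` of minimal cardinality). If `Q'` contains an odd prime `q₀` then by minimality
  `∏_{Q' \ {q₀}} (q - 1) ≤ τ`, so `∏_{Q'} (q - 1) ≤ τ (q₀ - 1) ≤ τ Z`. If `Q' = {2}` the product is `1 ≤ τ`,
  a contradiction.
* `prod_le_mul`: `∏_{q ∈ Q} q / (q - 1) ≤ ∏_{i=2}^{Z} i / (i - 1) = Z` (all factors are `≥ 1`).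
* `pow_modEq_one`: by Fermat `q ∣ x ^ (q-1) - 1 ∣ x ^ M - 1` for all `q ∈ Q`, so the product
  divides `x ^ M - 1` (`Finset.prod_primes_dvd`).
* `totient_prod`: `Nat.totient_mul` for coprime factors and `Nat.totient_prime`, induction on `Q`.
-/

namespace Pool.Agent.W_420c7c_h29

theorem select (Q : Finset ℕ) (Z : ℕ) (hQ : ∀ q ∈ Q, q.Prime ∧ q ≤ Z) (h2 : 2 ∈ Q) (τ : ℝ)
    (hτ : 1 ≤ τ) (h : τ < ∏ q ∈ Q, ((q : ℝ) - 1)) :
    ∃ Q' ⊆ Q, 2 ∈ Q' ∧ τ < ∏ q ∈ Q', ((q : ℝ) - 1) ∧ ∏ q ∈ Q', ((q : ℝ) - 1) ≤ τ * Z := by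
  induction Q using Finset.strongInduction with
  | H Q ih =>
    by_cases hle : ∏ q ∈ Q, ((q : ℝ) - 1) ≤ τ * Z
    · exact ⟨Q, Finset.Subset.refl _, h2, h, hle⟩
    · push Not at hle
      have hne : ∃ q₀ ∈ Q, q₀ ≠ 2 := by
        by_contra hcon
        push Not at hcon
        have hQ2 : Q = {2} := Finset.eq_singleton_iff_unique_mem.2 ⟨h2, hcon⟩
        rw [hQ2, Finset.prod_singleton] at h
        push_cast at h
        linarith
      obtain ⟨q₀, hq₀, hq₀2⟩ := hne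
      have h3 : ((q₀ : ℝ) - 1) * ∏ q ∈ Q.erase q₀, ((q : ℝ) - 1) = ∏ q ∈ Q, ((q : ℝ) - 1) :=
        Finset.mul_prod_erase Q (fun q => (q : ℝ) - 1) hq₀
      have hq2 : (2 : ℝ) ≤ q₀ := by exact_mod_cast (hQ q₀ hq₀).1.two_le
      have hqZ : (q₀ : ℝ) ≤ Z := by exact_mod_cast (hQ q₀ hq₀).2
      have h4 : τ < ∏ q ∈ Q.erase q₀, ((q : ℝ) - 1) := by
        rw [← h3] at hle
        have h5 : ((q₀ : ℝ) - 1) * τ < ((q₀ : ℝ) - 1) * ∏ q ∈ Q.erase q₀, ((q : ℝ) - 1) := by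
          refine lt_of_le_of_lt ?_ hle
          nlinarith
        exact lt_of_mul_lt_mul_left h5 (by linarith)
      obtain ⟨Q', g1, g2, g3, g4⟩ := ih (Q.erase q₀) (Finset.erase_ssubset hq₀)
        (fun q hq => hQ q (Finset.mem_of_mem_erase hq))
        (Finset.mem_erase.2 ⟨fun hh => hq₀2 hh.symm, h2⟩) h4
      exact ⟨Q', g1.trans (Finset.erase_subset _ _), g2, g3, g4⟩

theorem prod_le_mul (Q : Finset ℕ) (Z : ℕ) (hZ : 1 ≤ Z) (hQ : ∀ q ∈ Q, q.Prime ∧ q ≤ Z) :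
    ∏ q ∈ Q, (q : ℝ) ≤ Z * ∏ q ∈ Q, ((q : ℝ) - 1) := by
  have key : ∀ Z : ℕ, 1 ≤ Z → ∀ Q : Finset ℕ, (∀ q ∈ Q, 2 ≤ q ∧ q ≤ Z) →
      ∏ q ∈ Q, (q : ℝ) ≤ Z * ∏ q ∈ Q, ((q : ℝ) - 1) := by
    intro Z hZ
    induction Z, hZ using Nat.le_induction with
    | base =>
      intro Q hQ
      have hQ0 : Q = ∅ := by
        rw [Finset.eq_empty_iff_forall_notMem]
        intro q hq
        have := hQ q hq
        omega
      rw [hQ0, Finset.prod_empty, Finset.prod_empty]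
      norm_num
    | succ Z hZ ih =>
      intro Q hQ
      have hnn : ∀ Q' : Finset ℕ, (∀ q ∈ Q', 2 ≤ q) → 0 ≤ ∏ q ∈ Q', ((q : ℝ) - 1) := by
        intro Q' hQ'
        refine Finset.prod_nonneg fun q hq => ?_
        have : (2 : ℝ) ≤ q := by exact_mod_cast hQ' q hq
        linarith
      by_cases hmem : Z + 1 ∈ Q
      · rw [← Finset.mul_prod_erase Q (fun q => (q : ℝ)) hmem,
          ← Finset.mul_prod_erase Q (fun q => (q : ℝ) - 1) hmem]
        have h1 := ih (Q.erase (Z + 1)) (fun q hq => by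
          have h2 := hQ q (Finset.mem_of_mem_erase hq)
          have h3 := Finset.ne_of_mem_erase hq
          omega)
        have h4 : (0 : ℝ) ≤ (Z : ℝ) + 1 := by positivity
        push_cast
        calc ((Z : ℝ) + 1) * ∏ q ∈ Q.erase (Z + 1), (q : ℝ)
            ≤ ((Z : ℝ) + 1) * (Z * ∏ q ∈ Q.erase (Z + 1), ((q : ℝ) - 1)) :=
              mul_le_mul_of_nonneg_left h1 h4
          _ = ((Z : ℝ) + 1) * (((Z : ℝ) + 1 - 1) * ∏ q ∈ Q.erase (Z + 1), ((q : ℝ) - 1)) := by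
              ring
      · have h1 := ih Q (fun q hq => by
          have h2 := hQ q hq
          have h3 : q ≠ Z + 1 := fun hh => hmem (hh ▸ hq)
          omega)
        refine h1.trans ?_
        push_cast
        have h5 := hnn Q (fun q hq => (hQ q hq).1)
        nlinarith
  exact key Z hZ Q fun q hq => ⟨(hQ q hq).1.two_le, (hQ q hq).2⟩

theorem pow_modEq_one (Q : Finset ℕ) (M : ℕ) (hQ : ∀ q ∈ Q, q.Prime ∧ (q - 1) ∣ M) (x : ℕ)
    (hx : x.Coprime (∏ q ∈ Q, q)) : x ^ M ≡ 1 [MOD ∏ q ∈ Q, q] := by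
  induction Q using Finset.induction_on with
  | empty =>
    rw [Finset.prod_empty]
    exact Nat.modEq_one
  | insert a s ha ih =>
    rw [Finset.prod_insert ha] at hx ⊢
    have hap := hQ a (Finset.mem_insert_self a s)
    have hcop : Nat.Coprime a (∏ q ∈ s, q) := by
      refine Nat.Coprime.prod_right fun q hq => ?_
      refine (Nat.coprime_primes hap.1 (hQ q (Finset.mem_insert_of_mem hq)).1).2 ?_
      rintro rfl
      exact ha hq
    refine (Nat.modEq_and_modEq_iff_modEq_mul hcop).1 ⟨?_, ?_⟩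
    · obtain ⟨t, ht⟩ := hap.2
      have h1 : x ^ Nat.totient a ≡ 1 [MOD a] :=
        Nat.ModEq.pow_totient (Nat.Coprime.coprime_mul_right_right hx)
      rw [Nat.totient_prime hap.1] at h1
      have h2 := h1.pow t
      rw [← pow_mul, one_pow, ← ht] at h2
      exact h2
    · exact ih (fun q hq => hQ q (Finset.mem_insert_of_mem hq))
        (Nat.Coprime.coprime_mul_left_right hx)

theorem totient_prod (Q : Finset ℕ) (hQ : ∀ q ∈ Q, q.Prime) :
    (Nat.totient (∏ q ∈ Q, q) : ℝ) = ∏ q ∈ Q, ((q : ℝ) - 1) := by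
  induction Q using Finset.induction_on with
  | empty =>
    rw [Finset.prod_empty, Finset.prod_empty, Nat.totient_one, Nat.cast_one]
  | insert a s ha ih =>
    rw [Finset.prod_insert ha, Finset.prod_insert ha]
    have hap := hQ a (Finset.mem_insert_self a s)
    have hcop : Nat.Coprime a (∏ q ∈ s, q) := by
      refine Nat.Coprime.prod_right fun q hq => ?_
      refine (Nat.coprime_primes hap (hQ q (Finset.mem_insert_of_mem hq))).2 ?_
      rintro rfl
      exact ha hq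
    rw [Nat.totient_mul hcop, Nat.totient_prime hap, Nat.cast_mul,
      ih (fun q hq => hQ q (Finset.mem_insert_of_mem hq)), Nat.cast_sub hap.one_lt.le,
      Nat.cast_one]

end Pool.Agent.W_420c7c_h29
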