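import Pool.Agent.W_420c7c_h29.SLemA
import Pool.Agent.W_420c7c_h29.Select

/-!
# The modulus `s` (in this file: `exists_s`)

Proof. We may assume `ε ≤ 1`. Choose a natural number `E ≥ 2 + 8 / ε` and `K = 12 E`. Write
`M_y = lcmUpto y`, `log M_y = ψ(y) ≤ (3/2) y` for large `y` (`Chebyshev.psi_eq_log_lcmUpto`,
`Chebyshev.psi_le`, `log 4 < 1.39`). By `sum_log_good`: `∑_{q ∈ good K y} log (q-1) ≥ K y / 8 = (3/2) E y
≥ E log M_y`, so `∏_{q ∈ good K y} (q-1) ≥ M_y ^ E` for `y ≥ y₁`.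
Given `Z` large let `y` be the least number with `y ≥ y₁` and `10 Z ≤ M_y ^ (E-2)` (it exists since
`M_y` is unbounded, `Nat.two_pow_le_mul_lcmUpto`, name `Chebyshev.two_pow_le_mul_lcmUpto`). For large
`Z` it is `> y₁`, so `M_{y-1} ^ (E-2) < 10 Z`, and `M_y ≤ y M_{y-1}` (`lcmUpto y ∣ y * lcmUpto (y-1)`), so
`M := M_y ≤ y (10 Z) ^ (1/(E-2))`. Also `2 ^ (y-1) ≤ y * M_{y-1} ≤ 10 y Z`, so `y ≤ C log Z`, in particular
`K y ≤ Z ^ (ε/16)` for large `Z`. Hence `M ≤ Z ^ (ε/16) (10 Z) ^ (ε/8) ≤ Z ^ (ε/4)`.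
Now `τ = 9 M² Z ≥ 1` and `τ < 10 M² Z ≤ M ^ E ≤ ∏_{good} (q-1)`. By `select` (with `Q = good K y`,
`2 ∈ Q` as `2 - 1 = 1` divides everything and `2 ≤ K y`; the number `Z` there is `K y`) there is
`Q' ∋ 2` with `τ < ∏_{Q'} (q-1) ≤ τ K y`. Let `s = ∏_{Q'} q`, even as `2 ∈ Q'`. `totient_prod`,
`pow_modEq_one` (for `q ∈ good K y` we have `q - 1 ∣ M`), and by `prod_le_mul`:
`s ≤ K y ∏_{Q'} (q-1) ≤ (K y)² 9 M² Z ≤ Z ^ (ε/8) * 9 * Z ^ (ε/2) * Z ≤ Z ^ (1+ε)`.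
-/

namespace Pool.Agent.W_420c7c_h29

theorem exists_s (ε : ℝ) (hε : 0 < ε) : ∃ Z₀ : ℝ, ∀ Z : ℝ, Z₀ ≤ Z → ∃ M s : ℕ, 0 < M ∧ 0 < s ∧
    Even s ∧ (∀ x : ℕ, x.Coprime s → x ^ M ≡ 1 [MOD s]) ∧
      9 * (M : ℝ) ^ 2 * Z < Nat.totient s ∧ (s : ℝ) ≤ Z ^ (1 + ε) ∧ (M : ℝ) ≤ Z ^ ε := by
  set ε' : ℝ := min ε 1 with hε'
  have hε'0 : 0 < ε' := lt_min hε one_pos
  have hε'1 : ε' ≤ 1 := min_le_right _ _
  have hε'ε : ε' ≤ ε := min_le_left _ _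
  obtain ⟨E, hE⟩ := exists_nat_ge (2 + 8 / ε')
  have h8 : 8 ≤ 8 / ε' := by
    rw [le_div_iff₀ hε'0]
    linarith
  have hE10 : (10 : ℝ) ≤ E := by linarith
  have hE3 : 3 ≤ E := by
    have h1 : (3 : ℝ) ≤ E := by linarith
    exact_mod_cast h1
  obtain ⟨y₁, hy₁⟩ := prod_good_ge E
  obtain ⟨Z₁, hZ₁⟩ := exists_y E hE3 y₁ ε' hε'0 (by linarith)
  refine ⟨max Z₁ (max 1 ((9 : ℝ) ^ (8 / (3 * ε')))), fun Z hZ => ?_⟩
  have hZa : Z₁ ≤ Z := (le_max_left _ _).trans hZ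
  have hZ1 : 1 ≤ Z := (le_max_left _ _).trans ((le_max_right _ _).trans hZ)
  have hZ9 : (9 : ℝ) ^ (8 / (3 * ε')) ≤ Z := (le_max_right _ _).trans ((le_max_right _ _).trans hZ)
  have hZ0 : 0 < Z := by linarith
  obtain ⟨y, hy, hy2, hy3, hy4, hy5⟩ := hZ₁ Z hZa
  have hgood := hy₁ y hy
  set M : ℕ := Nat.lcmUpto y with hM
  have hM0 : 0 < M := Nat.lcmUpto_pos y
  have hM1 : (1 : ℝ) ≤ M := by exact_mod_cast hM0
  set K : ℕ := 12 * E + 1 with hK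
  have hKy : 2 ≤ K * y := by
    have h1 : 1 ≤ K := by omega
    calc 2 ≤ 1 * y := by omega
      _ ≤ K * y := Nat.mul_le_mul_right y h1
  have hQ : ∀ q ∈ good K y, q.Prime ∧ q ≤ K * y := by
    intro q hq
    have h1 := Finset.mem_filter.1 hq
    exact ⟨h1.2.1, by have := Finset.mem_range.1 h1.1; omega⟩
  have h2good : 2 ∈ good K y := by
    refine Finset.mem_filter.2 ⟨Finset.mem_range.2 (by omega), Nat.prime_two, ?_⟩
    simp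
  have hτ1 : 1 ≤ 9 * (M : ℝ) ^ 2 * Z := by
    have h1 : 1 ≤ (M : ℝ) ^ 2 := one_le_pow₀ hM1
    nlinarith
  have hτ2 : 9 * (M : ℝ) ^ 2 * Z < ∏ q ∈ good K y, ((q : ℝ) - 1) := by
    refine lt_of_lt_of_le ?_ hgood
    have h1 : (M : ℝ) ^ E = (M : ℝ) ^ 2 * (M : ℝ) ^ (E - 2) := by
      rw [← pow_add]
      congr 1
      omega
    rw [h1]
    have h2 : 0 < (M : ℝ) ^ 2 := by positivity
    calc 9 * (M : ℝ) ^ 2 * Z < (M : ℝ) ^ 2 * (10 * Z) := by nlinarith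
      _ ≤ (M : ℝ) ^ 2 * (M : ℝ) ^ (E - 2) := mul_le_mul_of_nonneg_left hy3 h2.le
  obtain ⟨Q', hsub, h2Q', hlt, hle⟩ := select (good K y) (K * y) hQ h2good _ hτ1 hτ2
  have hQ' : ∀ q ∈ Q', q.Prime ∧ q ≤ K * y := fun q hq => hQ q (hsub hq)
  refine ⟨M, ∏ q ∈ Q', q, hM0, ?_, ?_, ?_, ?_, ?_, ?_⟩
  · exact Finset.prod_pos fun q hq => (hQ' q hq).1.pos
  · exact even_iff_two_dvd.2 (Finset.dvd_prod_of_mem _ h2Q')
  · intro x hx
    refine pow_modEq_one Q' M (fun q hq => ⟨(hQ' q hq).1, ?_⟩) x hx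
    exact (Finset.mem_filter.1 (hsub hq)).2.2
  · rw [totient_prod Q' fun q hq => (hQ' q hq).1]
    exact hlt
  · have h1 := prod_le_mul Q' (K * y) (by omega) hQ'
    have h2 : ((K * y : ℕ) : ℝ) ≤ Z ^ (ε' / 16) := by
      rw [Nat.cast_mul]
      exact hy5
    have h3 : (0 : ℝ) ≤ ((K * y : ℕ) : ℝ) := Nat.cast_nonneg _
    have h9 : (9 : ℝ) ≤ Z ^ (3 * ε' / 8) := by
      have h4 : (9 : ℝ) = ((9 : ℝ) ^ (8 / (3 * ε'))) ^ (3 * ε' / 8) := by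
        rw [← Real.rpow_mul (by norm_num)]
        have h5 : 8 / (3 * ε') * (3 * ε' / 8) = 1 := by
          field_simp
        rw [h5, Real.rpow_one]
      rw [h4]
      exact Real.rpow_le_rpow (by positivity) hZ9 (by positivity)
    rw [Nat.cast_prod]
    calc ∏ q ∈ Q', (q : ℝ) ≤ ((K * y : ℕ) : ℝ) * ∏ q ∈ Q', ((q : ℝ) - 1) := h1
      _ ≤ ((K * y : ℕ) : ℝ) * (9 * (M : ℝ) ^ 2 * Z * ((K * y : ℕ) : ℝ)) :=
          mul_le_mul_of_nonneg_left hle h3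
      _ ≤ Z ^ (ε' / 16) * (9 * (Z ^ (ε' / 4)) ^ 2 * Z * Z ^ (ε' / 16)) := by
          refine mul_le_mul h2 ?_ (by positivity) (by positivity)
          refine mul_le_mul ?_ h2 h3 (by positivity)
          refine mul_le_mul_of_nonneg_right ?_ hZ0.le
          refine mul_le_mul_of_nonneg_left ?_ (by norm_num)
          exact pow_le_pow_left₀ (by positivity) hy4 2
      _ ≤ Z ^ (ε' / 16) * (Z ^ (3 * ε' / 8) * (Z ^ (ε' / 4)) ^ 2 * Z * Z ^ (ε' / 16)) := by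
          have h5 : 0 ≤ (Z ^ (ε' / 4)) ^ 2 * Z * Z ^ (ε' / 16) := by positivity
          refine mul_le_mul_of_nonneg_left ?_ (by positivity)
          nlinarith
      _ = Z ^ (1 + ε') := by
          rw [← Real.rpow_natCast, ← Real.rpow_mul hZ0.le]
          have h6 : Z ^ (ε' / 16) * (Z ^ (3 * ε' / 8) * Z ^ (ε' / 4 * ((2 : ℕ) : ℝ)) * Z *
              Z ^ (ε' / 16)) = Z ^ (ε' / 16) * Z ^ (3 * ε' / 8) * Z ^ (ε' / 4 * ((2 : ℕ) : ℝ)) *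
              Z ^ (1 : ℝ) * Z ^ (ε' / 16) := by
            rw [Real.rpow_one]
            ring
          rw [h6, ← Real.rpow_add hZ0, ← Real.rpow_add hZ0, ← Real.rpow_add hZ0,
            ← Real.rpow_add hZ0]
          congr 1
          push_cast
          ring
      _ ≤ Z ^ (1 + ε) := Real.rpow_le_rpow_of_exponent_le hZ1 (by linarith)
  · refine hy4.trans (Real.rpow_le_rpow_of_exponent_le hZ1 (by linarith))

end Pool.Agent.W_420c7c_h29
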