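import Pool.Agent.W_420c7c_h29.Core
import Pool.Agent.W_420c7c_h29.RLemma
import Pool.Agent.W_420c7c_h29.SLemma
import Pool.Agent.W_420c7c_h29.Comp
import Pool.Agent.W_420c7c_h29.Numeric

/-!
# The final assembly (in this file: `main`, `main'`)

`numeric` (the choice of `r`): let `P, Q ≥ 1`, `Z = P Q`, `w ≤ Z ^ (1+ε)`, `1 ≤ M ≤ Z ^ ε`,
`s ≤ Z ^ (1+ε)`, `I = ⌈√(4 w P / Q)⌉₊`, `J = ⌈√(4 w Q / P)⌉₊`. Then `4 w ≤ I J`, and with
`√(4 w P / Q) = 2 √w P / √Z ≤ 2 Z ^ (ε/2) P`: `I ≤ 3 Z ^ (ε/2) P`, `J ≤ 3 Z ^ (ε/2) Q`,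
`(I+1) (J+1) ≤ 16 Z ^ (1+ε)`, `I M Q + J M P ≤ 6 Z ^ (1 + 3ε/2)`. So
`log s + (I+1) (J+1) M (I Q + J P) log 2 ≤ 100 Z ^ (2 + 5ε/2)`, and for `x = ⌊Z ^ (2 + 3ε)⌋₊` and large `Z`
this is `< x / 2 < θ(x)` (`Chebyshev.theta_ge`).

`main`: let `ε' = min ε 1 / 10`, `n` large, `p ∣ n` prime, `p < n`, `m = n / p ≥ 2`, `P = logb 2 p ≥ 1`,
`Q = logb 2 m ≥ 1`, `L = P + Q = logb 2 n`, `Z = P Q ≥ L - 1` (as `(P-1)(Q-1) ≥ 0`), so `Z` is large.
`B = Z ^ (3+ε) ≥ L²`. Suppose the congruence holds for all `r ≤ B`. `comp_facts`: `n` is squarefree, so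
`p` and `m` are coprime, and no prime `l ≤ B/2` divides `n`. Take `M, s` from `exists_s` (with `ε'`), every
prime factor of `s` is `≤ s ≤ Z ^ (1+ε') ≤ B/2`, so `n`, `m` and `p` are prime to `s`, and
`m ^ M ≡ p ^ M ≡ 1 (mod s)`. Put `w = φ(s) ≤ s`, `a = m ^ M`, `b = p ^ M`. `numeric` and `exists_r` give a
prime `r ≤ Z ^ (2+3ε') ≤ B/2`; `r ∤ n`, so `(I+1) (J+1) ≤ (cls r a b).ncard`, hence
`4 w ≤ (cls r a b).ncard`. `r s ≤ Z ^ (3+4ε') ≤ B`, so `hint_of_cong` with `R = r s` gives the hypothesis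
`hint` of `core` (`n = p * m`). For `1 ≤ j ≤ √r`: `j ≤ r ≤ B/2 < p`, so `p` is prime to `j`. `core` gives
`False`.

`main'`: for `n` composite and large take any prime `p ∣ n`; `Z = P Q ≤ (L/2)² ≤ L²`, so
`Z ^ (3+ε) ≤ L ^ (6+2ε)`. For `n` prime the congruence holds for all `r`, since
`(1 + X) ^ n = 1 + X ^ n` in `(ZMod n)[X]` (`add_pow_char`).
-/

namespace Pool.Agent.W_420c7c_h29

theorem final_coprime {x s : ℕ} (h : ∀ q : ℕ, q.Prime → q ∣ s → ¬ q ∣ x) : x.Coprime s := by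
  refine Nat.Coprime.symm (Nat.coprime_of_dvd fun q hq hqs hqx => ?_)
  exact h q hq hqs hqx

theorem main (ε : ℝ) (hε : 0 < ε) : ∃ N : ℕ, ∀ n : ℕ, N ≤ n → ∀ p : ℕ, p.Prime → p ∣ n → p < n →
    ∃ r : ℕ, 1 ≤ r ∧ (r : ℝ) ≤ (Real.logb 2 p * Real.logb 2 ((n : ℝ) / p)) ^ (3 + ε) ∧
      ¬ Cong n r := by
  set e : ℝ := min ε 1 / 10 with he
  have he0 : 0 < e := by positivity
  have he1 : e ≤ ε / 10 := by
    rw [he]
    have := min_le_left ε 1
    linarith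
  have he2 : e ≤ 1 := by
    rw [he]
    have := min_le_right ε 1
    linarith
  obtain ⟨N₁, hN₁⟩ := comp_facts
  obtain ⟨Z₁, hZ₁⟩ := exists_s e he0
  obtain ⟨Z₂, hZ₂⟩ := numeric e he0 he2
  set T : ℝ := max (max Z₁ Z₂) 3 with hT
  refine ⟨max N₁ ⌈(2 : ℝ) ^ (T + 1)⌉₊, fun n hn p hp hpn hlt => ?_⟩
  by_contra hcon
  push Not at hcon
  obtain ⟨m, rfl⟩ := hpn
  have : Fact p.Prime := ⟨hp⟩
  have hp2 : 2 ≤ p := hp.two_le
  have hm2 : 2 ≤ m := by
    by_contra hm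
    have : m ≤ 1 := by omega
    have := Nat.mul_le_mul_left p this
    omega
  have hp0 : (0 : ℝ) < p := by positivity
  have hm0 : (0 : ℝ) < m := by
    have : 0 < m := by omega
    positivity
  have hdiv : (((p * m : ℕ) : ℝ)) / p = m := by
    push_cast
    field_simp
  rw [hdiv] at hcon
  set P : ℝ := Real.logb 2 p with hP
  set Q : ℝ := Real.logb 2 m with hQ
  have hP1 : 1 ≤ P := by
    rw [hP, Real.le_logb_iff_rpow_le (by norm_num) hp0, Real.rpow_one]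
    exact_mod_cast hp2
  have hQ1 : 1 ≤ Q := by
    rw [hQ, Real.le_logb_iff_rpow_le (by norm_num) hm0, Real.rpow_one]
    exact_mod_cast hm2
  have hL : Real.logb 2 ((p * m : ℕ) : ℝ) = P + Q := by
    push_cast
    rw [Real.logb_mul hp0.ne' hm0.ne']
  have hLT : T + 1 ≤ P + Q := by
    rw [← hL, Real.le_logb_iff_rpow_le (by norm_num) (by positivity)]
    have h1 : ⌈(2 : ℝ) ^ (T + 1)⌉₊ ≤ p * m := (le_max_right _ _).trans hn
    exact (Nat.le_ceil _).trans (by exact_mod_cast h1)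
  set Z : ℝ := P * Q with hZ
  have hZT : T ≤ Z := by
    have : 0 ≤ (P - 1) * (Q - 1) := mul_nonneg (by linarith) (by linarith)
    have h1 : (P - 1) * (Q - 1) = Z - (P + Q) + 1 := by rw [hZ]; ring
    linarith
  have hT3 : 3 ≤ T := le_max_right _ _
  have hZ3 : 3 ≤ Z := hT3.trans hZT
  have hZ0 : 0 < Z := by linarith
  have hZ1' : 1 ≤ Z := by linarith
  have hLZ : P + Q ≤ Z + 1 := by
    have : 0 ≤ (P - 1) * (Q - 1) := mul_nonneg (by linarith) (by linarith)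
    have h1 : (P - 1) * (Q - 1) = Z - (P + Q) + 1 := by rw [hZ]; ring
    linarith
  set B : ℝ := Z ^ (3 + ε) with hB
  have hmono : ∀ {x y : ℝ}, x ≤ y → Z ^ x ≤ Z ^ y := fun h => Real.rpow_le_rpow_of_exponent_le hZ1' h
  have hBL : (Real.logb 2 ((p * m : ℕ) : ℝ)) ^ 2 ≤ B := by
    rw [hL]
    have h1 : Z ^ (3 : ℝ) ≤ B := hmono (by linarith)
    have h2 : Z ^ (3 : ℝ) = Z ^ 3 := by
      rw [show (3 : ℝ) = ((3 : ℕ) : ℝ) by norm_num, Real.rpow_natCast]
    rw [h2] at h1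
    refine le_trans ?_ h1
    have h3 : (P + Q) ^ 2 ≤ (Z + 1) ^ 2 := by
      apply pow_le_pow_left₀ (by linarith) hLZ
    have h4 : (Z + 1) ^ 2 ≤ Z ^ 3 := by nlinarith
    exact h3.trans h4
  have hnp : ¬ (p * m).Prime := Nat.not_prime_mul (by omega) (by omega)
  obtain ⟨hsq, hno⟩ := hN₁ (p * m) ((le_max_left _ _).trans hn) B hBL hnp hcon
  have hcop : p.Coprime m := (Nat.squarefree_mul_iff.1 hsq).1
  have htwo : ∀ {x : ℝ}, x + 1 ≤ 3 + ε → 2 * Z ^ x ≤ B := by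
    intro x hx
    have h1 : Z ^ (x + 1) = Z ^ x * Z := by rw [Real.rpow_add hZ0, Real.rpow_one]
    have h2 : 0 < Z ^ x := Real.rpow_pos_of_pos hZ0 _
    have h3 : Z ^ (x + 1) ≤ B := hmono hx
    nlinarith
  obtain ⟨M, s, hM, hs, hs2, hpow, hphi, hsZ, hMZ⟩ :=
    hZ₁ Z (((le_max_left _ _).trans (le_max_left _ _)).trans hZT)
  obtain ⟨I, J, x, hIJ, hxZ, hx⟩ := hZ₂ P Q hP1 hQ1
    (((le_max_right _ _).trans (le_max_left _ _)).trans hZT) M s (Nat.totient s) hM hs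
    (Nat.totient_le s) hsZ hMZ
  have hsn : ∀ q : ℕ, q.Prime → q ∣ s → ¬ q ∣ p * m := by
    intro q hq hqs
    apply hno q hq
    have h1 : (q : ℝ) ≤ s := by exact_mod_cast Nat.le_of_dvd hs hqs
    have h2 := htwo (x := 1 + e) (by linarith)
    linarith
  have hps : p.Coprime s := final_coprime fun q hq hqs hqp => hsn q hq hqs (hqp.mul_right m)
  have hms : m.Coprime s := final_coprime fun q hq hqs hqp => hsn q hq hqs (hqp.mul_left p)
  have hlogm : Real.log m = Q * Real.log 2 := by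
    rw [hQ, Real.logb]
    have : Real.log 2 ≠ 0 := (Real.log_pos (by norm_num)).ne'
    field_simp
  have hlogp : Real.log p = P * Real.log 2 := by
    rw [hP, Real.logb]
    have : Real.log 2 ≠ 0 := (Real.log_pos (by norm_num)).ne'
    field_simp
  obtain ⟨r, hr, hrx, hrs, hrcls⟩ := exists_r (a := m ^ M) (b := p ^ M) (s := s) (I := I) (J := J)
    (x := x) (le_trans hm2 (Nat.le_self_pow hM.ne' m)) (le_trans hp2 (Nat.le_self_pow hM.ne' p))
    (Nat.Coprime.pow _ _ hcop.symm) hs (by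
      push_cast
      rw [Real.log_pow, Real.log_pow, hlogm, hlogp]
      exact hx)
  have hrZ : (r : ℝ) ≤ Z ^ (2 + 3 * e) := le_trans (by exact_mod_cast hrx) hxZ
  have h2r : 2 * (r : ℝ) ≤ B := by
    have := htwo (x := 2 + 3 * e) (by linarith)
    linarith
  have hrn : ¬ r ∣ p * m := hno r hr h2r
  have hrm : ¬ r ∣ m ^ M := fun h => hrn ((hr.dvd_of_dvd_pow h).mul_left p)
  have hrp : ¬ r ∣ p ^ M := fun h => hrn ((hr.dvd_of_dvd_pow h).mul_right m)
  have hcls := hrcls hrm hrp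
  have hpB : B < 2 * (p : ℝ) := by
    by_contra h
    push Not at h
    exact hno p hp h (dvd_mul_right p m)
  have hrp' : r < p := by
    have : (r : ℝ) < p := by linarith
    exact_mod_cast this
  have hpr : p.Coprime r := by
    rw [Nat.coprime_primes hp hr]
    omega
  have hRB : ((r * s : ℕ) : ℝ) ≤ B := by
    push_cast
    have h1 : (r : ℝ) * s ≤ Z ^ (2 + 3 * e) * Z ^ (1 + e) :=
      mul_le_mul hrZ hsZ (by positivity) (by positivity)
    rw [← Real.rpow_add hZ0] at h1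
    exact h1.trans (hmono (by linarith))
  have hCong : Cong (p * m) (r * s) := hcon (r * s) (Nat.mul_pos hr.pos hs) hRB
  refine core (p := p) (m := m) (M := M) (r := r) (s := s) hm2 hcop hr.pos hs hs2 hps hpr hM
    (hpow m hms) (hpow p hps) (fun z hz => hint_of_cong (dvd_mul_right p m) hCong hz) ?_ ?_ ?_
  · intro j hj1 hj2
    have h1 : j ≤ r := hj2.trans (Nat.sqrt_le_self r)
    exact (Nat.Prime.coprime_iff_not_dvd hp).2 (Nat.not_dvd_of_pos_of_lt (by omega) (by omega))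
  · refine le_trans (hIJ.trans ?_) hcls
    nlinarith
  · exact hphi

theorem main' (c : ℝ) (hc : 6 < c) : ∃ N : ℕ, ∀ n : ℕ, N ≤ n →
    (n.Prime ↔ ∀ r : ℕ, 1 ≤ r → (r : ℝ) ≤ (Real.logb 2 n) ^ c → Cong n r) := by
  obtain ⟨N, hN⟩ := main ((c - 6) / 2) (by linarith)
  refine ⟨max N 2, fun n hn => ⟨fun hp r _ _ => ?_, fun h => ?_⟩⟩
  · have : Fact n.Prime := ⟨hp⟩
    unfold Cong
    rw [add_pow_char, one_pow, sub_self]
    exact dvd_zero _
  · by_contra hnp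
    have hn2 : 2 ≤ n := (le_max_right _ _).trans hn
    have hp := Nat.minFac_prime (n := n) (by omega)
    have hlt : n.minFac < n := (Nat.not_prime_iff_minFac_lt hn2).1 hnp
    obtain ⟨r, hr1, hr2, hr3⟩ := hN n ((le_max_left _ _).trans hn) _ hp (Nat.minFac_dvd n) hlt
    apply hr3
    apply h r hr1
    refine hr2.trans ?_
    have hn0 : (0 : ℝ) < n := by positivity
    have hp1 : (1 : ℝ) ≤ n.minFac := by exact_mod_cast hp.one_le
    have hpn : (n.minFac : ℝ) ≤ n := by exact_mod_cast hlt.le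
    have hP0 : 0 ≤ Real.logb 2 n.minFac := Real.logb_nonneg (by norm_num) hp1
    have hPL : Real.logb 2 n.minFac ≤ Real.logb 2 n :=
      Real.logb_le_logb_of_le (by norm_num) (by linarith) hpn
    have hq1 : (1 : ℝ) ≤ (n : ℝ) / n.minFac := by
      rw [le_div_iff₀ (by linarith), one_mul]
      exact hpn
    have hQ0 : 0 ≤ Real.logb 2 ((n : ℝ) / n.minFac) := Real.logb_nonneg (by norm_num) hq1
    have hQL : Real.logb 2 ((n : ℝ) / n.minFac) ≤ Real.logb 2 n :=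
      Real.logb_le_logb_of_le (by norm_num) (by linarith) (div_le_self hn0.le hp1)
    have hL0 : 0 ≤ Real.logb 2 n := hP0.trans hPL
    have h1 : Real.logb 2 n.minFac * Real.logb 2 ((n : ℝ) / n.minFac) ≤ (Real.logb 2 n) ^ 2 := by
      rw [sq]
      exact mul_le_mul hPL hQL hQ0 hL0
    have h2 := Real.rpow_le_rpow (mul_nonneg hP0 hQ0) h1
      (show (0 : ℝ) ≤ 3 + (c - 6) / 2 by linarith)
    refine h2.trans (le_of_eq ?_)
    rw [← Real.rpow_natCast, ← Real.rpow_mul hL0]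
    congr 1
    push_cast
    ring

end Pool.Agent.W_420c7c_h29
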