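import Pool.Agent.W_420c7c_h29.OrdLemma

/-!
# Prime power moduli, second part

`ncard_primePow2`: as `ncard_primePow` (file `OrdLemma`), with the element `p` (or `m`) instead of
`p * m`: the powers of `p ^ M` (take `u = 0`), respectively of `m ^ M` (`v = 0`), lie in
`cls (q ^ k) (m ^ M) (p ^ M)`, so the order `o` of the unit `x ^ M` of `ZMod (q ^ k)`, `x = p` or `x = m`,
is at most `ncard`, and `ordlemma_dvd` (with `n = x`, `e = M * o`) gives `q ^ k ≤ q ^ j * (M * o)`.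

`exists_v`: let `j₀` be the least `j` with the property `hj` (`Nat.find`). `j₀ ≠ 0` since everything is
congruent modulo `1`, `j₀ ≠ 1` by Fermat's little theorem (`x ^ (q-1) ≡ 1 (mod q)`, raise to the power
`q`). Put `v = j₀ - 1`.

`pow_modEq_two_mul`: if `q = 2` then `2 * 2 ^ i = 2 ^ (i+1)` divides `2 ^ v`. If `q` is odd then `2` and
`q ^ i` are coprime (`Nat.modEq_and_modEq_iff_modEq_mul`), `q ^ i ∣ q ^ v`, and `x` is odd.
-/

namespace Pool.Agent.W_420c7c_h29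

theorem ordlemma2_gen {q j k M m p x : ℕ} (hq : q.Prime) (hM : 0 < M) (hqx : ¬ q ∣ x)
    (hx : ∀ i : ℕ, ((x : ZMod (q ^ k)) ^ M) ^ i ∈ cls (q ^ k) (m ^ M) (p ^ M))
    (hj : ¬ x ^ (q * (q - 1)) ≡ 1 [MOD q ^ j]) :
    q ^ k ≤ q ^ j * M * (cls (q ^ k) (m ^ M) (p ^ M)).ncard := by
  classical
  haveI : NeZero (q ^ k) := ⟨pow_ne_zero k hq.ne_zero⟩
  have hcop : Nat.Coprime (x ^ M) (q ^ k) := by
    apply Nat.Coprime.pow
    exact ((Nat.Prime.coprime_iff_not_dvd hq).2 hqx).symm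
  set g : (ZMod (q ^ k))ˣ := ZMod.unitOfCoprime (x ^ M) hcop with hg
  have hgv : (g : ZMod (q ^ k)) = ((x ^ M : ℕ) : ZMod (q ^ k)) :=
    ZMod.coe_unitOfCoprime _ _
  have hopos : 0 < orderOf g := orderOf_pos g
  have hfin : (cls (q ^ k) (m ^ M) (p ^ M)).Finite := Set.toFinite _
  have h1 : orderOf g ≤ (cls (q ^ k) (m ^ M) (p ^ M)).ncard := by
    have h2 : ((Finset.range (orderOf g)).image
        (fun i : ℕ => ((g ^ i : (ZMod (q ^ k))ˣ) : ZMod (q ^ k)))).card = orderOf g := by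
      rw [Finset.card_image_of_injOn, Finset.card_range]
      intro a ha b hb hab
      have hab2 : g ^ a = g ^ b := Units.ext hab
      exact pow_injOn_Iio_orderOf (Set.mem_Iio.2 (Finset.mem_range.1 (Finset.mem_coe.1 ha)))
        (Set.mem_Iio.2 (Finset.mem_range.1 (Finset.mem_coe.1 hb))) hab2
    rw [← h2, ← Set.ncard_coe_finset]
    apply Set.ncard_le_ncard _ hfin
    intro y hy
    rw [Finset.mem_coe, Finset.mem_image] at hy
    obtain ⟨i, _, rfl⟩ := hy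
    rw [Units.val_pow_eq_pow_val, hgv, Nat.cast_pow]
    exact hx i
  have h3 : x ^ (M * orderOf g) ≡ 1 [MOD q ^ k] := by
    have h4 : ((g ^ orderOf g : (ZMod (q ^ k))ˣ) : ZMod (q ^ k)) = 1 := by
      rw [pow_orderOf_eq_one]; rfl
    rw [Units.val_pow_eq_pow_val, hgv, ← Nat.cast_pow, ← pow_mul] at h4
    have h5 : ((x ^ (M * orderOf g) : ℕ) : ZMod (q ^ k)) = ((1 : ℕ) : ZMod (q ^ k)) := by
      rw [h4, Nat.cast_one]
    exact (ZMod.natCast_eq_natCast_iff _ _ _).1 h5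
  have h6 := ordlemma_dvd hq hqx hj (Nat.mul_pos hM hopos) h3
  calc q ^ k ≤ q ^ j * (M * orderOf g) := h6
    _ = q ^ j * M * orderOf g := by ring
    _ ≤ _ := Nat.mul_le_mul_left _ h1

theorem ncard_primePow2 {q j k M m p : ℕ} (hq : q.Prime) (hM : 0 < M) (hqm : ¬ q ∣ m)
    (hqp : ¬ q ∣ p)
    (hj : ¬ p ^ (q * (q - 1)) ≡ 1 [MOD q ^ j] ∨ ¬ m ^ (q * (q - 1)) ≡ 1 [MOD q ^ j]) :
    q ^ k ≤ q ^ j * M * (cls (q ^ k) (m ^ M) (p ^ M)).ncard := by
  rcases hj with hj | hj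
  · refine ordlemma2_gen hq hM hqp (fun i => ⟨0, i, ?_⟩) hj
    rw [pow_zero, one_mul, Nat.cast_pow]
  · refine ordlemma2_gen hq hM hqm (fun i => ⟨i, 0, ?_⟩) hj
    rw [pow_zero, mul_one, Nat.cast_pow]

theorem ordlemma2_fermat {q x : ℕ} (hq : q.Prime) (hqx : ¬ q ∣ x) :
    x ^ (q * (q - 1)) ≡ 1 [MOD q] := by
  have h1 : x.Coprime q := ((Nat.Prime.coprime_iff_not_dvd hq).2 hqx).symm
  have h2 := Nat.ModEq.pow_totient h1
  rw [Nat.totient_prime hq] at h2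
  have h3 := h2.pow q
  rw [one_pow, ← pow_mul, mul_comm (q - 1) q] at h3
  exact h3

theorem exists_v {q j m p : ℕ} (hq : q.Prime) (hqm : ¬ q ∣ m) (hqp : ¬ q ∣ p)
    (hj : ¬ p ^ (q * (q - 1)) ≡ 1 [MOD q ^ j] ∨ ¬ m ^ (q * (q - 1)) ≡ 1 [MOD q ^ j]) :
    ∃ v : ℕ, 1 ≤ v ∧ v < j ∧ p ^ (q * (q - 1)) ≡ 1 [MOD q ^ v] ∧
      m ^ (q * (q - 1)) ≡ 1 [MOD q ^ v] ∧
      (¬ p ^ (q * (q - 1)) ≡ 1 [MOD q ^ (v + 1)] ∨ ¬ m ^ (q * (q - 1)) ≡ 1 [MOD q ^ (v + 1)]) := by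
  classical
  have hex : ∃ j : ℕ, ¬ p ^ (q * (q - 1)) ≡ 1 [MOD q ^ j] ∨ ¬ m ^ (q * (q - 1)) ≡ 1 [MOD q ^ j] :=
    ⟨j, hj⟩
  have hspec := Nat.find_spec hex
  have h0 : Nat.find hex ≠ 0 := by
    intro h
    rw [h, pow_zero] at hspec
    rcases hspec with h1 | h1
    · exact h1 Nat.modEq_one
    · exact h1 Nat.modEq_one
  have h1 : Nat.find hex ≠ 1 := by
    intro h
    rw [h, pow_one] at hspec
    rcases hspec with h1 | h1
    · exact h1 (ordlemma2_fermat hq hqp)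
    · exact h1 (ordlemma2_fermat hq hqm)
  have hle : Nat.find hex ≤ j := Nat.find_min' hex hj
  obtain ⟨v, hv⟩ : ∃ v, Nat.find hex = v + 1 := ⟨Nat.find hex - 1, by omega⟩
  have hmin := Nat.find_min hex (m := v) (by omega)
  rw [not_or, not_not, not_not] at hmin
  rw [hv] at hspec
  exact ⟨v, by omega, by omega, hmin.1, hmin.2, hspec⟩

theorem pow_modEq_two_mul {q v i x : ℕ} (hq : q.Prime) (hx : ¬ 2 ∣ x)
    (hv : x ^ (q * (q - 1)) ≡ 1 [MOD q ^ v]) (hi : i + 1 ≤ v) :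
    x ^ (q * (q - 1)) ≡ 1 [MOD 2 * q ^ i] := by
  by_cases h2 : q = 2
  · subst h2
    have h3 : 2 * 2 ^ i = 2 ^ (i + 1) := by rw [pow_succ']
    rw [h3]
    exact hv.of_dvd (pow_dvd_pow 2 hi)
  · have hcop : Nat.Coprime 2 (q ^ i) := by
      apply Nat.Coprime.pow_right
      exact (Nat.coprime_primes Nat.prime_two hq).2 (Ne.symm h2)
    have ha : x ^ (q * (q - 1)) ≡ 1 [MOD 2] := by
      have hx1 : x ≡ 1 [MOD 2] := by
        have : x % 2 = 1 := by omega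
        exact this
      have := hx1.pow (q * (q - 1))
      rwa [one_pow] at this
    have hb : x ^ (q * (q - 1)) ≡ 1 [MOD q ^ i] := hv.of_dvd (pow_dvd_pow q (by omega))
    exact (Nat.modEq_and_modEq_iff_modEq_mul hcop).1 ⟨ha, hb⟩

end Pool.Agent.W_420c7c_h29
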