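import Pool.Agent.W_420c7c_h29.SLemma

/-!
# The modulus `s`, flexible version

`select2`: as `select` (file `Select`), without the element `2`: if `∏_Q (l - 1) ≤ τ * Z` take `Q' = Q`.
Otherwise `Q` is not empty (`τ < ∏ = 1 ≤ τ` is impossible); remove any `q₀ ∈ Q`:
`∏_{Q \ {q₀}} (l - 1) = ∏_Q (l - 1) / (q₀ - 1) > τ Z / (q₀ - 1) ≥ τ`, and use induction.

`exists_Ms`: we may assume `ε ≤ 1`; let `ε₁ = ε / 2`, `E ≥ 2 + 8 / ε₁` a natural number, `y₁` from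
`prod_good_ge E`, and apply `exists_y E _ y₁ ε₁` to `Z ^ 2` (large with `Z`). This gives `y` with
`10 Z² ≤ M ^ (E-2)`, `M = lcmUpto y ≤ (Z²) ^ (ε₁/4) = Z ^ (ε₁/2) ≤ Z ^ ε`, `K y ≤ (Z²) ^ (ε₁/16) = Z ^ (ε₁/8)`
(`K = 12 E + 1`). Let `Q = ((good K y).erase 2).erase q`. As `2 - 1 = 1` and `q - 1 ≤ q`:
`M ^ E ≤ ∏_{good} (l - 1) ≤ q ∏_Q (l - 1)`, so `q ∏_Q (l - 1) ≥ M² 10 Z² > M² Z² ≥ τ q` and
`∏_Q (l - 1) > τ`. `select2` (with `Z = K y`) gives `Q'`; let `s = ∏_{Q'} l`. `totient_prod`,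
`pow_modEq_one`, `prod_le_mul`: `s ≤ K y ∏_{Q'} (l - 1) ≤ (K y)² τ ≤ τ Z ^ ε`. A prime that divides `s` is
in `Q'` (`Prime.exists_mem_finset_dvd` and `Nat.prime_dvd_prime_iff_eq`), so it is neither `2` nor `q`.
See the proof of `exists_s` (file `SLemma`).
-/

namespace Pool.Agent.W_420c7c_h29

theorem select2 (Q : Finset ℕ) (Z : ℕ) (hQ : ∀ l ∈ Q, l.Prime ∧ l ≤ Z) (τ : ℝ)
    (hτ : 1 ≤ τ) (h : τ < ∏ l ∈ Q, ((l : ℝ) - 1)) :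
    ∃ Q' ⊆ Q, τ < ∏ l ∈ Q', ((l : ℝ) - 1) ∧ ∏ l ∈ Q', ((l : ℝ) - 1) ≤ τ * Z := by
  induction Q using Finset.strongInduction with
  | H Q ih =>
    by_cases hle : ∏ q ∈ Q, ((q : ℝ) - 1) ≤ τ * Z
    · exact ⟨Q, Finset.Subset.refl _, h, hle⟩
    · push Not at hle
      have hne : Q.Nonempty := by
        rw [Finset.nonempty_iff_ne_empty]
        rintro rfl
        rw [Finset.prod_empty] at h
        linarith
      obtain ⟨q₀, hq₀⟩ := hne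
      have h3 : ((q₀ : ℝ) - 1) * ∏ q ∈ Q.erase q₀, ((q : ℝ) - 1) = ∏ q ∈ Q, ((q : ℝ) - 1) :=
        Finset.mul_prod_erase Q (fun q => (q : ℝ) - 1) hq₀
      have hq2 : (2 : ℝ) ≤ q₀ := by exact_mod_cast (hQ q₀ hq₀).1.two_le
      have hqZ : (q₀ : ℝ) ≤ Z := by exact_mod_cast (hQ q₀ hq₀).2
      have h4 : τ < ∏ q ∈ Q.erase q₀, ((q : ℝ) - 1) := by
        rw [← h3] at hle
        have h5 : ((q₀ : ℝ) - 1) * τ < ((q₀ : ℝ) - 1) * ∏ q ∈ Q.erase q₀, ((q : ℝ) - 1) := by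
          refine lt_of_le_of_lt ?_ hle
          nlinarith
        exact lt_of_mul_lt_mul_left h5 (by linarith)
      obtain ⟨Q', hsub, h6, h7⟩ := ih (Q.erase q₀) (Finset.erase_ssubset hq₀)
        (fun q hq => hQ q (Finset.mem_of_mem_erase hq)) h4
      exact ⟨Q', hsub.trans (Finset.erase_subset _ _), h6, h7⟩

theorem exists_Ms (ε : ℝ) (hε : 0 < ε) : ∃ Z₀ : ℝ, ∀ Z : ℝ, Z₀ ≤ Z → ∃ M : ℕ, 0 < M ∧
    (M : ℝ) ≤ Z ^ ε ∧ ∀ q : ℕ, q.Prime → ∀ τ : ℝ, 1 ≤ τ → τ * q ≤ (M : ℝ) ^ 2 * Z ^ 2 →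
      ∃ s : ℕ, 0 < s ∧ ¬ 2 ∣ s ∧ ¬ q ∣ s ∧ (∀ x : ℕ, x.Coprime s → x ^ M ≡ 1 [MOD s]) ∧
        τ < Nat.totient s ∧ (s : ℝ) ≤ τ * Z ^ ε := by
  set ε₁ : ℝ := min ε 1 / 2 with hε₁
  have hε₁0 : 0 < ε₁ := by
    rw [hε₁]
    exact half_pos (lt_min hε one_pos)
  have hε₁ε : 2 * ε₁ ≤ ε := by
    rw [hε₁]
    have := min_le_left ε 1
    linarith
  have hε₁1 : ε₁ ≤ 1 := by
    rw [hε₁]
    have := min_le_right ε 1
    linarith
  obtain ⟨E, hE⟩ := exists_nat_ge (2 + 8 / ε₁)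
  have h8 : 8 ≤ 8 / ε₁ := by
    rw [le_div_iff₀ hε₁0]
    linarith
  have hE10 : (10 : ℝ) ≤ E := by linarith
  have hE3 : 3 ≤ E := by
    have h1 : (3 : ℝ) ≤ E := by linarith
    exact_mod_cast h1
  obtain ⟨y₁, hy₁⟩ := prod_good_ge E
  obtain ⟨Z₁, hZ₁⟩ := exists_y E hE3 y₁ ε₁ hε₁0 (by linarith)
  refine ⟨max Z₁ 1, fun Z hZ => ?_⟩
  have hZa : Z₁ ≤ Z := (le_max_left _ _).trans hZ
  have hZ1 : 1 ≤ Z := (le_max_right _ _).trans hZ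
  have hZ0 : 0 < Z := by linarith
  have hZb : Z₁ ≤ Z ^ 2 := by nlinarith
  obtain ⟨y, hy, hy2, hy3, hy4, hy5⟩ := hZ₁ (Z ^ 2) hZb
  have hgood := hy₁ y hy
  have hsq : ∀ x : ℝ, (Z ^ 2) ^ x = Z ^ (2 * x) := fun x => by
    rw [← Real.rpow_natCast Z 2, ← Real.rpow_mul hZ0.le]
    push_cast
    rfl
  rw [hsq] at hy4 hy5
  set M : ℕ := Nat.lcmUpto y with hM
  have hM0 : 0 < M := Nat.lcmUpto_pos y
  have hM1 : (1 : ℝ) ≤ M := by exact_mod_cast hM0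
  set K : ℕ := 12 * E + 1 with hK
  refine ⟨M, hM0, hy4.trans (Real.rpow_le_rpow_of_exponent_le hZ1 (by linarith)),
    fun q hq τ hτ hτq => ?_⟩
  have hgoodmem : ∀ l ∈ good K y, l.Prime ∧ l ≤ K * y := by
    intro l hl
    have h1 := Finset.mem_filter.1 hl
    exact ⟨h1.2.1, by have := Finset.mem_range.1 h1.1; omega⟩
  set Q : Finset ℕ := ((good K y).erase 2).erase q with hQdef
  have hQ : ∀ l ∈ Q, l.Prime ∧ l ≤ K * y := fun l hl =>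
    hgoodmem l (Finset.mem_of_mem_erase (Finset.mem_of_mem_erase hl))
  have hq2 : (2 : ℝ) ≤ q := by exact_mod_cast hq.two_le
  have hpos : ∀ l ∈ good K y, (1 : ℝ) ≤ (l : ℝ) - 1 := by
    intro l hl
    have : (2 : ℝ) ≤ l := by exact_mod_cast (hgoodmem l hl).1.two_le
    linarith
  have h2 : ∏ l ∈ good K y, ((l : ℝ) - 1) = ∏ l ∈ (good K y).erase 2, ((l : ℝ) - 1) := by
    by_cases h : 2 ∈ good K y
    · rw [← Finset.mul_prod_erase _ (fun l : ℕ => (l : ℝ) - 1) h]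
      push_cast
      ring
    · rw [Finset.erase_eq_of_notMem h]
  have hQ0 : 0 ≤ ∏ l ∈ Q, ((l : ℝ) - 1) := Finset.prod_nonneg fun l hl => by
    have := hpos l (Finset.mem_of_mem_erase (Finset.mem_of_mem_erase hl))
    linarith
  have h3 : ∏ l ∈ (good K y).erase 2, ((l : ℝ) - 1) ≤ q * ∏ l ∈ Q, ((l : ℝ) - 1) := by
    by_cases h : q ∈ (good K y).erase 2
    · rw [← Finset.mul_prod_erase _ (fun l : ℕ => (l : ℝ) - 1) h]
      exact mul_le_mul_of_nonneg_right (by linarith) hQ0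
    · rw [hQdef, Finset.erase_eq_of_notMem h]
      rw [hQdef, Finset.erase_eq_of_notMem h] at hQ0
      nlinarith
  have hτ2 : τ < ∏ l ∈ Q, ((l : ℝ) - 1) := by
    have h4 : (M : ℝ) ^ E = (M : ℝ) ^ 2 * (M : ℝ) ^ (E - 2) := by
      rw [← pow_add]
      congr 1
      omega
    have h5 : (M : ℝ) ^ 2 * (10 * Z ^ 2) ≤ q * ∏ l ∈ Q, ((l : ℝ) - 1) := by
      calc (M : ℝ) ^ 2 * (10 * Z ^ 2) ≤ (M : ℝ) ^ 2 * (M : ℝ) ^ (E - 2) := by gcongr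
        _ = (M : ℝ) ^ E := h4.symm
        _ ≤ ∏ l ∈ good K y, ((l : ℝ) - 1) := hgood
        _ ≤ _ := by rw [h2]; exact h3
    have h6 : 0 < (M : ℝ) ^ 2 * Z ^ 2 := by positivity
    have h7 : τ * q < q * ∏ l ∈ Q, ((l : ℝ) - 1) := by nlinarith
    have h8 : (q : ℝ) * τ < q * ∏ l ∈ Q, ((l : ℝ) - 1) := by
      rw [mul_comm (q : ℝ) τ]
      exact h7
    exact lt_of_mul_lt_mul_left h8 (by linarith)
  obtain ⟨Q', hsub, hlt, hle⟩ := select2 Q (K * y) hQ τ hτ hτ2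
  have hQ' : ∀ l ∈ Q', l.Prime ∧ l ≤ K * y := fun l hl => hQ l (hsub hl)
  have hdvd : ∀ a : ℕ, a.Prime → a ∣ ∏ l ∈ Q', l → a ∈ Q' := by
    intro a ha h
    obtain ⟨l, hl, hal⟩ := (Prime.dvd_finset_prod_iff (Nat.prime_iff.1 ha) _).1 h
    rw [(Nat.prime_dvd_prime_iff_eq ha (hQ' l hl).1).1 hal]
    exact hl
  refine ⟨∏ l ∈ Q', l, ?_, ?_, ?_, ?_, ?_, ?_⟩
  · exact Finset.prod_pos fun l hl => (hQ' l hl).1.pos
  · intro h
    have h4 := hsub (hdvd 2 Nat.prime_two h)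
    rw [hQdef, Finset.mem_erase, Finset.mem_erase] at h4
    exact h4.2.1 rfl
  · intro h
    have h4 := hsub (hdvd q hq h)
    rw [hQdef, Finset.mem_erase] at h4
    exact h4.1 rfl
  · intro x hx
    refine pow_modEq_one Q' M (fun l hl => ⟨(hQ' l hl).1, ?_⟩) x hx
    have h4 := Finset.mem_of_mem_erase (Finset.mem_of_mem_erase (hsub hl))
    exact (Finset.mem_filter.1 h4).2.2
  · rw [totient_prod Q' fun l hl => (hQ' l hl).1]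
    exact hlt
  · have hKy1 : 1 ≤ K * y := Nat.mul_pos (by omega) (by omega)
    have h1 := prod_le_mul Q' (K * y) hKy1 hQ'
    have h4 : ((K * y : ℕ) : ℝ) ≤ Z ^ (2 * (ε₁ / 16)) := by
      rw [Nat.cast_mul]
      exact hy5
    have h5 : (0 : ℝ) ≤ ((K * y : ℕ) : ℝ) := Nat.cast_nonneg _
    rw [Nat.cast_prod]
    calc ∏ l ∈ Q', (l : ℝ) ≤ ((K * y : ℕ) : ℝ) * ∏ l ∈ Q', ((l : ℝ) - 1) := h1
      _ ≤ ((K * y : ℕ) : ℝ) * (τ * ((K * y : ℕ) : ℝ)) := mul_le_mul_of_nonneg_left hle h5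
      _ = τ * (((K * y : ℕ) : ℝ) * ((K * y : ℕ) : ℝ)) := by ring
      _ ≤ τ * (Z ^ (2 * (ε₁ / 16)) * Z ^ (2 * (ε₁ / 16))) := by
          apply mul_le_mul_of_nonneg_left _ (by linarith)
          exact mul_le_mul h4 h4 h5 (by positivity)
      _ = τ * Z ^ (2 * (ε₁ / 16) + 2 * (ε₁ / 16)) := by rw [Real.rpow_add hZ0]
      _ ≤ τ * Z ^ ε := by
          apply mul_le_mul_of_nonneg_left _ (by linarith)
          exact Real.rpow_le_rpow_of_exponent_le hZ1 (by linarith)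

end Pool.Agent.W_420c7c_h29
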