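import Pool.Agent.W_420c7c_h29.CoreR
import Pool.Agent.W_420c7c_h29.OrdLemma2
import Pool.Agent.W_420c7c_h29.SLemma2
import Pool.Agent.W_420c7c_h29.Final

/-!
# Prime powers as moduli: the range `Z ^ (2+ε)`, `Z = log₂ p * log₂ (n/p)`

Let `m = n / p`, `q` a small prime, and let `v` be maximal with
`p ^ (q (q-1)) ≡ m ^ (q (q-1)) ≡ 1 (mod q ^ v)` (`exists_v`; `v < j`). Take `M₀` from `exists_Ms`,
`M = M₀ q (q-1)`, `i = min (v-1) i₀`, where `Z ≤ q ^ i₀ ≤ 2 q Z`, `τ = 18 M² Z / q ^ i ≥ 1`, `s'` from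
`exists_Ms`, `s = 2 q ^ i s'`. Then `m ^ M ≡ p ^ M ≡ 1 (mod s)` and `φ(s) ≥ (q ^ i / 2) φ(s') > 9 M² Z`.
Let `r = q ^ k` with `4 φ(s) q ^ (v+1) M ≤ r ≤ q 4 φ(s) q ^ (v+1) M`; by `ncard_primePow2`
`4 φ(s) ≤ ncard (cls r (m ^ M) (p ^ M))`. The number `R = 2 r s'` is a common multiple of `r` and `s`
(`i ≤ v ≤ k`), and `R ≤ 5184 q ^ (v+2-i) Z ^ (2 + 17 e)`. If `i = v - 1` this is at most `Z ^ (2+ε)`, and if
`i = i₀` it is at most `Z ^ (1+ε) q ^ v`. So the roots of unity of order `q ^ i`, which are contained in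
the group of the roots of unity of order `r`, serve as coefficients `κ` without additional cost.
-/

namespace Pool.Agent.W_420c7c_h29

theorem finald_totient {q i s' : ℕ} (hq : q.Prime) (h2 : ¬ 2 ∣ s') (hqs : ¬ q ∣ s') :
    (q : ℝ) ^ i * Nat.totient s' ≤ 2 * Nat.totient (2 * q ^ i * s') := by
  have hcop : (2 * q ^ i).Coprime s' := by
    apply Nat.Coprime.mul_left
    · exact (Nat.Prime.coprime_iff_not_dvd Nat.prime_two).2 h2
    · exact Nat.Coprime.pow_left _ ((Nat.Prime.coprime_iff_not_dvd hq).2 hqs)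
  rw [Nat.totient_mul hcop]
  have h1 : q ^ i ≤ 2 * Nat.totient (2 * q ^ i) := by
    rcases hq.eq_two_or_odd' with h | hodd
    · subst h
      rw [← pow_succ', Nat.totient_prime_pow_succ Nat.prime_two]
      simp only [Nat.add_one_sub_one, mul_one]
      have : 0 < 2 ^ i := by positivity
      omega
    · have hc : Nat.Coprime 2 (q ^ i) := (Nat.coprime_two_left.2 hodd).pow_right i
      rw [Nat.totient_mul hc, Nat.totient_two, one_mul]
      rcases Nat.eq_zero_or_pos i with hi | hi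
      · subst hi
        simp
      · rw [Nat.totient_prime_pow hq hi]
        obtain ⟨k, rfl⟩ : ∃ k, i = k + 1 := ⟨i - 1, by omega⟩
        simp only [Nat.add_one_sub_one]
        have h3 : 2 ≤ q := hq.two_le
        have h4 : q ≤ 2 * (q - 1) := by omega
        calc q ^ (k + 1) = q ^ k * q := pow_succ _ _
          _ ≤ q ^ k * (2 * (q - 1)) := Nat.mul_le_mul_left _ h4
          _ = 2 * (q ^ k * (q - 1)) := by ring
  have h5 : q ^ i * Nat.totient s' ≤ 2 * (Nat.totient (2 * q ^ i) * Nat.totient s') := by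
    calc q ^ i * Nat.totient s' ≤ 2 * Nat.totient (2 * q ^ i) * Nat.totient s' :=
          Nat.mul_le_mul_right _ h1
      _ = _ := by ring
  exact_mod_cast h5

/-- `x ^ M ≡ 1` modulo `2 q ^ i s'` -/
theorem finald_modEq {q i s' M₀ x : ℕ} (hq : q.Prime) (h2 : ¬ 2 ∣ s') (hqs : ¬ q ∣ s')
    (h1 : x ^ (q * (q - 1)) ≡ 1 [MOD 2 * q ^ i]) (h3 : x ^ M₀ ≡ 1 [MOD s']) :
    x ^ (M₀ * (q * (q - 1))) ≡ 1 [MOD 2 * q ^ i * s'] := by
  have hcop : (2 * q ^ i).Coprime s' := by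
    apply Nat.Coprime.mul_left
    · exact (Nat.Prime.coprime_iff_not_dvd Nat.prime_two).2 h2
    · exact Nat.Coprime.pow_left _ ((Nat.Prime.coprime_iff_not_dvd hq).2 hqs)
  rw [← Nat.modEq_and_modEq_iff_modEq_mul hcop]
  constructor
  · have := h1.pow M₀
    rwa [one_pow, ← pow_mul, mul_comm (q * (q - 1)) M₀] at this
  · have := h3.pow (q * (q - 1))
    rwa [one_pow, ← pow_mul] at this

/-- the numerical estimates -/
theorem finald_num {e Z q M₀ qi τ s' w qv1 r : ℝ} (hZ : 1 ≤ Z) (h5184 : 5184 ≤ Z ^ e) (hq1 : 1 ≤ q) (hqe : q ≤ Z ^ e) (hM1 : 1 ≤ M₀)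
    (hM : M₀ ≤ Z ^ e) (hqi : 1 ≤ qi) (hτ : τ * qi = 18 * (M₀ * q ^ 2) ^ 2 * Z)
    (hs0 : 0 < s') (hs : s' ≤ τ * Z ^ e) (hw : w ≤ 2 * qi * s') (hqv : 0 ≤ qv1)
    (hr : r ≤ q * (4 * w * (qv1 * (M₀ * q ^ 2)))) :
    2 * r * s' ≤ Z ^ (2 + 18 * e) * (qv1 * q / qi) := by
  have hZ0 : 0 < Z := by linarith
  have hqi0 : 0 < qi := by linarith
  have hE : 0 < Z ^ e := Real.rpow_pos_of_pos hZ0 _
  have hM2 : M₀ * q ^ 2 ≤ (Z ^ e) ^ 3 := by
    calc M₀ * q ^ 2 ≤ Z ^ e * (Z ^ e) ^ 2 := by gcongr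
      _ = (Z ^ e) ^ 3 := by ring
  have h1 : qi * s' ≤ 18 * (Z ^ e) ^ 7 * Z := by
    calc qi * s' ≤ qi * (τ * Z ^ e) := by gcongr
      _ = (τ * qi) * Z ^ e := by ring
      _ = 18 * (M₀ * q ^ 2) ^ 2 * Z * Z ^ e := by rw [hτ]
      _ ≤ 18 * ((Z ^ e) ^ 3) ^ 2 * Z * Z ^ e := by gcongr
      _ = 18 * (Z ^ e) ^ 7 * Z := by ring
  have h2 : 2 * r * s' ≤ 8 * (q * (w * (qv1 * (M₀ * q ^ 2)))) * s' := by
    have : 2 * r * s' ≤ 2 * (q * (4 * w * (qv1 * (M₀ * q ^ 2)))) * s' := by gcongr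
    refine this.trans (le_of_eq ?_)
    ring
  have h3 : 8 * (q * (w * (qv1 * (M₀ * q ^ 2)))) * s' ≤
      8 * (q * ((2 * (18 * (Z ^ e) ^ 7 * Z)) * (qv1 * (Z ^ e) ^ 3))) *
        ((18 * (Z ^ e) ^ 7 * Z) / qi) := by
    have h4 : w ≤ 2 * (18 * (Z ^ e) ^ 7 * Z) := by
      refine hw.trans ?_
      linarith
    have h5 : s' ≤ (18 * (Z ^ e) ^ 7 * Z) / qi := by
      rw [le_div_iff₀ hqi0]
      linarith
    gcongr
  refine h2.trans (h3.trans ?_)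
  have h6 : 8 * (q * ((2 * (18 * (Z ^ e) ^ 7 * Z)) * (qv1 * (Z ^ e) ^ 3))) *
        ((18 * (Z ^ e) ^ 7 * Z) / qi) = 5184 * ((Z ^ e) ^ 17 * Z ^ 2) * (qv1 * q / qi) := by
    field_simp
    ring
  rw [h6]
  have h7 : Z ^ (2 + 18 * e) = Z ^ 2 * (Z ^ e) ^ 18 := by
    rw [Real.rpow_add hZ0, ← Real.rpow_natCast (Z ^ e) 18, ← Real.rpow_mul hZ0.le,
      mul_comm e]
    congr 1
    · rw [show (2 : ℝ) = ((2 : ℕ) : ℝ) by norm_num, Real.rpow_natCast]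
  rw [h7]
  have h8 : 5184 * ((Z ^ e) ^ 17 * Z ^ 2) ≤ Z ^ 2 * (Z ^ e) ^ 18 := by
    calc 5184 * ((Z ^ e) ^ 17 * Z ^ 2) ≤ Z ^ e * ((Z ^ e) ^ 17 * Z ^ 2) := by gcongr
      _ = Z ^ 2 * (Z ^ e) ^ 18 := by ring
  gcongr

theorem mainD (ε : ℝ) (hε : 0 < ε) : ∃ δ : ℝ, 0 < δ ∧ ∃ N : ℕ, ∀ n : ℕ, N ≤ n →
    ∀ p : ℕ, p.Prime → p ∣ n → p < n → ∀ q j : ℕ, q.Prime →
      (q : ℝ) ≤ (Real.logb 2 p * Real.logb 2 ((n : ℝ) / p)) ^ δ →
      (¬ p ^ (q * (q - 1)) ≡ 1 [MOD q ^ j] ∨ ¬ (n / p) ^ (q * (q - 1)) ≡ 1 [MOD q ^ j]) →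
    ∃ r : ℕ, 1 ≤ r ∧ (r : ℝ) ≤ (Real.logb 2 p * Real.logb 2 ((n : ℝ) / p)) ^ (1 + ε) *
        max (Real.logb 2 p * Real.logb 2 ((n : ℝ) / p)) ((q : ℝ) ^ j) ∧
      ¬ Cong n r := by
  set e : ℝ := min ε 1 / 100 with he
  have he0 : 0 < e := by positivity
  have he1 : e ≤ ε / 100 := by
    rw [he]
    have := min_le_left ε 1
    linarith
  have he2 : e ≤ 1 / 100 := by
    rw [he]
    have := min_le_right ε 1
    linarith
  obtain ⟨N₁, hN₁⟩ := comp_facts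
  obtain ⟨Z₁, hZ₁⟩ := exists_Ms e he0
  set T : ℝ := max Z₁ (max 3 ((5184 : ℝ) ^ (1 / e))) with hT
  refine ⟨e, he0, max N₁ ⌈(2 : ℝ) ^ (T + 1)⌉₊, fun n hn p hp hpn hlt q j hq hqe hord => ?_⟩
  by_contra hcon
  push Not at hcon
  obtain ⟨m, rfl⟩ := hpn
  have : Fact p.Prime := ⟨hp⟩
  have hp2 : 2 ≤ p := hp.two_le
  have hm2 : 2 ≤ m := by
    by_contra hm
    have : m ≤ 1 := by omega
    have := Nat.mul_le_mul_left p this
    omega
  have hp0 : (0 : ℝ) < p := by positivity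
  have hm0 : (0 : ℝ) < m := by
    have : 0 < m := by omega
    positivity
  have hdiv : (((p * m : ℕ) : ℝ)) / p = m := by
    push_cast
    field_simp
  rw [hdiv] at hcon hqe
  rw [Nat.mul_div_cancel_left m hp.pos] at hord
  set P : ℝ := Real.logb 2 p with hP
  set Q : ℝ := Real.logb 2 m with hQ
  have hP1 : 1 ≤ P := by
    rw [hP, Real.le_logb_iff_rpow_le (by norm_num) hp0, Real.rpow_one]
    exact_mod_cast hp2
  have hQ1 : 1 ≤ Q := by
    rw [hQ, Real.le_logb_iff_rpow_le (by norm_num) hm0, Real.rpow_one]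
    exact_mod_cast hm2
  have hL : Real.logb 2 ((p * m : ℕ) : ℝ) = P + Q := by
    push_cast
    rw [Real.logb_mul hp0.ne' hm0.ne']
  have hLT : T + 1 ≤ P + Q := by
    rw [← hL, Real.le_logb_iff_rpow_le (by norm_num) (by positivity)]
    have h1 : ⌈(2 : ℝ) ^ (T + 1)⌉₊ ≤ p * m := (le_max_right _ _).trans hn
    exact (Nat.le_ceil _).trans (by exact_mod_cast h1)
  set Z : ℝ := P * Q with hZ
  have hLZ : P + Q ≤ Z + 1 := by
    have : 0 ≤ (P - 1) * (Q - 1) := mul_nonneg (by linarith) (by linarith)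
    have h1 : (P - 1) * (Q - 1) = Z - (P + Q) + 1 := by rw [hZ]; ring
    linarith
  have hZT : T ≤ Z := by linarith
  have hT3 : 3 ≤ T := (le_max_left _ _).trans (le_max_right _ _)
  have hT4 : (5184 : ℝ) ^ (1 / e) ≤ T := (le_max_right _ _).trans (le_max_right _ _)
  have hZ3 : 3 ≤ Z := hT3.trans hZT
  have hZ0 : 0 < Z := by linarith
  have hZ1' : 1 ≤ Z := by linarith
  have hmono : ∀ {x y : ℝ}, x ≤ y → Z ^ x ≤ Z ^ y := fun h => Real.rpow_le_rpow_of_exponent_le hZ1' h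
  set E : ℝ := Z ^ e with hE
  have hE0 : 0 < E := Real.rpow_pos_of_pos hZ0 _
  have hEn : ∀ k : ℕ, E ^ k = Z ^ (k * e) := fun k => by
    rw [hE, ← Real.rpow_natCast (Z ^ e) k, ← Real.rpow_mul hZ0.le, mul_comm]
  have hE5 : 5184 ≤ E := by
    have h1 : ((5184 : ℝ) ^ (1 / e)) ^ e ≤ Z ^ e :=
      Real.rpow_le_rpow (by positivity) (hT4.trans hZT) he0.le
    rw [← Real.rpow_mul (by norm_num), one_div, inv_mul_cancel₀ he0.ne', Real.rpow_one] at h1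
    exact h1
  have hE1 : 1 ≤ E := by linarith
  set B : ℝ := Z ^ (1 + ε) * max Z ((q : ℝ) ^ j) with hB
  have hBZ : Z ^ (2 + ε) ≤ B := by
    have h1 : Z ^ (2 + ε) = Z ^ (1 + ε) * Z := by
      rw [show (2 + ε : ℝ) = (1 + ε) + 1 by ring, Real.rpow_add hZ0, Real.rpow_one]
    rw [h1, hB]
    exact mul_le_mul_of_nonneg_left (le_max_left _ _) (by positivity)
  have hBq : Z ^ (1 + ε) * (q : ℝ) ^ j ≤ B := by
    rw [hB]
    exact mul_le_mul_of_nonneg_left (le_max_right _ _) (by positivity)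
  have hBE : Z ^ 2 * E ^ 20 ≤ B := by
    refine le_trans (le_of_eq ?_) ((hmono (show (2 : ℝ) + 20 * e ≤ 2 + ε by linarith)).trans hBZ)
    rw [Real.rpow_add hZ0, hEn]
    congr 1
    · rw [show (2 : ℝ) = ((2 : ℕ) : ℝ) by norm_num, Real.rpow_natCast]
  have hBL : (Real.logb 2 ((p * m : ℕ) : ℝ)) ^ 2 ≤ B := by
    rw [hL]
    refine le_trans ?_ hBE
    have h3 : (P + Q) ^ 2 ≤ (Z + 1) ^ 2 := by
      apply pow_le_pow_left₀ (by linarith) hLZ
    have h4 : (Z + 1) ^ 2 ≤ 4 * Z ^ 2 := by nlinarith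
    have h5 : E ≤ E ^ 20 := le_self_pow₀ hE1 (by norm_num)
    have h6 : 4 * Z ^ 2 ≤ Z ^ 2 * E ^ 20 := by
      have : 4 ≤ E ^ 20 := by linarith
      nlinarith [sq_nonneg Z]
    exact h3.trans (h4.trans h6)
  have hnp : ¬ (p * m).Prime := Nat.not_prime_mul (by omega) (by omega)
  obtain ⟨hsq, hno⟩ := hN₁ (p * m) ((le_max_left _ _).trans hn) B hBL hnp hcon
  have hcop : p.Coprime m := (Nat.squarefree_mul_iff.1 hsq).1
  have hB8 : 2 * (E ^ 8 * Z) ≤ B := by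
    refine le_trans ?_ hBE
    have h5 : E ^ 8 ≤ E ^ 20 := pow_le_pow_right₀ hE1 (by norm_num)
    have h6 : 0 < E ^ 8 := by positivity
    calc 2 * (E ^ 8 * Z) ≤ Z * (E ^ 8 * Z) := by
          apply mul_le_mul_of_nonneg_right (by linarith) (by positivity)
      _ = Z ^ 2 * E ^ 8 := by ring
      _ ≤ Z ^ 2 * E ^ 20 := by gcongr
  have hEB : ∀ x : ℝ, x ≤ E → 2 * x ≤ B := by
    intro x hx
    refine le_trans ?_ hB8
    have h5 : E ≤ E ^ 8 := le_self_pow₀ hE1 (by norm_num)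
    have h6 : E ^ 8 * 1 ≤ E ^ 8 * Z := by gcongr
    linarith
  have hqn : ¬ q ∣ p * m := hno q hq (hEB _ hqe)
  have h2n : ¬ 2 ∣ p * m := hno 2 Nat.prime_two (hEB _ (by push_cast; linarith))
  have hqp : ¬ q ∣ p := fun h => hqn (h.mul_right m)
  have hqm : ¬ q ∣ m := fun h => hqn (h.mul_left p)
  have h2p : ¬ 2 ∣ p := fun h => h2n (h.mul_right m)
  have h2m : ¬ 2 ∣ m := fun h => h2n (h.mul_left p)
  obtain ⟨v, hv1, hvj, hpv, hmv, hord1⟩ := exists_v hq hqm hqp hord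
  obtain ⟨M₀, hM₀, hM₀E, hsel⟩ := hZ₁ Z ((le_max_left _ _).trans hZT)
  have hq1 : (1 : ℝ) ≤ q := by exact_mod_cast hq.one_le
  have hM₀1 : (1 : ℝ) ≤ M₀ := by exact_mod_cast hM₀
  obtain ⟨i₀, hi1, hi2⟩ := exists_k (q := q) (C := ⌈Z⌉₊) hq.two_le
    (Nat.one_le_iff_ne_zero.2 (Nat.ceil_pos.2 hZ0).ne')
  have hi1' : Z ≤ (q : ℝ) ^ i₀ := (Nat.le_ceil Z).trans (by exact_mod_cast hi1)
  have hi2' : (q : ℝ) ^ i₀ ≤ 2 * q * Z := by
    have h1 : ((q ^ i₀ : ℕ) : ℝ) ≤ ((q * ⌈Z⌉₊ : ℕ) : ℝ) := by exact_mod_cast hi2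
    push_cast at h1
    have h2 : (⌈Z⌉₊ : ℝ) < Z + 1 := Nat.ceil_lt_add_one hZ0.le
    nlinarith
  set i : ℕ := min (v - 1) i₀ with hi
  have hiv : i + 1 ≤ v := by
    have := min_le_left (v - 1) i₀
    omega
  have hii₀ : i ≤ i₀ := min_le_right _ _
  have hqi1 : (1 : ℝ) ≤ (q : ℝ) ^ i := one_le_pow₀ hq1
  have hqi0 : (0 : ℝ) < (q : ℝ) ^ i := by positivity
  have hqi2 : (q : ℝ) ^ i ≤ 2 * q * Z := (pow_le_pow_right₀ hq1 hii₀).trans hi2'
  set τ : ℝ := 18 * (M₀ * (q : ℝ) ^ 2) ^ 2 * Z / (q : ℝ) ^ i with hτ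
  have hτq : τ * (q : ℝ) ^ i = 18 * (M₀ * (q : ℝ) ^ 2) ^ 2 * Z := by
    rw [hτ]
    field_simp
  have hM₀q : (q : ℝ) ≤ (M₀ * (q : ℝ) ^ 2) ^ 2 := by
    have h1 : (q : ℝ) ≤ M₀ * (q : ℝ) ^ 2 := by nlinarith
    have h2 : M₀ * (q : ℝ) ^ 2 ≤ (M₀ * (q : ℝ) ^ 2) ^ 2 := le_self_pow₀ (by linarith) (by norm_num)
    linarith
  have hτ1 : 1 ≤ τ := by
    rw [hτ, le_div_iff₀ hqi0, one_mul]
    refine hqi2.trans ?_
    have h1 : q * Z ≤ (M₀ * (q : ℝ) ^ 2) ^ 2 * Z := by gcongr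
    nlinarith
  have hτ2 : τ ≤ 18 * (M₀ * (q : ℝ) ^ 2) ^ 2 * Z := by
    rw [hτ]
    exact div_le_self (by positivity) hqi1
  have hτ3 : τ * q ≤ (M₀ : ℝ) ^ 2 * Z ^ 2 := by
    have h1 : 18 * (q : ℝ) ^ 5 ≤ Z := by
      have h2 : (q : ℝ) ^ 5 ≤ E ^ 5 := pow_le_pow_left₀ (by linarith) hqe 5
      have h3 : 18 * E ^ 5 ≤ E ^ 6 := by
        have : 0 < E ^ 5 := by positivity
        nlinarith
      have h4 : E ^ 6 ≤ Z := by
        rw [hEn]
        calc Z ^ (((6 : ℕ) : ℝ) * e) ≤ Z ^ (1 : ℝ) := hmono (by push_cast; linarith)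
          _ = Z := Real.rpow_one Z
      linarith
    calc τ * q ≤ 18 * (M₀ * (q : ℝ) ^ 2) ^ 2 * Z * q := by gcongr
      _ = (M₀ : ℝ) ^ 2 * Z * (18 * (q : ℝ) ^ 5) := by ring
      _ ≤ (M₀ : ℝ) ^ 2 * Z * Z := by gcongr
      _ = (M₀ : ℝ) ^ 2 * Z ^ 2 := by ring
  obtain ⟨s', hs', h2s', hqs', hpow, hphi, hs'τ⟩ := hsel q hq τ hτ1 hτ3
  have hs'E : (s' : ℝ) ≤ E ^ 8 * Z := by
    calc (s' : ℝ) ≤ τ * E := hs'τ
      _ ≤ 18 * (M₀ * (q : ℝ) ^ 2) ^ 2 * Z * E := by gcongr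
      _ ≤ 18 * (E * E ^ 2) ^ 2 * Z * E := by gcongr
      _ = 18 * (E ^ 7 * Z) := by ring
      _ ≤ E * (E ^ 7 * Z) := by
          apply mul_le_mul_of_nonneg_right (by linarith) (by positivity)
      _ = E ^ 8 * Z := by ring
  set s : ℕ := 2 * q ^ i * s' with hs
  have hs0 : 0 < s := Nat.mul_pos (Nat.mul_pos (by norm_num) (pow_pos hq.pos _)) hs'
  have hs2 : Even s := by
    rw [hs, mul_assoc]
    exact even_two_mul _
  have hsn : ∀ l : ℕ, l.Prime → l ∣ s → ¬ l ∣ p * m := by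
    intro l hl hls
    rcases (Nat.Prime.dvd_mul hl).1 hls with h | h
    · rcases (Nat.Prime.dvd_mul hl).1 h with h | h
      · rw [(Nat.prime_dvd_prime_iff_eq hl Nat.prime_two).1 h]
        exact h2n
      · rw [(Nat.prime_dvd_prime_iff_eq hl hq).1 (hl.dvd_of_dvd_pow h)]
        exact hqn
    · apply hno l hl
      have h1 : (l : ℝ) ≤ s' := by exact_mod_cast Nat.le_of_dvd hs' h
      linarith
  have hps : p.Coprime s := final_coprime fun q hq hqs hqp => hsn q hq hqs (hqp.mul_right m)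
  have hms : m.Coprime s := final_coprime fun q hq hqs hqp => hsn q hq hqs (hqp.mul_left p)
  have hps' : p.Coprime s' := hps.coprime_dvd_right (Dvd.intro_left _ rfl)
  have hms' : m.Coprime s' := hms.coprime_dvd_right (Dvd.intro_left _ rfl)
  set M : ℕ := M₀ * (q * (q - 1)) with hM
  have hq1' : 0 < q - 1 := by
    have := hq.two_le
    omega
  have hM0 : 0 < M := Nat.mul_pos hM₀ (Nat.mul_pos hq.pos hq1')
  have hMpow : ∀ x : ℕ, ¬ 2 ∣ x → x.Coprime s' → x ^ (q * (q - 1)) ≡ 1 [MOD q ^ v] →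
      x ^ M ≡ 1 [MOD s] := fun x h1 h2 h3 =>
    finald_modEq hq h2s' hqs' (pow_modEq_two_mul hq h1 h3 hiv) (hpow x h2)
  have hMR : (M : ℝ) ≤ M₀ * (q : ℝ) ^ 2 := by
    have h1 : M ≤ M₀ * q ^ 2 := by
      rw [hM, sq]
      exact Nat.mul_le_mul_left _ (Nat.mul_le_mul_left _ (Nat.sub_le _ _))
    exact_mod_cast h1
  have hphis : 9 * (M : ℝ) ^ 2 * Z < Nat.totient s := by
    have h1 := finald_totient (i := i) hq h2s' hqs'
    rw [← hs] at h1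
    have h2 : (q : ℝ) ^ i * τ < (q : ℝ) ^ i * Nat.totient s' := by gcongr
    have h3 : (M : ℝ) ^ 2 ≤ (M₀ * (q : ℝ) ^ 2) ^ 2 := by gcongr
    have h4 : 9 * (M : ℝ) ^ 2 * Z ≤ 9 * (M₀ * (q : ℝ) ^ 2) ^ 2 * Z := by gcongr
    have h5 : (q : ℝ) ^ i * τ = 2 * (9 * (M₀ * (q : ℝ) ^ 2) ^ 2 * Z) := by
      rw [mul_comm, hτq]; ring
    linarith
  have hw0 : 0 < Nat.totient s := Nat.totient_pos.2 hs0
  have hqvM : 0 < q ^ (v + 1) * M := Nat.mul_pos (pow_pos hq.pos _) hM0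
  obtain ⟨k, hk1, hk2⟩ := exists_k (q := q) (C := 4 * Nat.totient s * (q ^ (v + 1) * M)) hq.two_le
    (Nat.mul_pos (Nat.mul_pos (by norm_num) hw0) hqvM)
  have hcard := ncard_primePow2 (q := q) (j := v + 1) (k := k) (M := M) (m := m) (p := p) hq hM0
    hqm hqp hord1
  have hik : i ≤ k := by
    have h1 : q ^ (v + 1) ≤ q ^ k := by
      calc q ^ (v + 1) = 1 * (q ^ (v + 1) * 1) := by ring
        _ ≤ 4 * Nat.totient s * (q ^ (v + 1) * M) :=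
            Nat.mul_le_mul (by omega) (Nat.mul_le_mul_left _ hM0)
        _ ≤ q ^ k := hk1
    have h2 := (Nat.pow_le_pow_iff_right hq.one_lt).1 h1
    omega
  set r : ℕ := q ^ k with hr
  have hr0 : 0 < r := pow_pos hq.pos _
  have hcls : 4 * Nat.totient s ≤ (cls r (m ^ M) (p ^ M)).ncard := by
    have h1 : 4 * Nat.totient s * (q ^ (v + 1) * M) ≤
        (cls r (m ^ M) (p ^ M)).ncard * (q ^ (v + 1) * M) := by
      refine (hk1.trans hcard).trans (le_of_eq ?_)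
      ring
    exact Nat.le_of_mul_le_mul_right h1 hqvM
  set R : ℕ := 2 * r * s' with hR
  have hR0 : 0 < R := Nat.mul_pos (Nat.mul_pos (by norm_num) hr0) hs'
  have hrR : r ∣ R := ⟨2 * s', by rw [hR]; ring⟩
  have hsR : s ∣ R := by
    rw [hs, hR]
    exact Nat.mul_dvd_mul (Nat.mul_dvd_mul_left _ (pow_dvd_pow q hik)) (dvd_refl s')
  have hnum : 2 * (r : ℝ) * s' ≤ Z ^ (2 + 18 * e) * ((q : ℝ) ^ (v + 1) * q / (q : ℝ) ^ i) := by
    refine finald_num (M₀ := M₀) (τ := τ) (w := Nat.totient s) hZ1' hE5 hq1 hqe hM₀1 hM₀E hqi1 hτq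
      (by exact_mod_cast hs') hs'τ ?_ (by positivity) ?_
    · have h1 : (Nat.totient s : ℝ) ≤ s := by exact_mod_cast Nat.totient_le s
      refine h1.trans (le_of_eq ?_)
      rw [hs]
      push_cast
      ring
    · have h1 : (r : ℝ) ≤ q * (4 * Nat.totient s * (q ^ (v + 1) * M)) := by exact_mod_cast hk2
      refine h1.trans ?_
      gcongr
  have hRB : (R : ℝ) ≤ B := by
    have h1 : (R : ℝ) = 2 * (r : ℝ) * s' := by
      rw [hR]
      push_cast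
      ring
    rw [h1]
    refine hnum.trans ?_
    have hE18 : Z ^ (2 + 18 * e) = Z ^ 2 * E ^ 18 := by
      rw [Real.rpow_add hZ0, hEn]
      congr 1
      · rw [show (2 : ℝ) = ((2 : ℕ) : ℝ) by norm_num, Real.rpow_natCast]
    rcases le_total (v - 1) i₀ with hvi | hvi
    · have hi' : i = v - 1 := min_eq_left hvi
      have h2 : (q : ℝ) ^ (v + 1) * q / (q : ℝ) ^ i = (q : ℝ) ^ 3 := by
        rw [div_eq_iff hqi0.ne', hi', ← pow_succ, ← pow_add]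
        congr 1
        omega
      rw [h2, hE18]
      have h3 : (q : ℝ) ^ 3 ≤ E ^ 3 := by gcongr
      have h4 : Z ^ 2 * E ^ 18 * (q : ℝ) ^ 3 ≤ Z ^ 2 * E ^ 21 := by
        calc Z ^ 2 * E ^ 18 * (q : ℝ) ^ 3 ≤ Z ^ 2 * E ^ 18 * E ^ 3 := by gcongr
          _ = Z ^ 2 * E ^ 21 := by ring
      refine h4.trans ?_
      refine le_trans (le_of_eq ?_) ((hmono (show (2 : ℝ) + 21 * e ≤ 2 + ε by linarith)).trans hBZ)
      rw [Real.rpow_add hZ0, hEn]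
      congr 1
      · rw [show (2 : ℝ) = ((2 : ℕ) : ℝ) by norm_num, Real.rpow_natCast]
    · have hi' : i = i₀ := min_eq_right hvi
      have h2 : (q : ℝ) ^ (v + 1) * q / (q : ℝ) ^ i ≤ (q : ℝ) ^ j * E ^ 2 / Z := by
        rw [hi']
        have h3 : (q : ℝ) ^ (v + 1) * q = (q : ℝ) ^ v * (q : ℝ) ^ 2 := by ring
        rw [h3]
        have h4 : (q : ℝ) ^ v ≤ (q : ℝ) ^ j := pow_le_pow_right₀ hq1 hvj.le
        gcongr
      refine le_trans ?_ hBq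
      calc Z ^ (2 + 18 * e) * ((q : ℝ) ^ (v + 1) * q / (q : ℝ) ^ i)
          ≤ Z ^ 2 * E ^ 18 * ((q : ℝ) ^ j * E ^ 2 / Z) := by
            rw [hE18]
            gcongr
        _ = Z * E ^ 20 * (q : ℝ) ^ j := by
            field_simp
        _ ≤ Z ^ (1 + ε) * (q : ℝ) ^ j := by
            apply mul_le_mul_of_nonneg_right _ (by positivity)
            rw [Real.rpow_add hZ0, Real.rpow_one, hEn]
            apply mul_le_mul_of_nonneg_left _ hZ0.le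
            apply hmono
            push_cast
            linarith
  have h2r : 2 * (r : ℝ) ≤ B := by
    refine le_trans ?_ hRB
    have h1 : 2 * r ≤ R := by
      rw [hR]
      exact Nat.le_mul_of_pos_right _ hs'
    exact_mod_cast h1
  have hpB : B < 2 * (p : ℝ) := by
    by_contra h
    push Not at h
    exact hno p hp h (dvd_mul_right p m)
  have hrp' : r < p := by
    have : (r : ℝ) < p := by linarith
    exact_mod_cast this
  have hpr : p.Coprime r := by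
    rw [hr]
    apply Nat.Coprime.pow_right
    rw [Nat.coprime_primes hp hq]
    rintro rfl
    exact hqn (dvd_mul_right _ _)
  have hCong : Cong (p * m) R := hcon R hR0 hRB
  refine coreR (p := p) (m := m) (M := M) (r := r) (s := s) (R := R) hm2 hcop hr0 hs0 hrR hsR hs2
    hps hpr hM0 (hMpow m h2m hms' hmv) (hMpow p h2p hps' hpv)
    (fun z hz => hint_of_cong (dvd_mul_right p m) hCong hz) ?_ hcls ?_
  · intro j hj1 hj2
    have h1 : j ≤ r := hj2.trans (Nat.sqrt_le_self r)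
    exact (Nat.Prime.coprime_iff_not_dvd hp).2 (Nat.not_dvd_of_pos_of_lt (by omega) (by omega))
  · exact hphis

end Pool.Agent.W_420c7c_h29
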