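import Pool.Agent.W_420c7c_h29.FinalD

/-!
# Consequences of `mainD` in terms of `n`
-/

namespace Pool.Agent.W_420c7c_h29

theorem finale_prod (l : List ℕ) (h : ∀ x ∈ l, x % 8 = 1 ∨ x % 8 = 7) :
    l.prod % 8 = 1 ∨ l.prod % 8 = 7 := by
  induction l with
  | nil => simp
  | cons a l ih =>
    rw [List.prod_cons, Nat.mul_mod]
    have h1 := ih fun x hx => h x (List.mem_cons_of_mem _ hx)
    have h2 := h a List.mem_cons_self
    rcases h1 with h1 | h1 <;> rcases h2 with h2 | h2 <;> rw [h1, h2] <;> simp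

theorem finale_factor {n : ℕ} (hn : n % 8 = 3 ∨ n % 8 = 5) :
    ∃ p : ℕ, p.Prime ∧ p ∣ n ∧ (p % 8 = 3 ∨ p % 8 = 5) := by
  by_contra hcon
  push Not at hcon
  have hn0 : n ≠ 0 := by
    rintro rfl
    simp at hn
  have h1 : ∀ x ∈ n.primeFactorsList, x % 8 = 1 ∨ x % 8 = 7 := by
    intro x hx
    have hxp := Nat.prime_of_mem_primeFactorsList hx
    have hxn := Nat.dvd_of_mem_primeFactorsList hx
    have h2 := hcon x hxp hxn
    have h3 : x % 2 = 1 := by
      obtain ⟨y, rfl⟩ := hxn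
      by_contra h
      have h4 : x % 2 = 0 := by omega
      have h5 : x * y % 2 = 0 := by
        rw [Nat.mul_mod, h4]
        simp
      omega
    omega
  have h2 := finale_prod _ h1
  rw [Nat.prod_primeFactorsList hn0] at h2
  omega

theorem mainD' (c : ℝ) (hc : 4 < c) : ∃ δ : ℝ, 0 < δ ∧ ∃ N : ℕ, ∀ n : ℕ, N ≤ n →
    ∀ p q j : ℕ, p.Prime → p ∣ n → q.Prime → (q : ℝ) ≤ (Real.logb 2 n) ^ δ →
      (q : ℝ) ^ j ≤ (Real.logb 2 n) ^ 2 → ¬ p ^ (q * (q - 1)) ≡ 1 [MOD q ^ j] →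
    (n.Prime ↔ ∀ r : ℕ, 1 ≤ r → (r : ℝ) ≤ (Real.logb 2 n) ^ c → Cong n r) := by
  obtain ⟨δ, hδ, N, hN⟩ := mainD ((c - 4) / 2) (by linarith)
  refine ⟨δ / 2, by linarith, max N 16, fun n hn p q j hp hpn hq hqδ hqj hord =>
    ⟨fun hp r _ _ => ?_, fun h => ?_⟩⟩
  · have : Fact n.Prime := ⟨hp⟩
    unfold Cong
    rw [add_pow_char, one_pow, sub_self]
    exact dvd_zero _
  · by_contra hnp
    have hn16 : 16 ≤ n := (le_max_right _ _).trans hn
    have hlt : p < n := by
      rcases (Nat.le_of_dvd (by omega) hpn).lt_or_eq with h | h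
      · exact h
      · exact absurd (h ▸ hp) hnp
    have hn0 : (0 : ℝ) < n := by positivity
    have hp2 : (2 : ℝ) ≤ p := by exact_mod_cast hp.two_le
    set P : ℝ := Real.logb 2 p with hP
    set Q : ℝ := Real.logb 2 ((n : ℝ) / p) with hQ
    set L : ℝ := Real.logb 2 n with hL
    have hP1 : 1 ≤ P := by
      rw [hP, Real.le_logb_iff_rpow_le (by norm_num) (by linarith), Real.rpow_one]
      exact hp2
    have hq2 : (2 : ℝ) ≤ (n : ℝ) / p := by
      rw [le_div_iff₀ (by linarith)]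
      obtain ⟨m, hm⟩ := hpn
      have hm2 : 2 ≤ m := by
        by_contra hm'
        have : m ≤ 1 := by omega
        have := Nat.mul_le_mul_left p this
        omega
      have h1 : 2 * p ≤ n := by
        calc 2 * p ≤ m * p := Nat.mul_le_mul_right _ hm2
          _ = n := by rw [mul_comm, ← hm]
      exact_mod_cast h1
    have hQ1 : 1 ≤ Q := by
      rw [hQ, Real.le_logb_iff_rpow_le (by norm_num) (by linarith), Real.rpow_one]
      exact hq2
    have hPQ : P + Q = L := by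
      rw [hP, hQ, hL, Real.logb_div hn0.ne' (by linarith)]
      ring
    have hL4 : 4 ≤ L := by
      rw [hL, Real.le_logb_iff_rpow_le (by norm_num) hn0]
      have : (2 : ℝ) ^ (4 : ℝ) = 16 := by
        rw [show (4 : ℝ) = ((4 : ℕ) : ℝ) by norm_num, Real.rpow_natCast]
        norm_num
      rw [this]
      exact_mod_cast hn16
    have hL0 : 0 ≤ L := by linarith
    have hL1 : 1 ≤ L := by linarith
    have hZL : L ≤ (P * Q) ^ 2 := by
      have h0 : 0 ≤ (P - 1) * (Q - 1) := mul_nonneg (by linarith) (by linarith)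
      have h1 : L - 1 ≤ P * Q := by nlinarith
      have h2 : (L - 1) ^ 2 ≤ (P * Q) ^ 2 := pow_le_pow_left₀ (by linarith) h1 2
      nlinarith
    have hZδ : L ^ (δ / 2) ≤ (P * Q) ^ δ := by
      have h1 := Real.rpow_le_rpow hL0 hZL (show (0 : ℝ) ≤ δ / 2 by linarith)
      refine h1.trans (le_of_eq ?_)
      rw [← Real.rpow_natCast, ← Real.rpow_mul (by positivity)]
      congr 1
      push_cast
      ring
    obtain ⟨r, hr1, hr2, hr3⟩ := hN n ((le_max_left _ _).trans hn) p hp hpn hlt q j hq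
      (hqδ.trans hZδ) (Or.inl hord)
    apply hr3
    apply h r hr1
    refine hr2.trans ?_
    have hPL : P ≤ L := by linarith
    have hQL : Q ≤ L := by linarith
    have h1 : P * Q ≤ L ^ 2 := by
      rw [sq]
      exact mul_le_mul hPL hQL (by linarith) hL0
    have h2 := Real.rpow_le_rpow (by positivity) h1 (show (0 : ℝ) ≤ 1 + (c - 4) / 2 by linarith)
    have h3 : max (P * Q) ((q : ℝ) ^ j) ≤ L ^ 2 := max_le h1 hqj
    calc (P * Q) ^ (1 + (c - 4) / 2) * max (P * Q) ((q : ℝ) ^ j)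
        ≤ (L ^ 2) ^ (1 + (c - 4) / 2) * L ^ 2 := by
          apply mul_le_mul h2 h3 _ (by positivity)
          exact le_max_of_le_left (by positivity)
      _ = L ^ c := by
          rw [← Real.rpow_natCast, ← Real.rpow_mul hL0, ← Real.rpow_add (by linarith)]
          congr 1
          push_cast
          ring

theorem mainD8 (c : ℝ) (hc : 4 < c) : ∃ N : ℕ, ∀ n : ℕ, N ≤ n →
    (n % 8 = 3 ∨ n % 8 = 5 ∨ ∃ p : ℕ, p.Prime ∧ p ∣ n ∧ (p % 8 = 3 ∨ p % 8 = 5)) →
    (n.Prime ↔ ∀ r : ℕ, 1 ≤ r → (r : ℝ) ≤ (Real.logb 2 n) ^ c → Cong n r) := by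
  obtain ⟨δ, hδ, N, hN⟩ := mainD' c hc
  refine ⟨max N (max 16 ⌈(2 : ℝ) ^ ((2 : ℝ) ^ (1 / δ))⌉₊), fun n hn h8 => ?_⟩
  have hp : ∃ p : ℕ, p.Prime ∧ p ∣ n ∧ (p % 8 = 3 ∨ p % 8 = 5) := by
    rcases h8 with h | h | h
    · exact finale_factor (Or.inl h)
    · exact finale_factor (Or.inr h)
    · exact h
  obtain ⟨p, hp, hpn, hp8⟩ := hp
  have hn16 : 16 ≤ n := (le_max_left _ _).trans ((le_max_right _ _).trans hn)
  have hn0 : (0 : ℝ) < n := by positivity
  have hL4 : 4 ≤ Real.logb 2 n := by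
    rw [Real.le_logb_iff_rpow_le (by norm_num) hn0]
    have : (2 : ℝ) ^ (4 : ℝ) = 16 := by
      rw [show (4 : ℝ) = ((4 : ℕ) : ℝ) by norm_num, Real.rpow_natCast]
      norm_num
    rw [this]
    exact_mod_cast hn16
  refine hN n ((le_max_left _ _).trans hn) p 2 4 hp hpn Nat.prime_two ?_ ?_ ?_
  · have h1 : (2 : ℝ) ^ ((2 : ℝ) ^ (1 / δ)) ≤ n := by
      refine (Nat.le_ceil _).trans ?_
      exact_mod_cast (le_max_right _ _).trans ((le_max_right _ _).trans hn)
    have h2 : (2 : ℝ) ^ (1 / δ) ≤ Real.logb 2 n := by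
      rw [Real.le_logb_iff_rpow_le (by norm_num) hn0]
      exact h1
    have h3 := Real.rpow_le_rpow (by positivity) h2 hδ.le
    rw [← Real.rpow_mul (by norm_num), one_div, inv_mul_cancel₀ hδ.ne', Real.rpow_one] at h3
    exact_mod_cast h3
  · push_cast
    nlinarith
  · intro h
    have h1 : p ^ 2 % 16 = 1 := h
    rw [Nat.pow_mod] at h1
    have h2 : p % 16 < 16 := Nat.mod_lt _ (by norm_num)
    have h3 : p % 16 % 8 = 3 ∨ p % 16 % 8 = 5 := by omega
    generalize p % 16 = x at h1 h2 h3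
    interval_cases x <;> simp_all

end Pool.Agent.W_420c7c_h29
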