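import Pool.Agent.W_420c7c_h29.Bad

/-!
# Many good primes

Let `x = K y`. The number of primes `q ≤ x` is at least `(x log 2 - log (x+1)) / log x`
(`Chebyshev.pi_ge`), the number of bad ones is at most `y / (20 log y) * ...` by `bad_count` with a small
`δ` (for instance `δ = K / 20`; note `log y ≥ log x / 2` for `y ≥ K`, so it is at most
`(K y / 10) / log x`). So for large `y` there are at least `x / (2 log x)` good primes
(`log 2 > 0.69`). At most `√x + 1` of them have `q - 1 < √x`, the others contribute at least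
`log √x = (log x) / 2` each, so the sum is at least
`(x / (2 log x) - √x - 1) * (log x) / 2 ≥ x / 8` for large `x`. (All terms are `≥ 0`.)
-/

namespace Pool.Agent.W_420c7c_h29

theorem sum_log_good (K : ℕ) (hK : 1 ≤ K) : ∃ y₀ : ℕ, ∀ y : ℕ, y₀ ≤ y →
    ((K : ℝ) * y) / 8 ≤ ∑ q ∈ good K y, Real.log ((q : ℝ) - 1) := by
  classical
  have hK0 : (0 : ℝ) < K := by exact_mod_cast hK
  obtain ⟨y₁, hbad⟩ := bad_count K ((K : ℝ) / 20) (by positivity)
  have hasy : ∃ x₁ : ℕ, ∀ x : ℕ, x₁ ≤ x → Real.log ((x : ℝ) + 1) ≤ 0.09 * x ∧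
      (√(x : ℝ) + 2) * Real.log x ≤ x / 4 ∧ 1 ≤ Real.log x := by
    have e1 : ∀ᶠ x : ℝ in Filter.atTop, Real.log x ≤ 0.04 * x := by
      have h1 := (Real.isLittleO_log_id_atTop).bound (c := 0.04) (by norm_num)
      filter_upwards [h1, Filter.eventually_ge_atTop (0 : ℝ)] with y hy hy0
      rw [Real.norm_eq_abs, Real.norm_eq_abs, id_eq, abs_of_nonneg hy0] at hy
      exact (le_abs_self _).trans hy
    have e2 : ∀ᶠ x : ℝ in Filter.atTop, Real.log x ≤ 1 / 16 * √x := by
      have h1 := (isLittleO_log_rpow_atTop (r := 1 / 2) (by norm_num)).bound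
        (c := 1 / 16) (by norm_num)
      filter_upwards [h1, Filter.eventually_ge_atTop (0 : ℝ)] with y hy hy0
      rw [Real.norm_eq_abs, Real.norm_of_nonneg (by positivity), ← Real.sqrt_eq_rpow] at hy
      exact (le_abs_self _).trans hy
    have e3 : ∀ᶠ x : ℝ in Filter.atTop, 1 ≤ Real.log x :=
      Real.tendsto_log_atTop.eventually_ge_atTop 1
    have e : ∀ᶠ x : ℝ in Filter.atTop, Real.log (x + 1) ≤ 0.09 * x ∧
        (√x + 2) * Real.log x ≤ x / 4 ∧ 1 ≤ Real.log x := by
      filter_upwards [e1, e2, e3, Filter.eventually_ge_atTop (20 : ℝ)] with x h1 h2 h3 h4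
      refine ⟨?_, ?_, h3⟩
      · have h5 : Real.log (x + 1) ≤ Real.log (2 * x) :=
          Real.log_le_log (by linarith) (by linarith)
        rw [Real.log_mul (by norm_num) (by linarith)] at h5
        have h6 := Real.log_two_lt_d9
        linarith
      · have h5 : √x * √x = x := Real.mul_self_sqrt (by linarith)
        have h6 : 2 ≤ √x := by
          rw [show (2 : ℝ) = √4 by
            rw [show (4 : ℝ) = 2 ^ 2 by norm_num, Real.sqrt_sq (by norm_num)]]
          exact Real.sqrt_le_sqrt (by linarith)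
        calc (√x + 2) * Real.log x ≤ (√x + √x) * (1 / 16 * √x) :=
              mul_le_mul (by linarith) h2 (by linarith) (by linarith)
          _ = 1 / 8 * (√x * √x) := by ring
          _ ≤ x / 4 := by rw [h5]; linarith
    exact Filter.eventually_atTop.1 (tendsto_natCast_atTop_atTop.eventually e)
  obtain ⟨x₁, hx₁⟩ := hasy
  have hlogy : ∃ y₂ : ℕ, ∀ y : ℕ, y₂ ≤ y → 1 ≤ Real.log (y : ℝ) := by
    have e3 : ∀ᶠ x : ℝ in Filter.atTop, 1 ≤ Real.log x :=
      Real.tendsto_log_atTop.eventually_ge_atTop 1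
    exact Filter.eventually_atTop.1 (tendsto_natCast_atTop_atTop.eventually e3)
  obtain ⟨y₂, hy₂⟩ := hlogy
  refine ⟨max (max y₁ y₂) (max x₁ (max K 1)), fun y hy => ?_⟩
  have hy1 : y₁ ≤ y := (le_max_left _ _).trans ((le_max_left _ _).trans hy)
  have hy2 : y₂ ≤ y := (le_max_right _ _).trans ((le_max_left _ _).trans hy)
  have hyx : x₁ ≤ y := (le_max_left _ _).trans ((le_max_right _ _).trans hy)
  have hyK : K ≤ y := (le_max_left _ _).trans
    ((le_max_right _ _).trans ((le_max_right _ _).trans hy))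
  have hyo : 1 ≤ y := (le_max_right _ _).trans
    ((le_max_right _ _).trans ((le_max_right _ _).trans hy))
  have hyr : (1 : ℝ) ≤ y := by exact_mod_cast hyo
  have hKyr : (K : ℝ) ≤ y := by exact_mod_cast hyK
  have hB := hbad y hy1
  have hly := hy₂ y hy2
  have hyKy : y ≤ K * y := Nat.le_mul_of_pos_left y hK
  obtain ⟨h1, h2, h3⟩ := hx₁ (K * y) (hyx.trans hyKy)
  have hpi := Chebyshev.pi_ge (K * y)
  have hprime : ((Nat.primeCounting (K * y) : ℕ) : ℝ) ≤ ((good K y).card : ℝ) +
      (((Finset.range (K * y + 1)).filter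
        fun q => q.Prime ∧ ¬ (q - 1) ∣ Nat.lcmUpto y).card : ℝ) := by
    have h4 : Nat.primeCounting (K * y) = ((Finset.range (K * y + 1)).filter Nat.Prime).card := by
      unfold Nat.primeCounting Nat.primeCounting'
      rw [Nat.count_eq_card_filter_range]
    have h5 : ((Finset.range (K * y + 1)).filter Nat.Prime) ⊆ good K y ∪
        ((Finset.range (K * y + 1)).filter fun q => q.Prime ∧ ¬ (q - 1) ∣ Nat.lcmUpto y) := by
      intro q hq
      rw [Finset.mem_filter] at hq
      rw [Finset.mem_union]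
      unfold good
      rw [Finset.mem_filter, Finset.mem_filter]
      by_cases hd : (q - 1) ∣ Nat.lcmUpto y
      · exact Or.inl ⟨hq.1, hq.2, hd⟩
      · exact Or.inr ⟨hq.1, hq.2, hd⟩
    have h6 := (Finset.card_le_card h5).trans (Finset.card_union_le _ _)
    rw [h4]
    exact_mod_cast h6
  have hgoodm : ∀ q ∈ good K y, (1 : ℝ) ≤ (q : ℝ) - 1 := by
    intro q hq
    unfold good at hq
    rw [Finset.mem_filter] at hq
    have : (2 : ℝ) ≤ q := by exact_mod_cast hq.2.1.two_le
    linarith
  push_cast at hpi h1 h2 h3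
  generalize hx : (K : ℝ) * y = x at *
  have hK1r : (1 : ℝ) ≤ K := by exact_mod_cast hK
  have hx0 : 1 ≤ x := by
    rw [← hx]
    nlinarith
  have hlx : 0 < Real.log x := by linarith
  have hlogx : Real.log x ≤ 2 * Real.log y := by
    rw [← hx, Real.log_mul hK0.ne' (by linarith)]
    have := Real.log_le_log hK0 hKyr
    linarith
  -- the number of good primes
  have hG : x / 2 ≤ ((good K y).card : ℝ) * Real.log x := by
    have h4 : (((Finset.range (K * y + 1)).filter
        fun q => q.Prime ∧ ¬ (q - 1) ∣ Nat.lcmUpto y).card : ℝ) * Real.log x ≤ x / 10 := by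
      have h5 : (K : ℝ) / 20 * y / Real.log y * Real.log x ≤ x / 10 := by
        rw [div_mul_eq_mul_div, div_le_iff₀ (by linarith)]
        have h6 : (K : ℝ) / 20 * y = x / 20 := by rw [← hx]; ring
        rw [h6]
        have h7 : x / 20 * Real.log x ≤ x / 20 * (2 * Real.log y) :=
          mul_le_mul_of_nonneg_left hlogx (by linarith)
        linarith
      exact (mul_le_mul_of_nonneg_right hB hlx.le).trans h5
    rw [div_le_iff₀ hlx] at hpi
    have h5 := mul_le_mul_of_nonneg_right hprime hlx.le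
    have h6 := Real.log_two_gt_d9
    nlinarith
  -- the large good primes
  set G1 : Finset ℕ := (good K y).filter (fun q : ℕ => √x ≤ (q : ℝ) - 1) with hG1
  have hG1c : ((good K y).card : ℝ) ≤ (G1.card : ℝ) + (√x + 2) := by
    have h4 : good K y ⊆ G1 ∪ Finset.range ⌈√x + 1⌉₊ := by
      intro q hq
      rw [Finset.mem_union]
      by_cases h : √x ≤ (q : ℝ) - 1
      · left
        rw [hG1, Finset.mem_filter]
        exact ⟨hq, h⟩
      · right
        rw [Finset.mem_range, Nat.lt_ceil]
        push Not at h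
        linarith
    have h5 := (Finset.card_le_card h4).trans (Finset.card_union_le _ _)
    rw [Finset.card_range] at h5
    have h6 : ((good K y).card : ℝ) ≤ (G1.card : ℝ) + (⌈√x + 1⌉₊ : ℝ) := by exact_mod_cast h5
    have h7 : (⌈√x + 1⌉₊ : ℝ) < √x + 1 + 1 := Nat.ceil_lt_add_one (by positivity)
    linarith
  have hsum1 : ∑ q ∈ G1, Real.log ((q : ℝ) - 1) ≤ ∑ q ∈ good K y, Real.log ((q : ℝ) - 1) :=
    Finset.sum_le_sum_of_subset_of_nonneg (Finset.filter_subset _ _)
      (fun q hq _ => Real.log_nonneg (hgoodm q hq))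
  have hsum2 : (G1.card : ℝ) * (Real.log x / 2) ≤ ∑ q ∈ G1, Real.log ((q : ℝ) - 1) := by
    rw [← nsmul_eq_mul]
    refine Finset.card_nsmul_le_sum _ _ _ fun q hq => ?_
    rw [hG1, Finset.mem_filter] at hq
    rw [← Real.log_sqrt (by linarith)]
    exact Real.log_le_log (Real.sqrt_pos.2 (by linarith)) hq.2
  have h4 := mul_le_mul_of_nonneg_right hG1c (show 0 ≤ Real.log x / 2 by linarith)
  nlinarith

end Pool.Agent.W_420c7c_h29
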