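import Pool.Agent.W_420c7c_h29.Roots

/-!
# Different sets give different products

* `PS_inj`. Suppose `S ≠ S'`. Cancel the common factors (`1 - κ X ^ j ≠ 0`, `F[X]` is a domain,
  `S = (S ∩ S') ∪ (S \ S')`): `PS (S \ S') = PS (S' \ S)`. Choose `(κ, j)` in the nonempty symmetric
  difference with `j` maximal, say in `S \ S'` (the other case is symmetric). By `exists_root` there is
  a primitive `(j s)`-th root of unity `x` with `κ x ^ j = 1`. Evaluation at `x`: the left side is `0`.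
  So some `(κ', j') ∈ S' \ S` has `κ' x ^ j' = 1`, `j' ≤ j`. As `κ' ^ s = 1` we get `x ^ (j' s) = 1`, so
  `j s ∣ j' s` (`IsPrimitiveRoot.dvd_of_pow_eq_one`), `j ∣ j'`, `j' = j` (`1 ≤ j' ≤ j`), and then
  `κ' = (x ^ j)⁻¹ = κ`, a contradiction to `(κ, j) ∉ S'`.
* `natDegree_PS_le`: each factor has degree at most `j`, `card (primitiveRoots s F) ≤ φ s`
  (`0` if there is no primitive root), `∑_{j=1}^J j = J (J+1) / 2`.
-/

namespace Pool.Agent.W_420c7c_h29

open Polynomial

variable {F : Type*} [Field F]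

theorem indep_eval_zero {s J : ℕ} {T : Finset (F × ℕ)} (hT : T ⊆ idx F s J) :
    (PS T).eval 0 = 1 := by
  unfold PS
  rw [eval_prod]
  refine Finset.prod_eq_one fun i hi => ?_
  have h1 := hT hi
  unfold idx at h1
  rw [Finset.mem_product, Finset.mem_Icc] at h1
  have h2 : i.2 ≠ 0 := by omega
  simp [h2]

theorem indep_ne_zero {s J : ℕ} {T : Finset (F × ℕ)} (hT : T ⊆ idx F s J) : PS T ≠ 0 := by
  intro h
  have h1 := indep_eval_zero hT
  rw [h, eval_zero] at h1
  exact zero_ne_one h1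

theorem indep_mem {s J : ℕ} (hs : 0 < s)
    (hω : ∀ j, 1 ≤ j → j ≤ J → ∃ ω : F, IsPrimitiveRoot ω (j * s)) {A B : Finset (F × ℕ)}
    (hA : A ⊆ idx F s J) (hB : B ⊆ idx F s J) (h : PS A = PS B) {i : F × ℕ} (hi : i ∈ A)
    (hmax : ∀ b ∈ B, b.2 ≤ i.2) : i ∈ B := by
  have h1 := hA hi
  unfold idx at h1
  rw [Finset.mem_product, Finset.mem_Icc] at h1
  obtain ⟨h1, h2, h3⟩ := h1
  obtain ⟨x, hx, hx1⟩ := exists_root (isPrimitiveRoot_of_mem_primitiveRoots h1) hs h2
    (hω i.2 h2 h3)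
  have h4 : (PS A).eval x = 0 := by
    unfold PS
    rw [eval_prod]
    refine Finset.prod_eq_zero hi ?_
    simp only [eval_sub, eval_one, eval_mul, eval_C, eval_pow, eval_X]
    rw [hx1, sub_self]
  rw [h] at h4
  unfold PS at h4
  rw [eval_prod, Finset.prod_eq_zero_iff] at h4
  obtain ⟨b, hb, hb1⟩ := h4
  simp only [eval_sub, eval_one, eval_mul, eval_C, eval_pow, eval_X] at hb1
  have hb2 : b.1 * x ^ b.2 = 1 := (sub_eq_zero.1 hb1).symm
  have h5 := hB hb
  unfold idx at h5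
  rw [Finset.mem_product, Finset.mem_Icc] at h5
  obtain ⟨h5, h6, h7⟩ := h5
  have h8 : b.1 ^ s = 1 := (isPrimitiveRoot_of_mem_primitiveRoots h5).pow_eq_one
  have h9 : x ^ (b.2 * s) = 1 := by
    have h10 : (b.1 * x ^ b.2) ^ s = 1 := by rw [hb2, one_pow]
    rw [mul_pow, h8, one_mul, ← pow_mul] at h10
    exact h10
  have h10 := hx.dvd_of_pow_eq_one _ h9
  have h11 : i.2 ∣ b.2 := Nat.dvd_of_mul_dvd_mul_right hs h10
  have h12 : b.2 = i.2 := le_antisymm (hmax b hb) (Nat.le_of_dvd h6 h11)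
  have hx0 : x ≠ 0 := hx.ne_zero (Nat.mul_pos h2 hs).ne'
  have h13 : b.1 = i.1 := by
    rw [h12, ← hx1] at hb2
    exact mul_right_cancel₀ (pow_ne_zero _ hx0) hb2
  have h14 : b = i := Prod.ext h13 h12
  rw [← h14]
  exact hb

theorem PS_inj {s J : ℕ} (hs : 0 < s)
    (hω : ∀ j, 1 ≤ j → j ≤ J → ∃ ω : F, IsPrimitiveRoot ω (j * s)) {S S' : Finset (F × ℕ)}
    (hS : S ⊆ idx F s J) (hS' : S' ⊆ idx F s J) (h : PS S = PS S') : S = S' := by
  classical
  by_contra hne
  have hA : S \ S' ⊆ idx F s J := Finset.sdiff_subset.trans hS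
  have hB : S' \ S ⊆ idx F s J := Finset.sdiff_subset.trans hS'
  have hI : S ∩ S' ⊆ idx F s J := Finset.inter_subset_left.trans hS
  have h1 : PS (S ∩ S') * PS (S \ S') = PS S := by
    unfold PS
    exact Finset.prod_inter_mul_prod_sdiff S S' _
  have h2 : PS (S ∩ S') * PS (S' \ S) = PS S' := by
    unfold PS
    rw [Finset.inter_comm]
    exact Finset.prod_inter_mul_prod_sdiff S' S _
  have h3 : PS (S \ S') = PS (S' \ S) := by
    rw [← h2, ← h1] at h
    exact mul_left_cancel₀ (indep_ne_zero hI) h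
  have h4 : ((S \ S') ∪ (S' \ S)).Nonempty := by
    rw [Finset.nonempty_iff_ne_empty]
    intro h5
    rw [Finset.union_eq_empty, Finset.sdiff_eq_empty_iff_subset,
      Finset.sdiff_eq_empty_iff_subset] at h5
    exact hne (Finset.Subset.antisymm h5.1 h5.2)
  obtain ⟨i, hi, hmax⟩ := Finset.exists_max_image _ (fun i : F × ℕ => i.2) h4
  rcases Finset.mem_union.1 hi with hi | hi
  · have h5 := indep_mem hs hω hA hB h3 hi (fun b hb => hmax b (Finset.mem_union_right _ hb))
    exact (Finset.mem_sdiff.1 h5).2 (Finset.mem_sdiff.1 hi).1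
  · have h5 := indep_mem hs hω hB hA h3.symm hi
      (fun b hb => hmax b (Finset.mem_union_left _ hb))
    exact (Finset.mem_sdiff.1 h5).2 (Finset.mem_sdiff.1 hi).1

theorem natDegree_PS_le {s J : ℕ} {S : Finset (F × ℕ)} (hS : S ⊆ idx F s J) :
    2 * (PS S).natDegree ≤ Nat.totient s * (J * (J + 1)) := by
  have h1 : (PS S).natDegree ≤ ∑ i ∈ S, i.2 := by
    unfold PS
    refine (natDegree_prod_le _ _).trans (Finset.sum_le_sum fun i _ => ?_)
    refine (natDegree_sub_le _ _).trans ?_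
    rw [natDegree_one]
    exact max_le (Nat.zero_le _) ((natDegree_C_mul_X_pow_le i.1 i.2))
  have h2 : ∑ i ∈ S, i.2 ≤ ∑ i ∈ idx F s J, i.2 := Finset.sum_le_sum_of_subset hS
  have h3 : ∑ i ∈ idx F s J, i.2 = (primitiveRoots s F).card * ∑ j ∈ Finset.Icc 1 J, j := by
    unfold idx
    rw [Finset.sum_product]
    simp only [Finset.sum_const, smul_eq_mul]
  have h4 : (primitiveRoots s F).card ≤ Nat.totient s := by
    rcases (primitiveRoots s F).eq_empty_or_nonempty with h5 | ⟨z, hz⟩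
    · rw [h5, Finset.card_empty]
      exact Nat.zero_le _
    · exact (isPrimitiveRoot_of_mem_primitiveRoots hz).card_primitiveRoots.le
  have h5 : 2 * ∑ j ∈ Finset.Icc 1 J, j ≤ J * (J + 1) := by
    have h6 : ∑ j ∈ Finset.Icc 1 J, j ≤ ∑ j ∈ Finset.range (J + 1), j := by
      refine Finset.sum_le_sum_of_subset fun j hj => ?_
      rw [Finset.mem_Icc] at hj
      rw [Finset.mem_range]
      omega
    have h7 := Finset.sum_range_id_mul_two (J + 1)
    rw [Nat.add_sub_cancel] at h7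
    nlinarith
  calc 2 * (PS S).natDegree ≤ 2 * ((primitiveRoots s F).card * ∑ j ∈ Finset.Icc 1 J, j) := by
        rw [← h3]
        omega
    _ = (primitiveRoots s F).card * (2 * ∑ j ∈ Finset.Icc 1 J, j) := by ring
    _ ≤ Nat.totient s * (J * (J + 1)) := Nat.mul_le_mul h4 h5

end Pool.Agent.W_420c7c_h29
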