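import Pool.Agent.W_420c7c_h29.Defs

/-!
# Prime power moduli

Proof of `ncard_primePow`. Let `n = p m`, `A = n ^ (q (q-1))`. By Fermat `q ∣ A - 1`, and for `q = 2`
(`n` odd) even `8 ∣ A - 1`. `A ≠ 1` (otherwise `A ≡ 1 (mod q ^ j)`), so `v = v_q(A - 1)` is finite and
`v < j` by hypothesis. Let `o` be the order of the unit `n ^ M` of `ZMod (q ^ k)`. The `o` different
powers of `n ^ M = m ^ M * p ^ M` lie in `cls (q ^ k) (m ^ M) (p ^ M)`, so `o ≤ t = ncard`. From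
`n ^ (M o) ≡ 1 (mod q ^ k)` we get `q ^ k ∣ A ^ (M o) - 1`. Lifting the exponent:
`v_q(A ^ e - 1) = v_q(A - 1) + v_q(e)` (`Nat.emultiplicity_pow_sub_pow` for odd `q`,
`Int.two_pow_sub_pow'`/`padicValNat.pow_two_sub_pow` or similar for `q = 2`, where `4 ∣ A - 1`). So
`k ≤ v + v_q(M o)`, hence `q ^ (k - v) ∣ M o` (or `k ≤ v`), `q ^ k ≤ q ^ v * (M o) ≤ q ^ j * M * t`.

`exists_k`: take the least `k` with `C ≤ q ^ k`.
-/

namespace Pool.Agent.W_420c7c_h29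

/-- lifting the exponent for `A = n ^ (q (q-1))` -/
theorem ordlemma_lte {q n : ℕ} (hq : q.Prime) (hqn : ¬ q ∣ n) (e : ℕ) :
    emultiplicity (q : ℤ) (((n : ℤ) ^ (q * (q - 1))) ^ e - 1) =
      emultiplicity (q : ℤ) ((n : ℤ) ^ (q * (q - 1)) - 1) + emultiplicity (q : ℤ) (e : ℤ) := by
  have hqZ : Prime (q : ℤ) := Nat.prime_iff_prime_int.1 hq
  have hqnZ : ¬ (q : ℤ) ∣ (n : ℤ) := by
    rwa [Int.natCast_dvd_natCast]
  have hqA : ¬ (q : ℤ) ∣ (n : ℤ) ^ (q * (q - 1)) := fun h => hqnZ (hqZ.dvd_of_dvd_pow h)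
  rcases hq.eq_two_or_odd' with h2 | hodd
  · subst h2
    have hn : Odd (n : ℤ) := by
      rw [← Int.not_even_iff_odd, even_iff_two_dvd]
      exact_mod_cast hqn
    have h4 : (4 : ℤ) ∣ (n : ℤ) ^ (2 * (2 - 1)) - 1 := by
      obtain ⟨c, hc⟩ := hn
      rw [hc]
      exact ⟨c ^ 2 + c, by ring⟩
    have h := Int.two_pow_sub_pow' (x := (n : ℤ) ^ (2 * (2 - 1))) (y := 1) e h4
      (by exact_mod_cast hqA)
    rw [one_pow] at h
    exact h
  · have hcop : IsCoprime (n : ℤ) (q : ℤ) := by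
      rw [Nat.isCoprime_iff_coprime]
      exact ((Nat.Prime.coprime_iff_not_dvd hq).2 hqn).symm
    have hf : (q : ℤ) ∣ (n : ℤ) ^ (q * (q - 1)) - 1 := by
      have h1 := Int.ModEq.pow_card_sub_one_eq_one hq hcop
      have h2 : (n : ℤ) ^ (q * (q - 1)) ≡ 1 [ZMOD q] := by
        have h3 := h1.pow q
        rw [one_pow, ← pow_mul, mul_comm (q - 1) q] at h3
        exact h3
      exact (Int.modEq_iff_dvd.1 h2.symm)
    have h := Int.emultiplicity_pow_sub_pow hq hodd (x := (n : ℤ) ^ (q * (q - 1))) (y := 1) hf hqA e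
    rw [one_pow] at h
    rw [h, Int.natCast_emultiplicity]

theorem ordlemma_dvd {q n j k e : ℕ} (hq : q.Prime) (hqn : ¬ q ∣ n)
    (hj : ¬ n ^ (q * (q - 1)) ≡ 1 [MOD q ^ j]) (he : 0 < e) (hk : n ^ e ≡ 1 [MOD q ^ k]) :
    q ^ k ≤ q ^ j * e := by
  have h1 : ¬ ((q : ℤ) ^ j ∣ (n : ℤ) ^ (q * (q - 1)) - 1) := by
    intro h
    apply hj
    have h2 : ((n ^ (q * (q - 1)) : ℕ) : ℤ) ≡ ((1 : ℕ) : ℤ) [ZMOD ((q ^ j : ℕ) : ℤ)] := by
      apply Int.ModEq.symm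
      rw [Int.modEq_iff_dvd]
      push_cast
      exact h
    exact (Int.natCast_modEq_iff).1 h2
  have h3 : (q : ℤ) ^ k ∣ ((n : ℤ) ^ (q * (q - 1))) ^ e - 1 := by
    have h4 : (n ^ e) ^ (q * (q - 1)) ≡ 1 [MOD q ^ k] := by
      have := hk.pow (q * (q - 1))
      rwa [one_pow] at this
    have h5 : (((n ^ e) ^ (q * (q - 1)) : ℕ) : ℤ) ≡ ((1 : ℕ) : ℤ) [ZMOD ((q ^ k : ℕ) : ℤ)] :=
      (Int.natCast_modEq_iff).2 h4
    have h6 := Int.modEq_iff_dvd.1 h5.symm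
    push_cast at h6
    have h7 : ((n : ℤ) ^ (q * (q - 1))) ^ e = ((n : ℤ) ^ e) ^ (q * (q - 1)) := by
      rw [← pow_mul, ← pow_mul, mul_comm]
    rw [h7]
    exact h6
  have h7 : emultiplicity (q : ℤ) ((n : ℤ) ^ (q * (q - 1)) - 1) < j :=
    emultiplicity_lt_iff_not_dvd.2 h1
  have h8 : (k : ℕ∞) ≤ emultiplicity (q : ℤ) (((n : ℤ) ^ (q * (q - 1))) ^ e - 1) :=
    pow_dvd_iff_le_emultiplicity.1 h3
  rw [ordlemma_lte hq hqn] at h8
  have hfin : FiniteMultiplicity q e :=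
    Nat.finiteMultiplicity_iff.2 ⟨hq.ne_one, he⟩
  rw [Int.natCast_emultiplicity, hfin.emultiplicity_eq_multiplicity] at h8
  obtain ⟨a, ha⟩ := ENat.ne_top_iff_exists.1 (ne_top_of_lt h7)
  rw [← ha] at h7 h8
  have h9 : a < j := by exact_mod_cast h7
  have h10 : k ≤ a + multiplicity q e := by exact_mod_cast h8
  have h11 : q ^ multiplicity q e ≤ e := Nat.le_of_dvd he (pow_multiplicity_dvd q e)
  calc q ^ k ≤ q ^ (a + multiplicity q e) := Nat.pow_le_pow_right hq.pos h10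
    _ = q ^ a * q ^ multiplicity q e := pow_add _ _ _
    _ ≤ q ^ j * e := Nat.mul_le_mul (Nat.pow_le_pow_right hq.pos h9.le) h11

theorem ncard_primePow {q j k M m p : ℕ} (hq : q.Prime) (hM : 0 < M) (hm : 2 ≤ m) (hp : 2 ≤ p)
    (hqn : ¬ q ∣ p * m) (hj : ¬ (p * m) ^ (q * (q - 1)) ≡ 1 [MOD q ^ j]) :
    q ^ k ≤ q ^ j * M * (cls (q ^ k) (m ^ M) (p ^ M)).ncard := by
  classical
  haveI : NeZero (q ^ k) := ⟨pow_ne_zero k hq.ne_zero⟩
  have hcop : Nat.Coprime ((p * m) ^ M) (q ^ k) := by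
    apply Nat.Coprime.pow
    exact ((Nat.Prime.coprime_iff_not_dvd hq).2 hqn).symm
  set g : (ZMod (q ^ k))ˣ := ZMod.unitOfCoprime ((p * m) ^ M) hcop with hg
  have hgv : (g : ZMod (q ^ k)) = (((p * m) ^ M : ℕ) : ZMod (q ^ k)) :=
    ZMod.coe_unitOfCoprime _ _
  have hopos : 0 < orderOf g := orderOf_pos g
  have hfin : (cls (q ^ k) (m ^ M) (p ^ M)).Finite := Set.toFinite _
  have h1 : orderOf g ≤ (cls (q ^ k) (m ^ M) (p ^ M)).ncard := by
    have h2 : ((Finset.range (orderOf g)).image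
        (fun i : ℕ => ((g ^ i : (ZMod (q ^ k))ˣ) : ZMod (q ^ k)))).card = orderOf g := by
      rw [Finset.card_image_of_injOn, Finset.card_range]
      intro a ha b hb hab
      have hab2 : g ^ a = g ^ b := Units.ext hab
      exact pow_injOn_Iio_orderOf (Set.mem_Iio.2 (Finset.mem_range.1 (Finset.mem_coe.1 ha)))
        (Set.mem_Iio.2 (Finset.mem_range.1 (Finset.mem_coe.1 hb))) hab2
    rw [← h2, ← Set.ncard_coe_finset]
    apply Set.ncard_le_ncard _ hfin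
    intro x hx
    rw [Finset.mem_coe, Finset.mem_image] at hx
    obtain ⟨i, _, rfl⟩ := hx
    refine ⟨i, i, ?_⟩
    rw [Units.val_pow_eq_pow_val, hgv, ← mul_pow]
    congr 1
    push_cast
    rw [mul_pow, mul_comm]
  have h3 : (p * m) ^ (M * orderOf g) ≡ 1 [MOD q ^ k] := by
    have h4 : ((g ^ orderOf g : (ZMod (q ^ k))ˣ) : ZMod (q ^ k)) = 1 := by
      rw [pow_orderOf_eq_one]; rfl
    rw [Units.val_pow_eq_pow_val, hgv, ← Nat.cast_pow, ← pow_mul] at h4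
    have h5 : (((p * m) ^ (M * orderOf g) : ℕ) : ZMod (q ^ k)) = ((1 : ℕ) : ZMod (q ^ k)) := by
      rw [h4, Nat.cast_one]
    exact (ZMod.natCast_eq_natCast_iff _ _ _).1 h5
  have h6 := ordlemma_dvd hq hqn hj (Nat.mul_pos hM hopos) h3
  calc q ^ k ≤ q ^ j * (M * orderOf g) := h6
    _ = q ^ j * M * orderOf g := by ring
    _ ≤ _ := Nat.mul_le_mul_left _ h1

theorem exists_k {q C : ℕ} (hq : 2 ≤ q) (hC : 1 ≤ C) : ∃ k : ℕ, C ≤ q ^ k ∧ q ^ k ≤ q * C := by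
  classical
  have hex : ∃ k : ℕ, C ≤ q ^ k := ⟨C, (Nat.lt_pow_self (by omega)).le⟩
  refine ⟨Nat.find hex, Nat.find_spec hex, ?_⟩
  rcases Nat.eq_zero_or_pos (Nat.find hex) with h | h
  · rw [h, pow_zero]
    exact Nat.mul_pos (by omega) hC
  · have h1 := Nat.find_min hex (m := Nat.find hex - 1) (by omega)
    rw [not_le] at h1
    have h2 : q ^ Nat.find hex = q * q ^ (Nat.find hex - 1) := by
      rw [← pow_succ']
      congr 1
      omega
    rw [h2]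
    exact Nat.mul_le_mul_left _ h1.le

end Pool.Agent.W_420c7c_h29
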