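import Pool.Agent.W_420c7c_h29.Defs
import Pool.Agent.W_MP_83c777_nt.SieveCor

/-!
# Few primes `l` such that `k l + 1` is prime

Use `Pool.Agent.W_MP_83c777_nt.sieve_cor` (check the exact name and namespace there) with `w = 2`, `z = exp (log x / (500 * log (log x)))`,
`P` the set of all primes `q ≤ z` with `q ∤ k`, `Ω q = {0, u_q}`, `u_q ∈ range q` with
`k u_q + 1 ≡ 0 (mod q)` (`u_q ≠ 0`), the interval `Ico 0 (0 + (x+1))`. If `l` is prime, `z < l ≤ x` and
`k l + 1` is prime then `l % q ∉ Ω q` for all `q ∈ P` (`q ∣ l` or `q ∣ k l + 1` is impossible for a prime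
`q ≤ z < l`). The number of `l ≤ z` is at most `z + 1`. The sum of `1 / q` over the primes `q ≤ z` not in
`P`, i.e. `q ∣ k`, is at most `k`. So the count is at most
`z + 1 + 5 (x+1) exp (4 k) / (log z)² + exp (221 log z log (log z))`. Here
`log z = log x / (500 log (log x))`, `log (log z) ≤ log (log x)`, so the last term is at most
`exp (221/500 * log x) = x ^ (221/500)`, and all terms divided by `x / log x` tend to `0`
(`(log (log x))² / log x → 0`).
-/

namespace Pool.Agent.W_420c7c_h29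

/-- the sieve bound -/
theorem pairs_sieve (k : ℕ) (hk : 1 ≤ k) {z : ℝ} (hz : 16 ≤ z) (x : ℕ) :
    (((Finset.range (x + 1)).filter fun l => l.Prime ∧ (k * l + 1).Prime).card : ℝ) ≤
      (z + 1) + (5 * (x + 1) * Real.exp (4 * k) / (Real.log z) ^ 2 +
        Real.exp (221 * Real.log z * Real.log (Real.log z))) := by
  classical
  set P : Finset ℕ := (Nat.primesLE ⌊z⌋₊).filter (fun q => ¬ q ∣ k) with hP
  have hz0 : 0 ≤ z := by linarith
  have hPm : ∀ q ∈ P, q.Prime ∧ q ≤ ⌊z⌋₊ ∧ ¬ q ∣ k := by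
    intro q hq
    rw [hP, Finset.mem_filter, Nat.mem_primesLE] at hq
    exact ⟨hq.1.2, hq.1.1, hq.2⟩
  have hu : ∀ q : ℕ, ∃ u : ℕ, q ∈ P → u < q ∧ u ≠ 0 ∧ q ∣ k * u + 1 := by
    intro q
    by_cases hq : q ∈ P
    · obtain ⟨hqp, -, hqk⟩ := hPm q hq
      have hqf : Fact q.Prime := ⟨hqp⟩
      have hk0 : (k : ZMod q) ≠ 0 := by
        intro h0
        exact hqk ((ZMod.natCast_eq_zero_iff k q).1 h0)
      refine ⟨(-(k : ZMod q)⁻¹).val, fun _ => ⟨ZMod.val_lt _, ?_, ?_⟩⟩
      · intro h0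
        rw [ZMod.val_eq_zero, neg_eq_zero, inv_eq_zero] at h0
        exact hk0 h0
      · rw [← ZMod.natCast_eq_zero_iff]
        push_cast
        rw [ZMod.natCast_zmod_val, mul_neg, mul_inv_cancel₀ hk0, neg_add_cancel]
    · exact ⟨0, fun h => absurd h hq⟩
  choose u hu using hu
  have hsv := Pool.Agent.W_MP_83c777_nt.sieve_cor hz (w := 2) (Or.inr rfl) P
    (fun q hq => ⟨(hPm q hq).1, (Nat.le_floor_iff hz0).1 (hPm q hq).2.1⟩)
    (fun q => {0, u q})
    (fun q hq => by
      obtain ⟨h1, h2, -⟩ := hu q hq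
      refine ⟨?_, Finset.card_pair (fun h => h2 h.symm)⟩
      intro t ht
      rw [Finset.mem_insert, Finset.mem_singleton] at ht
      rw [Finset.mem_range]
      rcases ht with rfl | rfl
      · exact (hPm q hq).1.pos
      · exact h1) 0 (x + 1)
  have hsub : ((Finset.range (x + 1)).filter fun l => l.Prime ∧ (k * l + 1).Prime) ⊆
      Finset.range (⌊z⌋₊ + 1) ∪ {t ∈ Finset.Ico 0 (0 + (x + 1)) | ∀ q ∈ P, t % q ∉
        (fun q => ({0, u q} : Finset ℕ)) q} := by
    intro l hl
    rw [Finset.mem_filter, Finset.mem_range] at hl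
    obtain ⟨hlx, hlp, hlk⟩ := hl
    rw [Finset.mem_union]
    by_cases hlz : l < ⌊z⌋₊ + 1
    · exact Or.inl (Finset.mem_range.2 hlz)
    · right
      rw [Finset.mem_filter, Finset.mem_Ico]
      refine ⟨⟨Nat.zero_le _, by omega⟩, fun q hq hmem => ?_⟩
      obtain ⟨hqp, hqz, -⟩ := hPm q hq
      obtain ⟨-, -, hqu⟩ := hu q hq
      have hmem' : l % q = 0 ∨ l % q = u q := by
        simpa using hmem
      rcases hmem' with h | h
      · have h1 : q ∣ l := Nat.dvd_of_mod_eq_zero h
        have h2 := (Nat.prime_dvd_prime_iff_eq hqp hlp).1 h1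
        omega
      · have h1 : q ∣ k * l + 1 := by
          have h2 : k * l + 1 ≡ k * u q + 1 [MOD q] := by
            refine Nat.ModEq.add_right 1 (Nat.ModEq.mul_left k ?_)
            rw [← h]
            exact (Nat.mod_modEq l q).symm
          exact (Nat.ModEq.dvd_iff h2 (dvd_refl q)).2 hqu
        have h2 := (Nat.prime_dvd_prime_iff_eq hqp hlk).1 h1
        have h3 : l ≤ k * l := Nat.le_mul_of_pos_left l hk
        omega
  have hcard : (((Finset.range (x + 1)).filter fun l => l.Prime ∧ (k * l + 1).Prime).card : ℝ) ≤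
      ((⌊z⌋₊ : ℝ) + 1) + (({t ∈ Finset.Ico 0 (0 + (x + 1)) | ∀ q ∈ P, t % q ∉
        (fun q => ({0, u q} : Finset ℕ)) q} : Finset ℕ).card : ℝ) := by
    have h1 := (Finset.card_le_card hsub).trans (Finset.card_union_le _ _)
    rw [Finset.card_range] at h1
    exact_mod_cast h1
  refine hcard.trans (add_le_add ?_ (hsv.trans ?_))
  · have := Nat.floor_le hz0
    linarith
  · have hsum : ∑ q ∈ Nat.primesLE ⌊z⌋₊ \ P, 1 / (q : ℝ) ≤ k := by
      have h1 : Nat.primesLE ⌊z⌋₊ \ P ⊆ k.divisors := by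
        intro q hq
        rw [Finset.mem_sdiff, hP, Finset.mem_filter] at hq
        rw [Nat.mem_divisors]
        refine ⟨?_, by omega⟩
        by_contra hcon
        exact hq.2 ⟨hq.1, hcon⟩
      calc ∑ q ∈ Nat.primesLE ⌊z⌋₊ \ P, 1 / (q : ℝ)
          ≤ ∑ q ∈ Nat.primesLE ⌊z⌋₊ \ P, (1 : ℝ) := by
            refine Finset.sum_le_sum fun q hq => ?_
            have h2 : (1 : ℝ) ≤ q := by
              exact_mod_cast (Nat.prime_of_mem_primesLE (Finset.sdiff_subset hq)).one_lt.le
            rw [div_le_one (by linarith)]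
            exact h2
        _ = ((Nat.primesLE ⌊z⌋₊ \ P).card : ℝ) := by
            rw [Finset.sum_const, nsmul_eq_mul, mul_one]
        _ ≤ (k.divisors.card : ℝ) := by exact_mod_cast Finset.card_le_card h1
        _ ≤ k := by exact_mod_cast Nat.card_divisors_le_self k
    have hexp : Real.exp (2 * ((2 : ℕ) : ℝ) * ∑ q ∈ Nat.primesLE ⌊z⌋₊ \ P, 1 / (q : ℝ)) ≤
        Real.exp (4 * k) := by
      rw [Real.exp_le_exp]
      push_cast
      linarith
    refine add_le_add ?_ le_rfl
    push_cast at hexp ⊢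
    refine div_le_div_of_nonneg_right ?_ (by positivity)
    exact mul_le_mul_of_nonneg_left hexp (by positivity)

/-- the parameters -/
theorem pairs_param (k : ℕ) (δ : ℝ) (hδ : 0 < δ) : ∃ x₀ : ℕ, ∀ x : ℕ, x₀ ≤ x →
    1 ≤ Real.log (Real.log x) ∧ 1500 * Real.log (Real.log x) ≤ Real.log x ∧
    Real.log x / 2 * Real.exp (-(Real.log x / 2)) ≤ δ / 12 ∧
    Real.log (Real.log x) ^ 2 ≤ δ / (5000000 * Real.exp (4 * k)) * Real.log x := by
  have hlog : Filter.Tendsto (fun x : ℕ => Real.log (x : ℝ)) Filter.atTop Filter.atTop :=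
    Real.tendsto_log_atTop.comp tendsto_natCast_atTop_atTop
  have e1 : ∀ᶠ y : ℝ in Filter.atTop, 1 ≤ Real.log y :=
    Real.tendsto_log_atTop.eventually_ge_atTop 1
  have e2 : ∀ᶠ y : ℝ in Filter.atTop, 1500 * Real.log y ≤ y := by
    have h1 := (Real.isLittleO_log_id_atTop).bound (c := 1 / 1500) (by norm_num)
    filter_upwards [h1, Filter.eventually_ge_atTop (0 : ℝ)] with y hy hy0
    rw [Real.norm_eq_abs, Real.norm_eq_abs, id_eq, abs_of_nonneg hy0] at hy
    have := le_abs_self (Real.log y)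
    linarith
  have e3 : ∀ᶠ y : ℝ in Filter.atTop, y / 2 * Real.exp (-(y / 2)) ≤ δ / 12 := by
    have h1 := (Real.tendsto_pow_mul_exp_neg_atTop_nhds_zero 1).comp
      (Filter.tendsto_id.atTop_div_const (show (0 : ℝ) < 2 by norm_num))
    have h2 := h1.eventually_le_const (show (0 : ℝ) < δ / 12 by positivity)
    filter_upwards [h2] with y hy
    simpa using hy
  have e4 : ∀ᶠ y : ℝ in Filter.atTop, Real.log y ^ 2 ≤
      δ / (5000000 * Real.exp (4 * k)) * y := by
    have h1 := (Real.isLittleO_pow_log_id_atTop (n := 2)).bound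
      (c := δ / (5000000 * Real.exp (4 * k))) (by positivity)
    filter_upwards [h1, Filter.eventually_ge_atTop (0 : ℝ)] with y hy hy0
    rw [Real.norm_eq_abs, Real.norm_eq_abs, id_eq, abs_of_nonneg hy0] at hy
    exact (le_abs_self _).trans hy
  have e := hlog.eventually (e1.and (e2.and (e3.and e4)))
  exact Filter.eventually_atTop.1 e

theorem pairs_small (k : ℕ) (hk : 1 ≤ k) (δ : ℝ) (hδ : 0 < δ) : ∃ x₀ : ℕ, ∀ x : ℕ, x₀ ≤ x →
    (((Finset.range (x + 1)).filter fun l => l.Prime ∧ (k * l + 1).Prime).card : ℝ) ≤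
      δ * x / Real.log x := by
  obtain ⟨x₀, hx₀⟩ := pairs_param k δ hδ
  refine ⟨max x₀ 1, fun x hx => ?_⟩
  obtain ⟨h1, h2, h3, h4⟩ := hx₀ x ((le_max_left _ _).trans hx)
  have hx1 : 1 ≤ x := (le_max_right _ _).trans hx
  have hx0 : (0 : ℝ) < x := by exact_mod_cast hx1
  have hexpy : Real.exp (Real.log x) = x := Real.exp_log hx0
  set y := Real.log x with hy
  set l := Real.log y with hl
  have hy0 : 0 < y := by linarith
  have hl0 : 0 < l := by linarith
  set t := y / (500 * l) with ht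
  have ht3 : 3 ≤ t := by
    rw [ht, le_div_iff₀ (by positivity)]
    linarith
  have hty : t ≤ y / 2 := by
    rw [ht, div_le_div_iff₀ (by positivity) (by norm_num)]
    nlinarith
  have htl : t * l = y / 500 := by
    rw [ht]
    field_simp
  have hlogz : Real.log (Real.exp t) = t := Real.log_exp t
  have hz16 : (16 : ℝ) ≤ Real.exp t := by
    have h5 : Real.exp 3 ≤ Real.exp t := Real.exp_le_exp.2 ht3
    have h6 : (16 : ℝ) ≤ Real.exp 3 := by
      have h7 := Real.exp_one_gt_d9
      have h8 : Real.exp 3 = Real.exp 1 ^ 3 := by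
        rw [← Real.exp_nat_mul]
        norm_num
      rw [h8]
      have h9 : (2.7 : ℝ) ≤ Real.exp 1 := by linarith
      calc (16 : ℝ) ≤ 2.7 ^ 3 := by norm_num
        _ ≤ Real.exp 1 ^ 3 := pow_le_pow_left₀ (by norm_num) h9 3
    linarith
  have hs := pairs_sieve k hk hz16 x
  rw [hlogz] at hs
  refine hs.trans ?_
  -- the small terms
  have hE : 1 ≤ Real.exp (y / 2) := Real.one_le_exp (by positivity)
  have hz : Real.exp t ≤ Real.exp (y / 2) := Real.exp_le_exp.2 hty
  have hT3 : Real.exp (221 * t * Real.log t) ≤ Real.exp (y / 2) := by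
    rw [Real.exp_le_exp]
    have h5 : Real.log t ≤ l := by
      rw [hl]
      exact Real.log_le_log (by linarith) (by linarith)
    have h6 : 221 * t * Real.log t ≤ 221 * t * l :=
      mul_le_mul_of_nonneg_left h5 (by positivity)
    have h7 : 221 * t * l = 221 * (y / 500) := by rw [← htl]; ring
    linarith
  have hxy : 0 < (x : ℝ) / y := by positivity
  have hsmall : 3 * Real.exp (y / 2) ≤ (x : ℝ) / y * (δ / 2) := by
    have h5 : (x : ℝ) / y * (6 * (y / 2 * Real.exp (-(y / 2)))) = 3 * Real.exp (y / 2) := by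
      have h6 : (x : ℝ) = Real.exp (y / 2) * Real.exp (y / 2) := by
        rw [← Real.exp_add, ← hexpy]
        congr 1
        ring
      have h7 : Real.exp (y / 2) * Real.exp (-(y / 2)) = 1 := by
        rw [← Real.exp_add, add_neg_cancel, Real.exp_zero]
      calc (x : ℝ) / y * (6 * (y / 2 * Real.exp (-(y / 2))))
          = 3 * (x * Real.exp (-(y / 2))) * (y / y) := by ring
        _ = 3 * (x * Real.exp (-(y / 2))) := by rw [div_self hy0.ne', mul_one]
        _ = 3 * (Real.exp (y / 2) * (Real.exp (y / 2) * Real.exp (-(y / 2)))) := by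
            rw [h6]; ring
        _ = 3 * Real.exp (y / 2) := by rw [h7, mul_one]
    rw [← h5]
    refine mul_le_mul_of_nonneg_left ?_ hxy.le
    linarith
  have hbig : 5 * ((x : ℝ) + 1) * Real.exp (4 * k) / t ^ 2 ≤ (x : ℝ) / y * (δ / 2) := by
    have hx1' : (1 : ℝ) ≤ x := by exact_mod_cast hx1
    have h5 : 5 * ((x : ℝ) + 1) * Real.exp (4 * k) / t ^ 2 ≤
        10 * x * Real.exp (4 * k) / t ^ 2 := by
      refine div_le_div_of_nonneg_right ?_ (by positivity)
      refine mul_le_mul_of_nonneg_right ?_ (Real.exp_pos _).le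
      linarith
    refine h5.trans ?_
    have h6 : 10 * x * Real.exp (4 * k) / t ^ 2 =
        (x : ℝ) / y * (2500000 * Real.exp (4 * k) * l ^ 2 / y) := by
      rw [ht]
      field_simp
      ring
    rw [h6]
    refine mul_le_mul_of_nonneg_left ?_ hxy.le
    rw [div_le_iff₀ hy0]
    have h7 : 2500000 * Real.exp (4 * k) * l ^ 2 ≤
        2500000 * Real.exp (4 * k) * (δ / (5000000 * Real.exp (4 * k)) * y) :=
      mul_le_mul_of_nonneg_left h4 (by positivity)
    have h8 : 2500000 * Real.exp (4 * k) * (δ / (5000000 * Real.exp (4 * k)) * y) =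
        δ / 2 * y := by
      field_simp
      ring
    linarith
  have hfin : δ * x / y = (x : ℝ) / y * (δ / 2) + (x : ℝ) / y * (δ / 2) := by ring
  rw [hfin]
  linarith

end Pool.Agent.W_420c7c_h29
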