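import Pool.Agent.W_420c7c_h29.Defs

/-!
# Roots of unity

* `exists_prim`: `AlgebraicClosure (ZMod p)` is algebraically closed and `(k : F) ≠ 0`
  (`CharP.cast_eq_zero_iff`), see `IsSepClosed`/`HasEnoughRootsOfUnity` or
  `IsAlgClosed.exists_aeval_eq_zero` for `cyclotomic k`, `isRoot_cyclotomic_iff`.
* `exists_root`: let `ω` be a primitive `(j s)`-th root of unity. `ω ^ j` is a primitive `s`-th root
  of unity (`IsPrimitiveRoot.pow`), and so is `κ⁻¹`, hence `κ⁻¹ = (ω ^ j) ^ i` with `i` prime to `s`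
  (`IsPrimitiveRoot.isPrimitiveRoot_iff`). There is `i' ≡ i (mod s)` prime to `j s` (units modulo
  `j s` map onto units modulo `s`: `ZMod.unitsMap_surjective`). Take `x = ω ^ i'`
  (`IsPrimitiveRoot.pow_of_coprime`), `x ^ j = (ω ^ j) ^ i' = (ω ^ j) ^ i = κ⁻¹`.
-/

namespace Pool.Agent.W_420c7c_h29

open Polynomial

theorem exists_prim {p : ℕ} [Fact p.Prime] {k : ℕ} (hk : p.Coprime k) (hk0 : 0 < k) :
    ∃ z : AlgebraicClosure (ZMod p), IsPrimitiveRoot z k := by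
  have hne : NeZero ((k : ℕ) : AlgebraicClosure (ZMod p)) := by
    refine ⟨fun h => ?_⟩
    have h1 := (CharP.cast_eq_zero_iff (AlgebraicClosure (ZMod p)) p k).1 h
    exact ((Fact.out : p.Prime).coprime_iff_not_dvd.1 hk) h1
  have hdeg : (cyclotomic k (AlgebraicClosure (ZMod p))).degree ≠ 0 := by
    rw [degree_cyclotomic]
    have := Nat.totient_pos.2 hk0
    exact_mod_cast this.ne'
  obtain ⟨z, hz⟩ := IsAlgClosed.exists_root _ hdeg
  exact ⟨z, isRoot_cyclotomic_iff.1 hz⟩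

/-- lifting a residue prime to `s` to one prime to a multiple -/
theorem roots_lift {s n i : ℕ} (hn : 0 < n) (hsn : s ∣ n) (hi : i.Coprime s) :
    ∃ i' : ℕ, i'.Coprime n ∧ i' ≡ i [MOD s] := by
  have : NeZero n := ⟨hn.ne'⟩
  obtain ⟨v, hv⟩ := ZMod.unitsMap_surjective hsn (ZMod.unitOfCoprime i hi)
  refine ⟨(v : ZMod n).val, ZMod.val_coe_unit_coprime v, ?_⟩
  rw [← ZMod.natCast_eq_natCast_iff]
  have h1 := congrArg (fun x : (ZMod s)ˣ => (x : ZMod s)) hv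
  simp only [ZMod.coe_unitOfCoprime] at h1
  rw [← h1, ZMod.unitsMap_val]
  rw [ZMod.natCast_val]

theorem exists_root {F : Type*} [Field F] {κ : F} {s j : ℕ} (hκ : IsPrimitiveRoot κ s) (hs : 0 < s)
    (hj : 0 < j) (h : ∃ ω : F, IsPrimitiveRoot ω (j * s)) :
    ∃ x : F, IsPrimitiveRoot x (j * s) ∧ κ * x ^ j = 1 := by
  obtain ⟨ω, hω⟩ := h
  have hn : 0 < j * s := Nat.mul_pos hj hs
  have h1 : IsPrimitiveRoot (ω ^ j) s := hω.pow hn rfl
  have h2 : IsPrimitiveRoot κ⁻¹ s := hκ.inv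
  have : NeZero s := ⟨hs.ne'⟩
  obtain ⟨i, -, hi, hiκ⟩ := h1.isPrimitiveRoot_iff.1 h2
  obtain ⟨i', hi', hmod⟩ := roots_lift hn (Dvd.intro_left j rfl) hi
  refine ⟨ω ^ i', hω.pow_of_coprime i' hi', ?_⟩
  have h3 : (ω ^ i') ^ j = (ω ^ j) ^ i' := by
    rw [← pow_mul, ← pow_mul, mul_comm]
  have h4 : (ω ^ j) ^ i' = (ω ^ j) ^ i := by
    rw [← pow_mod_orderOf, ← pow_mod_orderOf (ω ^ j) i, ← h1.eq_orderOf]
    rw [hmod]
  have hκ0 : κ ≠ 0 := hκ.ne_zero hs.ne'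
  rw [h3, h4, hiκ, mul_inv_cancel₀ hκ0]

end Pool.Agent.W_420c7c_h29
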