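import Pool.Agent.W_420c7c_h29.Good

/-!
# The modulus `s`, preparations (in this file: `prod_good_ge`, `exists_y`)

Proof. We may assume `ε ≤ 1`. Choose a natural number `E ≥ 2 + 8 / ε` and `K = 12 E`. Write
`M_y = lcmUpto y`, `log M_y = ψ(y) ≤ (3/2) y` for large `y` (`Chebyshev.psi_eq_log_lcmUpto`,
`Chebyshev.psi_le`, `log 4 < 1.39`). By `sum_log_good`: `∑_{q ∈ good K y} log (q-1) ≥ K y / 8 = (3/2) E y
≥ E log M_y`, so `∏_{q ∈ good K y} (q-1) ≥ M_y ^ E` for `y ≥ y₁`.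
Given `Z` large let `y` be the least number with `y ≥ y₁` and `10 Z ≤ M_y ^ (E-2)` (it exists since
`M_y` is unbounded, `Nat.two_pow_le_mul_lcmUpto`, name `Chebyshev.two_pow_le_mul_lcmUpto`). For large
`Z` it is `> y₁`, so `M_{y-1} ^ (E-2) < 10 Z`, and `M_y ≤ y M_{y-1}` (`lcmUpto y ∣ y * lcmUpto (y-1)`), so
`M := M_y ≤ y (10 Z) ^ (1/(E-2))`. Also `2 ^ (y-1) ≤ y * M_{y-1} ≤ 10 y Z`, so `y ≤ C log Z`, in particular
`K y ≤ Z ^ (ε/16)` for large `Z`. Hence `M ≤ Z ^ (ε/16) (10 Z) ^ (ε/8) ≤ Z ^ (ε/4)`.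
Now `τ = 9 M² Z ≥ 1` and `τ < 10 M² Z ≤ M ^ E ≤ ∏_{good} (q-1)`. By `select` (with `Q = good K y`,
`2 ∈ Q` as `2 - 1 = 1` divides everything and `2 ≤ K y`; the number `Z` there is `K y`) there is
`Q' ∋ 2` with `τ < ∏_{Q'} (q-1) ≤ τ K y`. Let `s = ∏_{Q'} q`, even as `2 ∈ Q'`. `totient_prod`,
`pow_modEq_one` (for `q ∈ good K y` we have `q - 1 ∣ M`), and by `prod_le_mul`:
`s ≤ K y ∏_{Q'} (q-1) ≤ (K y)² 9 M² Z ≤ Z ^ (ε/8) * 9 * Z ^ (ε/2) * Z ≤ Z ^ (1+ε)`.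
-/

namespace Pool.Agent.W_420c7c_h29

theorem slema_log_le : ∃ y₀ : ℕ, ∀ y : ℕ, y₀ ≤ y →
    Real.log (Nat.lcmUpto y : ℝ) ≤ (3 / 2) * y := by
  have h1 : ∀ᶠ x : ℝ in Filter.atTop, ‖Real.log x‖ ≤ (1 / 20) * ‖x ^ ((1 : ℝ) / 2)‖ :=
    (isLittleO_log_rpow_atTop (by norm_num : (0 : ℝ) < 1 / 2)).bound (by norm_num)
  have h2 := tendsto_natCast_atTop_atTop.eventually h1
  obtain ⟨y₀, hy₀⟩ := Filter.eventually_atTop.1 h2
  refine ⟨max y₀ 1, fun y hy => ?_⟩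
  have hy1 : 1 ≤ y := le_trans (le_max_right _ _) hy
  have hyR : (1 : ℝ) ≤ y := by exact_mod_cast hy1
  have h3 := hy₀ y (le_trans (le_max_left _ _) hy)
  rw [Real.norm_of_nonneg (Real.log_nonneg hyR), Real.norm_of_nonneg (by positivity),
    ← Real.sqrt_eq_rpow] at h3
  rw [← Chebyshev.psi_eq_log_lcmUpto]
  have h4 := Chebyshev.psi_le hyR
  have h5 : Real.log 4 ≤ 1.3863 := by
    have h6 : Real.log 4 = 2 * Real.log 2 := by
      rw [show (4 : ℝ) = 2 ^ 2 by norm_num, Real.log_pow]; norm_num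
    have h7 := Real.log_two_lt_d9
    rw [h6]; linarith
  have h6 : √(y : ℝ) * √(y : ℝ) = y := Real.mul_self_sqrt (by positivity)
  have h7 : 2 * √(y : ℝ) * Real.log y ≤ 2 * √(y : ℝ) * (1 / 20 * √(y : ℝ)) :=
    mul_le_mul_of_nonneg_left h3 (by positivity)
  nlinarith

theorem slema_lcm_succ (n : ℕ) : Nat.lcmUpto (n + 1) ≤ (n + 1) * Nat.lcmUpto n := by
  apply Nat.le_of_dvd (Nat.mul_pos (Nat.succ_pos n) (Nat.lcmUpto_pos n))
  unfold Nat.lcmUpto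
  apply Finset.lcm_dvd
  intro b hb
  rw [Finset.mem_Icc] at hb
  rcases Nat.lt_or_ge n b with h | h
  · have : b = n + 1 := by omega
    rw [this]
    exact Nat.dvd_mul_right _ _
  · apply Dvd.dvd.mul_left
    exact Finset.dvd_lcm (f := id) (Finset.mem_Icc.2 ⟨hb.1, h⟩)

theorem slema_sq_le (n : ℕ) : 4 * (n + 1) ^ 2 ≤ 9 * 2 ^ n := by
  rcases Nat.lt_or_ge n 3 with h | h
  · interval_cases n <;> norm_num
  · induction n, h using Nat.le_induction with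
    | base => norm_num
    | succ m hm ih =>
      rw [pow_succ 2 m]
      nlinarith

theorem slema_y_le (n : ℕ) (Z : ℝ) (hZ : 1 ≤ Z) (h : (Nat.lcmUpto n : ℝ) ≤ 10 * Z) :
    ((n : ℝ) + 1) ≤ 1 + (Real.log 225 + 2 * Real.log Z) / Real.log 2 := by
  have h1 : ((2 : ℝ)) ^ n ≤ (n + 1) * (10 * Z) := by
    have : ((2 : ℝ)) ^ n ≤ (n + 1) * (Nat.lcmUpto n : ℝ) := by
      exact_mod_cast Chebyshev.two_pow_le_mul_lcmUpto n
    exact this.trans (mul_le_mul_of_nonneg_left h (by positivity))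
  have h2 : (4 : ℝ) * (n + 1) ^ 2 ≤ 9 * 2 ^ n := by exact_mod_cast slema_sq_le n
  have hn : (0 : ℝ) < (n : ℝ) + 1 := by positivity
  have h3 : (n : ℝ) + 1 ≤ 45 / 2 * Z := by
    have : ((n : ℝ) + 1) * (4 * (n + 1)) ≤ (n + 1) * (90 * Z) := by nlinarith
    have := le_of_mul_le_mul_left this hn
    linarith
  have h4 : ((2 : ℝ)) ^ n ≤ 225 * Z ^ 2 := by
    have : (n + 1 : ℝ) * (10 * Z) ≤ 45 / 2 * Z * (10 * Z) :=
      mul_le_mul_of_nonneg_right h3 (by positivity)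
    nlinarith
  have h5 := Real.log_le_log (by positivity) h4
  rw [Real.log_pow, Real.log_mul (by norm_num) (by positivity), Real.log_pow] at h5
  have hl2 : 0 < Real.log 2 := Real.log_pos (by norm_num)
  have h6 : (n : ℝ) ≤ (Real.log 225 + 2 * Real.log Z) / Real.log 2 := by
    rw [le_div_iff₀ hl2]
    push_cast at h5
    linarith
  linarith

theorem prod_good_ge (E : ℕ) : ∃ y₁ : ℕ, ∀ y : ℕ, y₁ ≤ y →
    ((Nat.lcmUpto y : ℝ)) ^ E ≤ ∏ q ∈ good (12 * E + 1) y, ((q : ℝ) - 1) := by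
  obtain ⟨y₀, hy₀⟩ := sum_log_good (12 * E + 1) (by omega)
  obtain ⟨y₂, hy₂⟩ := slema_log_le
  refine ⟨max y₀ y₂, fun y hy => ?_⟩
  have h1 := hy₀ y (le_trans (le_max_left _ _) hy)
  have h2 := hy₂ y (le_trans (le_max_right _ _) hy)
  have hM : (0 : ℝ) < (Nat.lcmUpto y : ℝ) := by exact_mod_cast Nat.lcmUpto_pos y
  have hq : ∀ q ∈ good (12 * E + 1) y, (0 : ℝ) < (q : ℝ) - 1 := by
    intro q hq
    have : q.Prime := by
      unfold good at hq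
      rw [Finset.mem_filter] at hq
      exact hq.2.1
    have : (2 : ℝ) ≤ q := by exact_mod_cast this.two_le
    linarith
  have hP : 0 < ∏ q ∈ good (12 * E + 1) y, ((q : ℝ) - 1) := Finset.prod_pos hq
  rw [← Real.log_le_log_iff (pow_pos hM E) hP, Real.log_pow,
    Real.log_prod (fun q h => (hq q h).ne')]
  refine le_trans ?_ h1
  push_cast
  have hE0 : (0 : ℝ) ≤ E := Nat.cast_nonneg E
  have hy0 : (0 : ℝ) ≤ y := Nat.cast_nonneg y
  have h3 := mul_le_mul_of_nonneg_left h2 hE0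
  nlinarith

theorem exists_y (E : ℕ) (hE : 3 ≤ E) (y₁ : ℕ) (ε : ℝ) (hε : 0 < ε) (hEε : 8 / ε ≤ (E : ℝ) - 2) :
    ∃ Z₀ : ℝ, ∀ Z : ℝ, Z₀ ≤ Z → ∃ y : ℕ, y₁ ≤ y ∧ 2 ≤ y ∧ 10 * Z ≤ (Nat.lcmUpto y : ℝ) ^ (E - 2) ∧
      (Nat.lcmUpto y : ℝ) ≤ Z ^ (ε / 4) ∧ ((12 * E + 1 : ℕ) : ℝ) * y ≤ Z ^ (ε / 16) := by
  set r : ℝ := ε / 16 with hr
  have hr0 : 0 < r := by rw [hr]; positivity
  have hl2 : 0 < Real.log 2 := Real.log_pos (by norm_num)
  set K : ℝ := ((12 * E + 1 : ℕ) : ℝ) with hK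
  have hK1 : 1 ≤ K := by rw [hK]; exact_mod_cast (by omega : 1 ≤ 12 * E + 1)
  set A : ℝ := K * (1 + Real.log 225 / Real.log 2) with hA
  set B : ℝ := K * (2 / Real.log 2) with hB
  have hB0 : 0 < B := by rw [hB]; positivity
  have e1 : ∀ᶠ Z : ℝ in Filter.atTop, 2 * A ≤ Z ^ r :=
    (tendsto_rpow_atTop hr0).eventually_ge_atTop _
  have e2 : ∀ᶠ Z : ℝ in Filter.atTop, ‖Real.log Z‖ ≤ (1 / (2 * B)) * ‖Z ^ r‖ :=
    (isLittleO_log_rpow_atTop hr0).bound (by positivity)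
  have e3 : ∀ᶠ Z : ℝ in Filter.atTop, (100 : ℝ) ≤ Z := Filter.eventually_ge_atTop _
  set y₂ : ℕ := max y₁ 2 with hy₂
  have e4 : ∀ᶠ Z : ℝ in Filter.atTop, (Nat.lcmUpto y₂ : ℝ) ^ (E - 2) < Z :=
    Filter.eventually_gt_atTop _
  obtain ⟨Z₀, hZ₀⟩ := Filter.eventually_atTop.1 (e1.and (e2.and (e3.and e4)))
  refine ⟨Z₀, fun Z hZ => ?_⟩
  obtain ⟨g1, g2, g3, g4⟩ := hZ₀ Z hZ
  have hZ0 : (0 : ℝ) < Z := by linarith
  have hE2 : E - 2 ≠ 0 := by omega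
  -- existence
  have hex : ∃ y : ℕ, y₂ ≤ y ∧ 10 * Z ≤ (Nat.lcmUpto y : ℝ) ^ (E - 2) := by
    obtain ⟨n, hn⟩ := exists_nat_gt (max (y₂ : ℝ) (1 + (Real.log 225 + 2 * Real.log Z) / Real.log 2))
    have hn1 : (y₂ : ℝ) < n := lt_of_le_of_lt (le_max_left _ _) hn
    have hn2 := lt_of_le_of_lt (le_max_right _ _) hn
    refine ⟨n, by exact_mod_cast hn1.le, ?_⟩
    by_contra hcon
    rw [not_le] at hcon
    have hM1 : (1 : ℝ) ≤ (Nat.lcmUpto n : ℝ) := by exact_mod_cast Nat.lcmUpto_pos n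
    have h1 : (Nat.lcmUpto n : ℝ) ≤ 10 * Z := (le_self_pow₀ hM1 hE2).trans hcon.le
    have := slema_y_le n Z (by linarith) h1
    linarith
  classical
  have hspec := Nat.find_spec hex
  set y : ℕ := Nat.find hex with hy
  have hy12 : y₂ ≤ y := hspec.1
  have hne : y ≠ y₂ := by
    intro h
    have h1 := hspec.2
    rw [h] at h1
    linarith
  have hylt : y₂ < y := lt_of_le_of_ne hy12 (Ne.symm hne)
  obtain ⟨n, hn⟩ : ∃ n, y = n + 1 := ⟨y - 1, by omega⟩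
  have hmin := Nat.find_min hex (m := n) (by rw [← hy, hn]; exact Nat.lt_succ_self n)
  have hn2 : y₂ ≤ n := by omega
  have hlt : (Nat.lcmUpto n : ℝ) ^ (E - 2) < 10 * Z := by
    by_contra hcon
    rw [not_lt] at hcon
    exact hmin ⟨hn2, hcon⟩
  have hM1 : (1 : ℝ) ≤ (Nat.lcmUpto n : ℝ) := by exact_mod_cast Nat.lcmUpto_pos n
  have hyb : (y : ℝ) ≤ 1 + (Real.log 225 + 2 * Real.log Z) / Real.log 2 := by
    rw [hn]; push_cast
    exact slema_y_le n Z (by linarith) ((le_self_pow₀ hM1 hE2).trans hlt.le)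
  have hKy : K * y ≤ Z ^ r := by
    have hZr : 0 < Z ^ r := Real.rpow_pos_of_pos hZ0 r
    have hlog : 0 ≤ Real.log Z := Real.log_nonneg (by linarith)
    rw [Real.norm_of_nonneg hlog, Real.norm_of_nonneg hZr.le] at g2
    have h1 : B * Real.log Z ≤ Z ^ r / 2 := by
      have := mul_le_mul_of_nonneg_left g2 hB0.le
      calc B * Real.log Z ≤ B * (1 / (2 * B) * Z ^ r) := this
        _ = Z ^ r / 2 := by field_simp
    have h2 : K * y ≤ K * (1 + (Real.log 225 + 2 * Real.log Z) / Real.log 2) :=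
      mul_le_mul_of_nonneg_left hyb (by linarith)
    have h3 : K * (1 + (Real.log 225 + 2 * Real.log Z) / Real.log 2) = A + B * Real.log Z := by
      rw [hA, hB]; field_simp
      ring
    linarith
  refine ⟨y, le_trans (le_max_left _ _) hy12, le_trans (le_max_right _ _) hy12, hspec.2, ?_, hKy⟩
  have hyr : (y : ℝ) ≤ Z ^ r := by
    have : (y : ℝ) ≤ K * y := by
      have hy0 : (0 : ℝ) ≤ y := Nat.cast_nonneg y
      nlinarith
    linarith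
  have h1 : (Nat.lcmUpto y : ℝ) ≤ y * (Nat.lcmUpto n : ℝ) := by
    rw [hn]; exact_mod_cast slema_lcm_succ n
  have hEc : ((E - 2 : ℕ) : ℝ) = (E : ℝ) - 2 := by
    rw [Nat.cast_sub (by omega)]; norm_num
  have h2 : (Nat.lcmUpto n : ℝ) ≤ (10 * Z) ^ (ε / 8) := by
    calc (Nat.lcmUpto n : ℝ) = (Nat.lcmUpto n : ℝ) ^ (1 : ℝ) := (Real.rpow_one _).symm
      _ ≤ (Nat.lcmUpto n : ℝ) ^ (((E - 2 : ℕ) : ℝ) * (ε / 8)) := by
          apply Real.rpow_le_rpow_of_exponent_le hM1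
          rw [hEc]
          rw [div_le_iff₀ hε] at hEε
          linarith
      _ = ((Nat.lcmUpto n : ℝ) ^ (E - 2)) ^ (ε / 8) := by
          rw [Real.rpow_mul (by linarith), Real.rpow_natCast]
      _ ≤ (10 * Z) ^ (ε / 8) :=
          Real.rpow_le_rpow (by positivity) hlt.le (by positivity)
  have h3 : (10 : ℝ) ^ (ε / 8) ≤ Z ^ r := by
    calc (10 : ℝ) ^ (ε / 8) = ((10 : ℝ) ^ (2 : ℝ)) ^ (ε / 16) := by
          rw [← Real.rpow_mul (by norm_num)]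
          congr 1
          ring
      _ = (100 : ℝ) ^ (ε / 16) := by
          rw [Real.rpow_two]; norm_num
      _ ≤ Z ^ r := Real.rpow_le_rpow (by norm_num) g3 hr0.le
  calc (Nat.lcmUpto y : ℝ) ≤ y * (Nat.lcmUpto n : ℝ) := h1
    _ ≤ Z ^ r * (10 * Z) ^ (ε / 8) :=
        mul_le_mul hyr h2 (by positivity) (by positivity)
    _ = Z ^ r * (10 ^ (ε / 8) * Z ^ (ε / 8)) := by
        rw [Real.mul_rpow (by norm_num) hZ0.le]
    _ ≤ Z ^ r * (Z ^ r * Z ^ (ε / 8)) := by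
        apply mul_le_mul_of_nonneg_left _ (by positivity)
        exact mul_le_mul_of_nonneg_right h3 (by positivity)
    _ = Z ^ (ε / 4) := by
        rw [← Real.rpow_add hZ0, ← Real.rpow_add hZ0]
        congr 1
        rw [hr]; ring

end Pool.Agent.W_420c7c_h29
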